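import Mathlib
import Pool.Agent.Lib.MP_89bcae_ag.Z.Defs

/-!
# The cyclic coverings of the rational surfaces branched along an arbitrary irreducible curve
-/

open Polynomial

open scoped Classical

namespace Pool.Agent.Lib.MP_89bcae_ag.Zp

open Pool.Agent.Lib.MP_89bcae_ag.Zs (atInfinity ext powers galois)

/-- The curve `φ(t, x) = 0` is smooth at the point `(s, r)`, if it contains this point. Here `φ` is a polynomial
in `x` with coefficients in `F[t]`. -/
def IsSmoothAt {F : Type} [Field F] (φ : F[X][X]) (s r : F) : Prop :=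
  (φ.map (evalRingHom s)).eval r = 0 →
    (derivative (φ.map (evalRingHom s))).eval r ≠ 0 ∨ (derivative (φ.eval (C r))).eval s ≠ 0

/-- The polynomial `f` is monic of degree `n` prime to `ℓ` in `x`, irreducible over `F(t)` and separable in `x`, and
the coefficient of `x ^ i` has degree at most `e (n - i)`, with `ℓ` dividing `e`. So `f` defines an irreducible
curve, smooth or singular, in the Hirzebruch surface `F_e` over `F`, disjoint from the section at infinity, and the cyclic covering of
degree `ℓ` of `F_e` branched along this curve and along the section at infinity is not branched along the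
line at infinity. Such a number `e` exists for all `f`. -/
structure IsBranchCurve (ℓ e : ℕ) {k : Type} (F : Type) [Field k] [Field F] [Algebra k F]
    (f : k[X][X]) : Prop where
  monic : f.Monic
  coprime : f.natDegree.Coprime ℓ
  separable : derivative f ≠ 0
  irreducible : Irreducible (ext F f)
  dvd : ℓ ∣ e
  degree : ∀ i, (f.coeff i).natDegree ≤ e * (f.natDegree - i)

/-- The valuation ring `O` of the function field of the curve defined by `f` in `F_e` is centred at a smooth point
of this curve: this is a point `(s, r)` in the affine plane with coordinates `t`, `x`, or a point `(0, r)` in the affine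
plane with coordinates `1 / t`, `x / t ^ e`. -/
def IsRegular (e : ℕ) {k : Type} (F : Type) {E : Type} [Field k] [Field F] [Algebra k F] [Field E]
    [Algebra F E] (f : k[X][X]) (t x : E) (O : ValuationSubring E) : Prop :=
  (∃ s r : F, O.valuation (t - algebraMap F E s) < 1 ∧ O.valuation (x - algebraMap F E r) < 1 ∧
      IsSmoothAt (ext F f) s r) ∨
    ∃ r : F, O.valuation t⁻¹ < 1 ∧ O.valuation (x / t ^ e - algebraMap F E r) < 1 ∧
      IsSmoothAt (atInfinity e (ext F f)) 0 r

/-- Let `E` be the function field of the curve `B` defined by `f` in `F_e`. The group of the elements of `E` whose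
norm to `F(t)` is an `ℓ`-th power, and whose value is divisible by `ℓ` for all the valuation rings of `E` which
contain `F` and are centred at a smooth point of `B`. If `B` is smooth, its quotient by the group of the
`ℓ`-th powers is the group `J(B)[ℓ]`: the class of `u` corresponds to the class of the divisor `D` with `div u = ℓ D`. -/
def unramified (ℓ e : ℕ) {k : Type} (F : Type) {E : Type} [Field k] [Field F] [Algebra k F] [Field E]
    [Algebra F E] (f : k[X][X]) (t x : E) : Subgroup Eˣ where
  carrier := {u | (∃ w : IntermediateField.adjoin F {t},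
      Algebra.norm (IntermediateField.adjoin F {t}) (u : E) = w ^ ℓ) ∧
    ∀ O : ValuationSubring E, (∀ c : F, algebraMap F E c ∈ O) → IsRegular e F f t x O →
      ∃ w : Eˣ, O.valuation (u : E) = O.valuation (w : E) ^ ℓ}
  one_mem' := ⟨⟨1, by simp⟩, fun O _ _ => ⟨1, by simp⟩⟩
  mul_mem' := by
    rintro a b ⟨⟨w₁, h₁⟩, ha⟩ ⟨⟨w₂, h₂⟩, hb⟩
    refine ⟨⟨w₁ * w₂, by rw [Units.val_mul, map_mul, h₁, h₂, mul_pow]⟩, fun O hO hR => ?_⟩
    obtain ⟨w, hw⟩ := ha O hO hR
    obtain ⟨w', hw'⟩ := hb O hO hR
    exact ⟨w * w', by rw [Units.val_mul, Units.val_mul, map_mul, map_mul, mul_pow, hw, hw']⟩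
  inv_mem' := by
    rintro a ⟨⟨w₁, h₁⟩, ha⟩
    refine ⟨⟨w₁⁻¹, ?_⟩, fun O hO hR => ?_⟩
    · have h2 : Algebra.norm (IntermediateField.adjoin F {t}) ((a⁻¹ : Eˣ) : E) *
          Algebra.norm (IntermediateField.adjoin F {t}) (a : E) = 1 := by
        rw [← map_mul, Units.inv_mul, map_one]
      rw [h₁] at h2
      rw [inv_pow]
      exact eq_inv_of_mul_eq_one_left h2
    · obtain ⟨w, hw⟩ := ha O hO hR
      exact ⟨w⁻¹, by rw [Units.val_inv_eq_inv_val, Units.val_inv_eq_inv_val, map_inv₀, map_inv₀, inv_pow, hw]⟩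

section

variable (ℓ : ℕ) (k F : Type) {E : Type} [Field k] [Field F] [Algebra k F] [Field E] [Algebra F E]
  (t x : E) (U : Subgroup Eˣ)

/-- The criterion for the subgroup `U` of `Eˣ`: for each subgroup `N` of `U / (Eˣ) ^ ℓ` which is nonzero, stable
under the Galois group `G` (see `galois`) and has `ℓ ^ r` elements, the order of the image of `G` in the group of
the automorphisms of `N` is divisible by a higher power of `ℓ` than `ℓ ^ r r!`. -/
def IsCritical : Prop :=
  ∀ N : Subgroup Eˣ, powers ℓ E < N → N ≤ U →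
    (∀ γ ∈ galois ℓ k F t x, ∀ u ∈ N, Units.map (γ : E →* E) u ∈ N) →
    ∀ r : ℕ, (powers ℓ E).relIndex N = ℓ ^ r →
      r + padicValNat ℓ r.factorial < padicValNat ℓ (Nat.card (Set.range fun (γ : galois ℓ k F t x) (u : N) =>
        (Units.map ((γ : E ≃+* E) : E →* E) u : Eˣ ⧸ powers ℓ E)))

/-- The group `U / (Eˣ) ^ ℓ`, as a subgroup of the quotient of `Eˣ` by the `ℓ`-th powers. -/
def torsion : Subgroup (Eˣ ⧸ powers ℓ E) := U.map (QuotientGroup.mk' (powers ℓ E))

/-- The automorphism `φ` of `U / (Eˣ) ^ ℓ` is induced by an element of the Galois group (see `galois`). -/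
def IsInduced (φ : torsion ℓ U ≃* torsion ℓ U) : Prop :=
  ∃ γ ∈ galois ℓ k F t x, ∀ (u : Eˣ) (hu : (u : Eˣ ⧸ powers ℓ E) ∈ torsion ℓ U),
    (φ ⟨u, hu⟩ : Eˣ ⧸ powers ℓ E) = ((Units.map (γ : E →* E) u : Eˣ) : Eˣ ⧸ powers ℓ E)

/-- The prime `ℓ` is odd, the group `U / (Eˣ) ^ ℓ` has `ℓ ^ (2 g)` elements with `g ≥ 3`, and there is a
nondegenerate alternating pairing on this group, with values in the group of order `ℓ`, such that all its
automorphisms which preserve the pairing are induced by elements of the Galois group. -/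
def IsSymplectic : Prop :=
  ℓ ≠ 2 ∧ ∃ g : ℕ, 3 ≤ g ∧ Nat.card (torsion ℓ U) = ℓ ^ (2 * g) ∧
    ∃ e : torsion ℓ U →* torsion ℓ U →* Multiplicative (ZMod ℓ),
      (∀ u, e u u = 1) ∧ (∀ u, (∀ v, e u v = 1) → u = 1) ∧
      ∀ φ : torsion ℓ U ≃* torsion ℓ U, (∀ u v, e (φ u) (φ v) = e u v) → IsInduced ℓ k F t x U φ

/-- The prime `ℓ` is `2`, the group `U / (Eˣ) ^ 2` has `2 ^ (2 g)` elements with `g ≥ 5`, and there is a function `q`
on this group, with values in the group of order `2`, such that `q(u v) / (q(u) q(v))` is a nondegenerate pairing (in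
other words, `q` is a nondegenerate quadratic form) and that all the automorphisms which preserve `q` are
induced by elements of the Galois group. -/
def IsOrthogonal : Prop :=
  ℓ = 2 ∧ ∃ g : ℕ, 5 ≤ g ∧ Nat.card (torsion ℓ U) = ℓ ^ (2 * g) ∧
    ∃ (q : torsion ℓ U → Multiplicative (ZMod ℓ))
      (e : torsion ℓ U →* torsion ℓ U →* Multiplicative (ZMod ℓ)),
      (∀ u v, q (u * v) = q u * q v * e u v) ∧ (∀ u, (∀ v, e u v = 1) → u = 1) ∧
      ∀ φ : torsion ℓ U ≃* torsion ℓ U, (∀ u, q (φ u) = q u) → IsInduced ℓ k F t x U φ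

end

end Pool.Agent.Lib.MP_89bcae_ag.Zp
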