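import Mathlib
import Pool.Agent.Lib.MP_89bcae_ag.Z.L1
import Pool.Agent.Lib.MP_89bcae_ag.Zc.Tra
import Pool.Agent.Lib.MP_89bcae_ag.Zp.Defs

/-!
# The local form of the cochains, and the cochains given by unramified cocycles
-/

attribute [local instance 100000] Pool.Agent.Lib.MP_89bcae_ag.Brt.tffFields
attribute [local instance 100000] Pool.Agent.Lib.MP_89bcae_ag.Wt.ifrNF Pool.Agent.Lib.MP_89bcae_ag.Wt.iddNF

open Polynomial IsDedekindDomain

open scoped Classical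

namespace Pool.Agent.Lib.MP_89bcae_ag.Zp

open Pool.Agent.Lib.MP_89bcae_ag.Wt Pool.Agent.Lib.MP_89bcae_ag.Wt.Lns Pool.Agent.Lib.MP_89bcae_ag.Bra
  Pool.Agent.Lib.MP_89bcae_ag.Brt

open Pool.Agent.Lib.MP_89bcae_ag.Zs (nearL)

section

variable {F L Ω K M : Type} [Field F] [Field L] [Algebra F[X] L] [Field Ω] [Algebra L Ω] [Field K] [Field M]
  [Algebra K M] {ℓ : ℕ}

variable (F ℓ) in

/-- The cochain `c` is given by the divisors of an unramified cocycle. -/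
def UB (f : L[X]) [IsGood ℓ (f.map (algebraMap L Ω))] (c : (Ω ≃ₐ[L] Ω) → JacOver ℓ f Ω) : Prop :=
  ∃ (b : (Ω ≃ₐ[L] Ω) → (Ω ≃ₐ[L] Ω) → (FunField ℓ (f.map (algebraMap L Ω)))ˣ)
    (C : (Ω ≃ₐ[L] Ω) → (Pt ℓ (f.map (algebraMap L Ω)) →₀ ℤ)), ICoc b ∧ IUnr F b ∧ IDiv b C ∧
      ∀ g, c g = (cl (C g) : Jac ℓ (f.map (algebraMap L Ω)))

variable (ℓ) in

/-- The local form at a place, in a chart: `c` is the sum of a coboundary and of divisors supported at the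
ramification points, whose degree is divisible by `ℓ` near each point. -/
def LTe (F : Type) [Field F] [Algebra F M] (f : L[X]) (i : L →+* K) (j : Ω →+* M) (v : AbsoluteValue M ℝ) (a : L)
    [IsGood ℓ ((f.map i).map (algebraMap K M))] (c : (Ω ≃ₐ[L] Ω) → JacOver ℓ f Ω) : Prop :=
  ∃ Q : Jac ℓ ((f.map i).map (algebraMap K M)), ∀ (g : M ≃ₐ[K] M) (g' : Ω ≃ₐ[L] Ω), (∀ x, j (g' x) = g (j x)) →
    ∀ hpol : (f.map (algebraMap L Ω)).map j = (f.map i).map (algebraMap K M),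
    ∃ e : M → ℤ, jacMap ℓ j hpol (c g') + (rm e : Jac ℓ ((f.map i).map (algebraMap K M))) =
        symJ (gs (f.map i) g) Q - Q ∧
      ∀ r : F, (ℓ : ℤ) ∣ ∑ θ ∈ nearL v (algebraMap K M (i a)) ((f.map i).map (algebraMap K M)) r, e θ

end

end Pool.Agent.Lib.MP_89bcae_ag.Zp
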