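import Mathlib
import Pool.Agent.Lib.MP_89bcae_ag.Zc.Fin
import Pool.Agent.Lib.MP_89bcae_ag.Zp.Loc

/-!
# The local form of the unramified cocycles
-/

attribute [local instance 100000] Pool.Agent.Lib.MP_89bcae_ag.Brt.tffFields
attribute [local instance 100000] Pool.Agent.Lib.MP_89bcae_ag.Wt.ifrNF Pool.Agent.Lib.MP_89bcae_ag.Wt.iddNF

open Polynomial IsDedekindDomain IsLocalRing

open scoped Classical

namespace Pool.Agent.Lib.MP_89bcae_ag.Zp

open Pool.Agent.Lib.MP_89bcae_ag.Wt Pool.Agent.Lib.MP_89bcae_ag.Wt.Lns Pool.Agent.Lib.MP_89bcae_ag.Bra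
  Pool.Agent.Lib.MP_89bcae_ag.Brt

open Pool.Agent.Lib.MP_89bcae_ag.Zc

open Pool.Agent.Lib.MP_89bcae_ag.Zs (nearL)


section

variable {F K E : Type} [Field F] [IsAlgClosed F] [Field K] [Algebra F[X] K] [Field E]
  [Algebra K E] [Algebra F E] [IsAlgClosure K E] {ℓ : ℕ} {s : F} {v : AbsoluteValue E ℝ} {ζ : F}
  {f : K[X]}

omit [IsAlgClosed F] [Algebra F[X] K] [Algebra F E] [IsAlgClosure K E] in
private lemma p_root (g : E ≃ₐ[K] E) {θ : E} (hθ : (f.map (algebraMap K E)).eval θ = 0) :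
    (f.map (algebraMap K E)).eval (g θ) = 0 := by
  have h1 : (f.map (algebraMap K E)).eval (g θ) = g ((f.map (algebraMap K E)).eval θ) := by
    rw [eval_map_algebraMap, eval_map_algebraMap]
    exact aeval_algHom_apply (g : E →ₐ[K] E) θ f
  rw [h1, hθ, map_zero]

omit [IsAlgClosed F] [Algebra F[X] K] [Algebra F E] [IsAlgClosure K E] in
private lemma p_wt (g : E ≃ₐ[K] E) (θ : E) :
    wt (f.map (algebraMap K E)) (g θ) = wt (f.map (algebraMap K E)) θ :=
  wt_sym (gs f g) θ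

omit [IsAlgClosure K E] in
/-- The sums over the roots with a given residue are invariant. -/
private lemma p_sum (hL : LocF F K s v) {res : E → F} (hf0 : f.map (algebraMap K E) ≠ 0)
    (hres : ∀ θ, (f.map (algebraMap K E)).eval θ = 0 → v (θ - algebraMap F E (res θ)) < 1)
    (g : E ≃ₐ[K] E) (r : F) (φ : E → ℤ) :
    ∑ θ ∈ rtsOver (f.map (algebraMap K E)) res r,
      (wt (f.map (algebraMap K E)) θ : ℤ) * φ (g⁻¹ θ) =
    ∑ θ ∈ rtsOver (f.map (algebraMap K E)) res r, (wt (f.map (algebraMap K E)) θ : ℤ) * φ θ := by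
  have hmem : ∀ (g : E ≃ₐ[K] E) (θ : E), θ ∈ rtsOver (f.map (algebraMap K E)) res r →
      g θ ∈ rtsOver (f.map (algebraMap K E)) res r := by
    intro g θ hθ
    unfold rtsOver at hθ ⊢
    rw [Finset.mem_filter, Multiset.mem_toFinset, mem_roots hf0, IsRoot.def] at hθ ⊢
    have h1 := p_root g hθ.1
    exact ⟨h1, by rw [res_conj hL hres g hθ.1 h1]; exact hθ.2⟩
  refine Finset.sum_nbij' (fun θ => g⁻¹ θ) (fun θ => g θ) ?_ ?_ ?_ ?_ ?_
  · exact fun θ hθ => hmem g⁻¹ θ hθ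
  · exact fun θ hθ => hmem g θ hθ
  · exact fun θ _ => g.apply_symm_apply θ
  · exact fun θ _ => g.symm_apply_apply θ
  · intro θ _
    show (wt (f.map (algebraMap K E)) θ : ℤ) * φ (g⁻¹ θ) =
      (wt (f.map (algebraMap K E)) (g⁻¹ θ) : ℤ) * φ (g⁻¹ θ)
    rw [p_wt]

variable [hG : IsGood ℓ (f.map (algebraMap K E))]

/-- The main step. -/
theorem cluster_base (hℓ : ℓ.Prime) (hℓF : (ℓ : F) ≠ 0) (hζ : IsPrimitiveRoot ζ ℓ)
    (hL : LocF F K s v) (hf : f.Monic) (hsep : (f.map (algebraMap K E)).Separable) {res : E → F}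
    (hres : ∀ θ, (f.map (algebraMap K E)).eval θ = 0 → v (θ - algebraMap F E (res θ)) < 1)
    {b : (E ≃ₐ[K] E) → (E ≃ₐ[K] E) → (FunField ℓ (f.map (algebraMap K E)))ˣ}
    {C : (E ≃ₐ[K] E) → (Pt ℓ (f.map (algebraMap K E)) →₀ ℤ)} (hb : ICoc b) (hC : IDiv b C)
    (hNZ : NeZero ℓ) (hu : LUnr F s b) (hz : (algebraMap F E ζ) ^ ℓ = 1)
    (Q' : Jac ℓ (f.map (algebraMap K E)))
    (hQ' : ∀ g, cl (C g) - zJ (algebraMap F E ζ) hz (cl (C g)) = symJ (gs f g) Q' - Q') :
    ∃ (Q : Jac ℓ (f.map (algebraMap K E))) (e : (E ≃ₐ[K] E) → E → ℤ),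
      (∀ g, cl (C g) = symJ (gs f g) Q - Q + rm (e g)) ∧
      ∀ g r, (ℓ : ℤ) ∣ ∑ θ ∈ rtsOver (f.map (algebraMap K E)) res r, e g θ := by
  have hEc : IsAlgClosed E := IsAlgClosure.isAlgClosed K
  obtain ⟨ϖ, hϖ⟩ := IsAlgClosed.exists_pow_nat_eq
    (algebraMap K E (algebraMap F[X] K X) - algebraMap F E s) hℓ.pos
  have hϖ0 : ϖ ≠ 0 := by
    rintro rfl
    rw [zero_pow hℓ.ne_zero] at hϖ
    exact hL.ctx.ne (sub_eq_zero.mp hϖ.symm)
  have hzK : IsPrimitiveRoot (algebraMap F[X] K (Polynomial.C ζ)) ℓ :=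
    hζ.map_of_injective (f := (algebraMap F[X] K).comp Polynomial.C) (RingHom.injective _)
  have hϖK : ϖ ^ ℓ = algebraMap K E (algebraMap F[X] K (X - Polynomial.C s)) := by
    rw [hϖ, hL.compat, map_sub, map_sub]
  obtain ⟨χ, hχ⟩ := exists_isChi hℓ hzK hϖ0 ⟨_, hϖK⟩
  obtain ⟨σ, hσ⟩ := exists_chi_one hL hℓF hζ hχ hϖ
  have hz' : (algebraMap K E (algebraMap F[X] K (Polynomial.C ζ))) ^ ℓ = 1 := by
    rw [← hL.compat]
    exact hz
  have hf0 : f.map (algebraMap K E) ≠ 0 := (hf.map _).ne_zero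
  obtain ⟨e, ε, Q, m, a₀, hD⟩ := exists_ramData hzK hb hC hz' Q' (by
    intro g
    rw [G04_zJ_congr (hL.compat ζ).symm hz' hz]
    exact hQ' g)
  have ha₀ := brTriv_loc hℓ hℓF hL a₀ hD.coc
  -- the numbers `M r`
  have hM : ∀ r : F, ∃ M : ℤ, ∀ g : E ≃ₐ[K] E,
      (ℓ : ℤ) ∣ ∑ θ ∈ rtsOver (f.map (algebraMap K E)) res r,
        (wt (f.map (algebraMap K E)) θ : ℤ) * e g θ - χ g * M := by
    intro r
    obtain ⟨a, -, ha⟩ := hom_chi hL hℓF hζ hχ hϖ (A := ZMod ℓ)
      (fun g => ((∑ θ ∈ rtsOver (f.map (algebraMap K E)) res r,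
        (wt (f.map (algebraMap K E)) θ : ℤ) * e g θ : ℤ) : ZMod ℓ))
      (by
        obtain ⟨T, hT⟩ := hD.cts_e
        refine ⟨T, fun g g' h => ?_⟩
        show ((∑ θ ∈ rtsOver (f.map (algebraMap K E)) res r,
          (wt (f.map (algebraMap K E)) θ : ℤ) * e g θ : ℤ) : ZMod ℓ) =
          ((∑ θ ∈ rtsOver (f.map (algebraMap K E)) res r,
          (wt (f.map (algebraMap K E)) θ : ℤ) * e g' θ : ℤ) : ZMod ℓ)
        rw [hT g g' h])
      (by
        intro g h
        show ((∑ θ ∈ rtsOver (f.map (algebraMap K E)) res r,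
          (wt (f.map (algebraMap K E)) θ : ℤ) * e (g * h) θ : ℤ) : ZMod ℓ) =
          ((∑ θ ∈ rtsOver (f.map (algebraMap K E)) res r,
          (wt (f.map (algebraMap K E)) θ : ℤ) * e g θ : ℤ) : ZMod ℓ) +
          ((∑ θ ∈ rtsOver (f.map (algebraMap K E)) res r,
          (wt (f.map (algebraMap K E)) θ : ℤ) * e h θ : ℤ) : ZMod ℓ)
        rw [← Int.cast_add, ← sub_eq_zero, ← Int.cast_sub, ZMod.intCast_zmod_eq_zero_iff_dvd]
        rw [← p_sum hL hf0 hres g r (e h), ← Finset.sum_add_distrib, ← Finset.sum_sub_distrib]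
        refine Finset.dvd_sum fun θ hθ => ?_
        have hθ' : (f.map (algebraMap K E)).eval θ = 0 := by
          unfold rtsOver at hθ
          rw [Finset.mem_filter, Multiset.mem_toFinset, mem_roots hf0, IsRoot.def] at hθ
          exact hθ.1
        refine ⟨-((wt (f.map (algebraMap K E)) θ : ℤ) * ε g h θ), ?_⟩
        have h1 := hD.eps g h θ hθ'
        linear_combination (wt (f.map (algebraMap K E)) θ : ℤ) * h1)
      (by
        intro g
        rw [nsmul_eq_mul, ZMod.natCast_self, zero_mul])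
    refine ⟨(a.val : ℤ), fun g => ?_⟩
    have h1 := ha g
    rw [← ZMod.intCast_zmod_eq_zero_iff_dvd, Int.cast_sub, h1, nsmul_eq_mul, Int.cast_mul,
      Int.cast_natCast, Int.cast_natCast, ZMod.natCast_val, ZMod.cast_id, sub_self]
  choose M hM using hM
  obtain ⟨c, hc⟩ := exists_condV hℓ hℓF hζ hL hf hres hχ hϖ hu hD ha₀ M (fun g r => hM r g)
  -- the sum over the residues
  have hfib : ∀ φ : E → ℤ, ∑ r ∈ (f.map (algebraMap K E)).roots.toFinset.image res,
      ∑ θ ∈ rtsOver (f.map (algebraMap K E)) res r, φ θ =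
        ∑ θ ∈ (f.map (algebraMap K E)).roots.toFinset, φ θ := by
    intro φ
    unfold rtsOver
    exact Finset.sum_fiberwise_of_maps_to (fun θ hθ => Finset.mem_image_of_mem _ hθ) _
  have hsumM : (ℓ : ℤ) ∣ ∑ r ∈ (f.map (algebraMap K E)).roots.toFinset.image res, M r := by
    have h1 := hD.sum σ
    rw [← hfib] at h1
    have h2 : (ℓ : ℤ) ∣ ∑ r ∈ (f.map (algebraMap K E)).roots.toFinset.image res,
        (∑ θ ∈ rtsOver (f.map (algebraMap K E)) res r,
          (wt (f.map (algebraMap K E)) θ : ℤ) * e σ θ - χ σ * M r) :=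
      Finset.dvd_sum fun r _ => hM r σ
    rw [Finset.sum_sub_distrib, hσ] at h2
    have h3 := dvd_sub h1 h2
    rw [sub_sub_cancel] at h3
    simpa using h3
  have hdeg : ∑ r ∈ (f.map (algebraMap K E)).roots.toFinset.image res,
      ∑ θ ∈ rtsOver (f.map (algebraMap K E)) res r, (wt (f.map (algebraMap K E)) θ : ℤ) =
        (f.map (algebraMap K E)).natDegree := by
    rw [hfib]
    have h1 := sum_wt (f.map (algebraMap K E))
    unfold Sup.rts at h1
    rw [← h1, Nat.cast_sum]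
  have hc0 : (ℓ : ℤ) ∣ c := by
    have h2 : (ℓ : ℤ) ∣ ∑ r ∈ (f.map (algebraMap K E)).roots.toFinset.image res,
        (M r - c * ∑ θ ∈ rtsOver (f.map (algebraMap K E)) res r,
          (wt (f.map (algebraMap K E)) θ : ℤ)) :=
      Finset.dvd_sum fun r _ => hc r
    rw [Finset.sum_sub_distrib, ← Finset.mul_sum, hdeg] at h2
    have h3 := dvd_sub hsumM h2
    rw [sub_sub_cancel] at h3
    have h4 : IsCoprime (ℓ : ℤ) ((f.map (algebraMap K E)).natDegree : ℤ) :=
      (Nat.isCoprime_iff_coprime.2 hG.coprime).symm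
    exact h4.dvd_of_dvd_mul_right h3
  have hMr : ∀ r, (ℓ : ℤ) ∣ M r := by
    intro r
    have h1 := dvd_add (hc r) (hc0.mul_right (∑ θ ∈ rtsOver (f.map (algebraMap K E)) res r,
          (wt (f.map (algebraMap K E)) θ : ℤ)))
    rwa [sub_add_cancel] at h1
  refine ⟨Q, e, hD.cl, fun g r => ?_⟩
  have h1 := dvd_add (hM r g) ((hMr r).mul_left (χ g : ℤ))
  rw [sub_add_cancel] at h1
  have h2 : ∑ θ ∈ rtsOver (f.map (algebraMap K E)) res r, e g θ =
      ∑ θ ∈ rtsOver (f.map (algebraMap K E)) res r,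
        (wt (f.map (algebraMap K E)) θ : ℤ) * e g θ := by
    refine Finset.sum_congr rfl fun θ hθ => ?_
    have h3 : wt (f.map (algebraMap K E)) θ = 1 := by
      unfold rtsOver at hθ
      rw [Finset.mem_filter, Multiset.mem_toFinset] at hθ
      have h4 : 0 < wt (f.map (algebraMap K E)) θ := by
        unfold wt
        rw [rootMultiplicity_pos hf0]
        exact (mem_roots hf0).mp hθ.1
      have h5 : wt (f.map (algebraMap K E)) θ ≤ 1 := by
        unfold wt
        exact rootMultiplicity_le_one_of_separable hsep θ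
      omega
    rw [h3, Nat.cast_one, one_mul]
  rw [h2]
  exact h1

end

section

variable {F L Ω K E : Type} [Field F] [IsAlgClosed F] [Field L] [Algebra F[X] L] [Field Ω]
  [Algebra L Ω] [IsAlgClosure L Ω] [Field K] [Algebra L K] [Algebra F[X] K] [IsScalarTower F[X] L K]
  [Field E] [Algebra K E] [Algebra L E] [IsScalarTower L K E] [Algebra F E] [IsAlgClosure K E]
  {ℓ : ℕ} {s : F} {v : AbsoluteValue E ℝ} {ζ : F} {f : L[X]}
  [hG : IsGood ℓ (f.map (algebraMap L Ω))]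
  [hG' : IsGood ℓ ((f.map (algebraMap L K)).map (algebraMap K E))]

/-- The local form of a cocycle `b` whose divisors are killed by `1 - Z`. -/
theorem cluster_vert (hℓ : ℓ.Prime) (hℓF : (ℓ : F) ≠ 0) (hζ : IsPrimitiveRoot ζ ℓ)
    (hL : LocF F K s v) (hf : f.Monic) (hsep : ((f.map (algebraMap L K)).map (algebraMap K E)).Separable)
    {res : E → F}
    (hres : ∀ θ, ((f.map (algebraMap L K)).map (algebraMap K E)).eval θ = 0 → v (θ - algebraMap F E (res θ)) < 1)
    (b : (Ω ≃ₐ[L] Ω) → (Ω ≃ₐ[L] Ω) → (FunField ℓ (f.map (algebraMap L Ω)))ˣ) (hb : ICoc b)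
    (hu : IUnr F b) (C : (Ω ≃ₐ[L] Ω) → (Pt ℓ (f.map (algebraMap L Ω)) →₀ ℤ))
    (hC : IDiv b C) (hz : (algebraMap L Ω (algebraMap F[X] L (Polynomial.C ζ))) ^ ℓ = 1)
    (hZ : ∀ g, zJ (algebraMap L Ω (algebraMap F[X] L (Polynomial.C ζ))) hz (cl (C g)) =
      (cl (C g) : Jac ℓ (f.map (algebraMap L Ω))))
    (j : Ω →ₐ[L] E) (ρ : (E ≃ₐ[K] E) →* (Ω ≃ₐ[L] Ω)) (hρ : ∀ g z, j (ρ g z) = g (j z)) :
    ∃ (Q : Jac ℓ ((f.map (algebraMap L K)).map (algebraMap K E))) (e : (E ≃ₐ[K] E) → E → ℤ),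
      (∀ g, jacMap ℓ (j : Ω →+* E) (map_jj f K j) (cl (C (ρ g))) = symJ (gs _ g) Q - Q + rm (e g)) ∧
      ∀ g r, (ℓ : ℤ) ∣ ∑ θ ∈ rtsOver ((f.map (algebraMap L K)).map (algebraMap K E)) res r, e g θ := by
  have hNZ : NeZero ℓ := ⟨hℓ.ne_zero⟩
  -- the root of unity
  set ζL : L := algebraMap F[X] L (Polynomial.C ζ) with hζL
  have hzL : IsPrimitiveRoot ζL ℓ :=
    hζ.map_of_injective (f := (algebraMap F[X] L).comp Polynomial.C) (RingHom.injective _)
  have hzE : IsPrimitiveRoot (algebraMap L E ζL) ℓ :=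
    hzL.map_of_injective (algebraMap L E).injective
  have hzF : algebraMap F E ζ = algebraMap L E ζL := by
    rw [hL.compat, IsScalarTower.algebraMap_apply F[X] L K,
      ← IsScalarTower.algebraMap_apply L K E]
  have hj : (j : Ω →+* E) (algebraMap L Ω ζL) = algebraMap L E ζL := j.commutes ζL
  have hzj : ((j : Ω →+* E) (algebraMap L Ω ζL)) ^ ℓ = 1 := by
    rw [hj]
    exact hzE.pow_eq_one
  obtain ⟨Q, e, h1, h2⟩ := cluster_base (s := s) (v := v) (ζ := ζ) (res := res) hℓ hℓF hζ hL (hf.map _) hsep hres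
    (hb.bv j ρ hρ) (hC.bv j ρ hρ) hNZ (lunr_of_iunr j ρ hρ s hu) (by rw [hzF]; exact hzE.pow_eq_one) 0 (by
      intro g
      rw [map_zero, sub_zero, cl_Cv, G04_zJ_congr (hzF.trans hj.symm) (by rw [hzF]; exact hzE.pow_eq_one) hzj,
        zJ_jacMap (j : Ω →+* E) (map_jj f K j) _ hz hzj, hZ, sub_self])
  refine ⟨Q, e, fun g => ?_, h2⟩
  rw [← h1, cl_Cv]

end

section

variable {A : Type} [Field A] {ℓ : ℕ}

/-- Separable monic polynomials are good. -/
lemma good_sep [IsAlgClosed A] {p : A[X]} (h1 : 1 < ℓ) (h0 : (ℓ : A) ≠ 0) (hs : p.Separable)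
    (hc : p.natDegree.Coprime ℓ) : IsGood ℓ p := by
  refine ⟨inferInstance, h1, h0, fun θ hθ => ?_, hc⟩
  have h2 := Polynomial.rootMultiplicity_le_one_of_separable hs θ
  have h3 : 0 < p.rootMultiplicity θ := (Polynomial.rootMultiplicity_pos hs.ne_zero).mpr hθ
  rw [show p.rootMultiplicity θ = 1 by omega]
  exact Nat.coprime_one_left ℓ

/-- The weight of a root. -/
lemma wt_sep {p : A[X]} (hs : p.Separable) {θ : A} (hθ : p.eval θ = 0) : wt p θ = 1 := by
  have h1 := Polynomial.rootMultiplicity_le_one_of_separable hs θ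
  have h2 : 0 < p.rootMultiplicity θ := (Polynomial.rootMultiplicity_pos hs.ne_zero).mpr hθ
  unfold wt
  omega

/-- The change of coordinates and the ramification points. -/
lemma scJ_rm {p p' : A[X]} [IsGood ℓ p] [IsGood ℓ p'] {a b : A} (h : Scale ℓ p p' a b) (hs : p.Separable)
    (hs' : p'.Separable) (n : A → ℤ) :
    scJ h (rm n : Jac ℓ p) = rm fun θ => n (a * θ) := by
  unfold rm
  rw [scJ_ram]
  refine ram_congr _ _ fun θ hθ => ?_
  have h1 : p.eval (a * θ) = 0 := by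
    rw [← h.eval, mul_div_cancel_left₀ _ h.a_ne, hθ, mul_zero]
  rw [wt_sep hs h1, wt_sep hs' hθ, sub_self]
  exact dvd_zero _

lemma rm_neg' {p : A[X]} [IsGood ℓ p] (n : A → ℤ) : (rm fun θ => -n θ : Jac ℓ p) = -rm n := by
  have h1 := rm_sub (N := ℓ) (f := p) (fun _ => 0) n
  have h2 := rm_sub (N := ℓ) (f := p) n n
  simp only [sub_self] at h2
  rw [h2, zero_sub] at h1
  simpa using h1

end

section

variable {F L Ω K M : Type} [Field F] [IsAlgClosed F] [Field L] [Algebra F[X] L] [Field Ω] [Algebra L Ω]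
  [IsAlgClosure L Ω] [Field K] [Algebra F[X] K] [Field M] [Algebra K M] [IsAlgClosure K M] [Algebra F M]
  {ℓ : ℕ} {ζ : F} {f : L[X]} [hG : IsGood ℓ (f.map (algebraMap L Ω))]

/-- The local form, for homomorphisms. -/
theorem cluster_aux (j : Ω →+* M) (i : L →+* K) (hi : ∀ z, algebraMap K M (i z) = j (algebraMap L Ω z))
    (hp : ∀ p : F[X], i (algebraMap F[X] L p) = algebraMap F[X] K p) (hℓ : ℓ.Prime)
    (hℓF : (ℓ : F) ≠ 0) (hζ : IsPrimitiveRoot ζ ℓ) {s : F} {v : AbsoluteValue M ℝ} (hL : LocF F K s v) (hf : f.Monic)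
    [hG' : IsGood ℓ ((f.map i).map (algebraMap K M))]
    (hsep : ((f.map i).map (algebraMap K M)).Separable) {res : M → F}
    (hres : ∀ θ, ((f.map i).map (algebraMap K M)).eval θ = 0 → v (θ - algebraMap F M (res θ)) < 1)
    (b : (Ω ≃ₐ[L] Ω) → (Ω ≃ₐ[L] Ω) → (FunField ℓ (f.map (algebraMap L Ω)))ˣ) (hb : ICoc b)
    (hu : IUnr F b) (C : (Ω ≃ₐ[L] Ω) → (Pt ℓ (f.map (algebraMap L Ω)) →₀ ℤ)) (hC : IDiv b C)
    (hz : (algebraMap L Ω (algebraMap F[X] L (Polynomial.C ζ))) ^ ℓ = 1)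
    (hZ : ∀ g, zJ (algebraMap L Ω (algebraMap F[X] L (Polynomial.C ζ))) hz (cl (C g)) =
      (cl (C g) : Jac ℓ (f.map (algebraMap L Ω)))) :
    ∃ Q : Jac ℓ ((f.map i).map (algebraMap K M)), ∀ (g : M ≃ₐ[K] M) (g' : Ω ≃ₐ[L] Ω), (∀ x, j (g' x) = g (j x)) →
      ∀ hpol : (f.map (algebraMap L Ω)).map j = (f.map i).map (algebraMap K M),
      ∃ e : M → ℤ, jacMap ℓ j hpol (cl (C g')) =
          symJ (gs (f.map i) g) Q - Q + (rm e : Jac ℓ ((f.map i).map (algebraMap K M))) ∧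
        ∀ r : F, (ℓ : ℤ) ∣ ∑ θ ∈ rtsOver ((f.map i).map (algebraMap K M)) res r, e θ := by
  let _ : Algebra L K := i.toAlgebra
  have : IsScalarTower F[X] L K := IsScalarTower.of_algebraMap_eq fun p => (hp p).symm
  let _ : Algebra L M := (j.comp (algebraMap L Ω)).toAlgebra
  have : IsScalarTower L K M := IsScalarTower.of_algebraMap_eq fun z => (hi z).symm
  let j' : Ω →ₐ[L] M := { j with commutes' := fun _ => rfl }
  obtain ⟨ρ, hρ⟩ := exists_rho (K := K) j'
  have hG'' : IsGood ℓ ((f.map (algebraMap L K)).map (algebraMap K M)) := hG'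
  obtain ⟨Q, e, h1, h2⟩ := cluster_vert (K := K) hℓ hℓF hζ hL hf hsep hres b hb hu C hC hz hZ j' ρ hρ
  refine ⟨Q, fun g g' hg hpol => ⟨e g, ?_, h2 g⟩⟩
  have hgg : g' = ρ g := by
    ext z
    apply (j : Ω →+* M).injective
    rw [hg]
    exact (hρ g z).symm
  subst hgg
  exact h1 g

end

section

variable {F L Ω K M : Type} [Field F] [IsAlgClosed F] [Field L] [Algebra F[X] L] [Field Ω] [Algebra L Ω]
  [IsAlgClosure L Ω] [Field K] [Algebra F[X] K] [Field M] [Algebra K M] [IsAlgClosure K M] [Algebra F M]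
  {ℓ : ℕ} {ζ : F} {f : L[X]} [hG : IsGood ℓ (f.map (algebraMap L Ω))]

/-- The local form at a place, in a chart. -/
theorem lte_chart (hℓ : ℓ.Prime) (hℓF : (ℓ : F) ≠ 0) (hζ : IsPrimitiveRoot ζ ℓ)
    (ψ : F[X] →+* L) (hψ : ∀ a, ψ (Polynomial.C a) = algebraMap F[X] L (Polynomial.C a)) {φ : F[X][X]}
    (hφ : φ.Monic) {a b' : L} (hS : Scale ℓ f (φ.map ψ) a b') (hfm : f.Monic) (hsep : f.Separable)
    (_hcop : f.natDegree.Coprime ℓ) {s : F} (i : L →+* K) (j : Ω →+* M)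
    (hij : ∀ z, j (algebraMap L Ω z) = algebraMap K M (i z)) (hK : ∀ p, algebraMap F[X] K p = i (ψ p))
    (hM : ∀ a : F, algebraMap F M a = algebraMap K M (i (algebraMap F[X] L (Polynomial.C a))))
    {v : AbsoluteValue M ℝ} (hL : LocF F K s v)
    [hG' : IsGood ℓ ((f.map i).map (algebraMap K M))]
    (b : (Ω ≃ₐ[L] Ω) → (Ω ≃ₐ[L] Ω) → (FunField ℓ (f.map (algebraMap L Ω)))ˣ)
    (C : (Ω ≃ₐ[L] Ω) → (Pt ℓ (f.map (algebraMap L Ω)) →₀ ℤ)) (hb : ICoc b)
    (hu : IUnr F b) (hC : IDiv b C)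
    (hz : (algebraMap L Ω (algebraMap F[X] L (Polynomial.C ζ))) ^ ℓ = 1)
    (hZ : ∀ g, zJ (algebraMap L Ω (algebraMap F[X] L (Polynomial.C ζ))) hz (cl (C g)) =
      (cl (C g) : Jac ℓ (f.map (algebraMap L Ω)))) :
    LTe ℓ F f i j v a (fun g => cl (C g)) := by
  have hMc : IsAlgClosed M := IsAlgClosure.isAlgClosed K
  have hΩc : IsAlgClosed Ω := IsAlgClosure.isAlgClosed L
  have hℓL : (ℓ : L) ≠ 0 := by
    rw [← map_natCast ((algebraMap F[X] L).comp (Polynomial.C : F →+* F[X])) ℓ]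
    exact (_root_.map_ne_zero _).2 hℓF
  have hdeg : (φ.map ψ).natDegree = f.natDegree := by
    have h1 := congrArg natDegree hS.eq
    rw [natDegree_C_mul (pow_ne_zero _ hS.b_ne), natDegree_comp, natDegree_C_mul_X _ hS.a_ne, mul_one] at h1
    exact h1
  have hcop : f.natDegree.Coprime ℓ := by
    have h1 := hG.coprime
    rwa [natDegree_map] at h1
  have hsep' : (φ.map ψ).Separable := by
    refine Separable.of_mul_right (f := Polynomial.C (b' ^ ℓ)) ?_
    rw [hS.eq]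
    exact separable_comp_scale hsep hS.a_ne
  have hGφ : IsGood ℓ ((φ.map ψ).map (algebraMap L Ω)) := by
    refine good_sep hℓ.one_lt ?_ hsep'.map ?_
    · rw [← map_natCast (algebraMap L Ω) ℓ]
      exact (_root_.map_ne_zero _).2 hℓL
    · rw [natDegree_map, hdeg]
      exact hcop
  have hGφ' : IsGood ℓ (((φ.map ψ).map i).map (algebraMap K M)) := by
    refine good_sep hℓ.one_lt ?_ hsep'.map.map ?_
    · rw [← map_natCast ((algebraMap K M).comp i) ℓ]
      exact (_root_.map_ne_zero _).2 hℓL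
    · rw [natDegree_map, natDegree_map, hdeg]
      exact hcop
  have hpolf : (f.map (algebraMap L Ω)).map j = (f.map i).map (algebraMap K M) := by
    rw [Polynomial.map_map, Polynomial.map_map]
    congr 1
    exact RingHom.ext hij
  have hji : j.comp (algebraMap L Ω) = (algebraMap K M).comp i := RingHom.ext hij
  have hpolφ : ((φ.map ψ).map (algebraMap L Ω)).map j = ((φ.map ψ).map i).map (algebraMap K M) := by
    rw [Polynomial.map_map (algebraMap L Ω) j, Polynomial.map_map i (algebraMap K M), hji]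
  obtain ⟨p, hp⟩ : ∃ p : M[X], p = (f.map i).map (algebraMap K M) := ⟨_, rfl⟩
  obtain ⟨p', hp'⟩ : ∃ p' : M[X], p' = ((φ.map ψ).map i).map (algebraMap K M) := ⟨_, rfl⟩
  have hSM : Scale ℓ ((f.map i).map (algebraMap K M)) (((φ.map ψ).map i).map (algebraMap K M))
      (j (algebraMap L Ω a)) (j (algebraMap L Ω b')) := Scale.map j hpolf hpolφ (scO hS)
  have hpio : ((φ.map ψ).map i).map (algebraMap K M) = φ.map (io F K M) := by
    rw [Polynomial.map_map, Polynomial.map_map]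
    congr 1
    refine RingHom.ext fun p => ?_
    show algebraMap K M (i (ψ p)) = algebraMap K M (algebraMap F[X] K p)
    rw [hK]
  have hle : ∀ θ, (((φ.map ψ).map i).map (algebraMap K M)).eval θ = 0 → v θ ≤ 1 := by
    intro θ hθ
    rw [hpio] at hθ
    refine root_le hL.ctx.nonarch (hφ.map _) (fun n => ?_) hθ
    rw [coeff_map]
    have h1 := io_sub (K := K) (E := M) hL (φ.coeff n)
    have h2 := hL.ctx.nonarch (io F K M (φ.coeff n) - algebraMap F M ((φ.coeff n).eval s))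
      (algebraMap F M ((φ.coeff n).eval s))
    rw [sub_add_cancel] at h2
    refine h2.trans (max_le h1.le ?_)
    by_cases h3 : (φ.coeff n).eval s = 0
    · rw [h3, map_zero, map_zero]
      exact zero_le_one
    · exact (hL.ctx.const _ h3).le
  obtain ⟨res, hres'⟩ : ∃ res : M → F, ∀ θ, v θ ≤ 1 → v (θ - algebraMap F M (res θ)) < 1 := by
    refine ⟨fun θ => if h : v θ ≤ 1 then (hL.ctx.residue θ h).choose else 0, fun θ h1 => ?_⟩
    show v (θ - algebraMap F M (if h : v θ ≤ 1 then (hL.ctx.residue θ h).choose else 0)) < 1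
    rw [dif_pos h1]
    exact (hL.ctx.residue θ h1).choose_spec
  have hres : ∀ θ, (((φ.map ψ).map i).map (algebraMap K M)).eval θ = 0 → v (θ - algebraMap F M (res θ)) < 1 :=
    fun θ hθ => hres' θ (hle θ hθ)
  -- the cocycle in the chart
  have hu2 : @IUnr L Ω _ _ _ ℓ (φ.map ψ) F _ ψ.toAlgebra (trB hS b) :=
    iunr_congr _ ψ.toAlgebra (fun c => (hψ c).symm) (iunr_tr hS hu)
  have hz2 : (algebraMap L Ω (ψ (Polynomial.C ζ))) ^ ℓ = 1 := by
    rw [hψ]
    exact hz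
  have hcl : ∀ g, (cl (trC hS C g) : Jac ℓ ((φ.map ψ).map (algebraMap L Ω))) = scJ (scO hS) (cl (C g)) :=
    fun g => cl_trC hS C g
  have key := @cluster_aux F L Ω K M _ _ _ ψ.toAlgebra _ _ _ _ _ _ _ _ _ ℓ ζ (φ.map ψ) hGφ j i
    (fun z => (hij z).symm) (fun p => (hK p).symm) hℓ hℓF hζ s v hL (hφ.map ψ) hGφ' hsep'.map.map res hres
    (trB hS b) (icoc_tr hS hb) hu2 (trC hS C) (idiv_tr hS hC) hz2 (by
      intro g
      rw [hcl, ← scJ_zJ]
      congr 1
      exact (G04_zJ_congr (congrArg (algebraMap L Ω) (hψ ζ)) hz2 hz _).trans (hZ g))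
  obtain ⟨Q', hQ'⟩ := key
  -- the two sets of roots
  have hA : j (algebraMap L Ω a) = algebraMap K M (i a) := hij a
  have hA0 : algebraMap K M (i a) ≠ 0 := by
    rw [← hA]
    exact hSM.a_ne
  have hrt : ∀ θ : M, ((f.map i).map (algebraMap K M)).eval θ = 0 ↔
      (((φ.map ψ).map i).map (algebraMap K M)).eval (θ / algebraMap K M (i a)) = 0 := by
    intro θ
    rw [← hSM.eval, hA, mul_eq_zero, or_iff_right (pow_ne_zero _ hSM.b_ne)]
  have hsepM : ((f.map i).map (algebraMap K M)).Separable := hsep.map.map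
  have hsepM' : (((φ.map ψ).map i).map (algebraMap K M)).Separable := hsep'.map.map
  have hnear : ∀ (r : F) (θ : M), θ ∈ nearL v (algebraMap K M (i a)) ((f.map i).map (algebraMap K M)) r ↔
      θ / algebraMap K M (i a) ∈ rtsOver (((φ.map ψ).map i).map (algebraMap K M)) res r := by
    intro r θ
    unfold nearL rtsOver
    rw [Finset.mem_filter, Finset.mem_filter, Multiset.mem_toFinset, Multiset.mem_toFinset,
      mem_roots hsepM.ne_zero, mem_roots hsepM'.ne_zero, IsRoot.def, IsRoot.def, hrt]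
    refine and_congr_right fun h => ?_
    constructor
    · intro h1
      exact hL.ctx.residue_unique (hres _ h) h1
    · rintro rfl
      exact hres _ h
  refine ⟨(scJ hSM).symm Q', fun g g' hg hpol => ?_⟩
  obtain ⟨e, he1, he2⟩ := hQ' g g' hg hpolφ
  refine ⟨fun θ => -e (θ / algebraMap K M (i a)), ?_, fun r => ?_⟩
  · apply (scJ hSM).injective
    have hfix : ∀ z : L, g (j (algebraMap L Ω z)) = j (algebraMap L Ω z) := by
      intro z
      rw [hij, g.commutes]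
    rw [map_add, map_sub, scJ_symJ hSM (gs (f.map i) g) (gs ((φ.map ψ).map i) g) rfl (hfix a) (hfix b'),
      AddEquiv.apply_symm_apply, scJ_rm hSM hsepM hsepM', scJ_jacMap j hpol hpolφ (scO hS) hSM, ← hcl, he1]
    have h1 : (fun θ : M => -e (j (algebraMap L Ω a) * θ / algebraMap K M (i a))) = fun θ => -e θ := by
      funext θ
      rw [hA, mul_div_cancel_left₀ _ hA0]
    rw [h1, rm_neg']
    abel
  · rw [Finset.sum_neg_distrib, dvd_neg]
    have h1 : ∑ θ ∈ nearL v (algebraMap K M (i a)) ((f.map i).map (algebraMap K M)) r,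
        e (θ / algebraMap K M (i a)) =
        ∑ θ ∈ rtsOver (((φ.map ψ).map i).map (algebraMap K M)) res r, e θ := by
      refine Finset.sum_nbij' (fun θ => θ / algebraMap K M (i a)) (fun θ => θ * algebraMap K M (i a))
        (fun θ h => (hnear r θ).1 h) (fun θ h => ?_) (fun θ _ => div_mul_cancel₀ _ hA0)
        (fun θ _ => mul_div_cancel_right₀ _ hA0) (fun θ _ => rfl)
      rw [hnear, mul_div_cancel_right₀ _ hA0]
      exact h
    rw [h1]
    exact he2 r

end

end Pool.Agent.Lib.MP_89bcae_ag.Zp
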