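import Mathlib
import Pool.Agent.Lib.MP_89bcae_ag.Z.ET
import Pool.Agent.Lib.MP_89bcae_ag.Z.L4
import Pool.Agent.Lib.MP_89bcae_ag.Z.Red
import Pool.Agent.Lib.MP_89bcae_ag.Zp.Fin

/-!
# The criterion, the norm, and the reduction to the fields which contain the roots of unity
-/

attribute [local instance 100000] Pool.Agent.Lib.MP_89bcae_ag.Brt.tffFields
attribute [local instance 100000] Pool.Agent.Lib.MP_89bcae_ag.Wt.ifrNF Pool.Agent.Lib.MP_89bcae_ag.Wt.iddNF

open Polynomial IsDedekindDomain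

open scoped Classical

namespace Pool.Agent.Lib.MP_89bcae_ag.Zp

open Pool.Agent.Lib.MP_89bcae_ag.Zs (galois powers actPow actPow_mk ntg_mono red ext_red val_red
  isCurveField_red galois_red map_base_red exists_autK IsCurveField mem_range_of_fixed CoverTate)
open Pool.Agent.Lib.MP_89bcae_ag.Wt Pool.Agent.Lib.MP_89bcae_ag.Wt.Lns Pool.Agent.Lib.MP_89bcae_ag.Bra
  Pool.Agent.Lib.MP_89bcae_ag.Brt

lemma powers_le_unramified (ℓ e : ℕ) {k F E : Type} [Field k] [Field F] [Algebra k F] [Field E] [Algebra F E]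
    (f : k[X][X]) (t x : E) : powers ℓ E ≤ unramified ℓ e F f t x := by
  rintro _ ⟨w, rfl⟩
  refine ⟨⟨Algebra.norm (IntermediateField.adjoin F {t}) (w : E), ?_⟩, fun O _ _ => ⟨w, ?_⟩⟩
  · show Algebra.norm (IntermediateField.adjoin F {t}) (((w ^ ℓ : Eˣ)) : E) = _
    rw [Units.val_pow_eq_pow_val, map_pow]
  · show O.valuation (((w ^ ℓ : Eˣ)) : E) = _
    rw [Units.val_pow_eq_pow_val, map_pow]

/-- The contradiction with the criterion: `N` is pulled back to a subgroup of `Eˣ`. -/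
theorem critical_contra' {k F E : Type} [Field k] [Field F] [Algebra k F] [Field E] [Algebra F E] {ℓ : ℕ}
    {t x : E} {U : Subgroup Eˣ} (hU : powers ℓ E ≤ U)
    (hcrit : IsCritical ℓ k F t x U) {G : Type} [Group G] (ρ : G →* (E ≃+* E))
    (hρ : ∀ g, ρ g ∈ galois ℓ k F t x) (hρ' : ∀ γ ∈ galois ℓ k F t x, ∃ g, ρ g = γ)
    (N : AddSubgroup (Additive (Eˣ ⧸ powers ℓ E))) (hN : N ≠ ⊥)
    (hNu : ∀ m ∈ N, ∃ u ∈ U, m = Additive.ofMul (QuotientGroup.mk u : Eˣ ⧸ powers ℓ E))
    (hst : ∀ g, ∀ m ∈ N, ρ g • m ∈ N) {r : ℕ} (hr : Nat.card N = ℓ ^ r)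
    (hle : padicValNat ℓ (Nat.card (Set.range fun (g : G) (m : N) => ρ g • (m : Additive (Eˣ ⧸ powers ℓ E)))) ≤
      r + padicValNat ℓ r.factorial) : False := by
  let q : Eˣ →* Eˣ ⧸ powers ℓ E := QuotientGroup.mk' (powers ℓ E)
  let N' : Subgroup Eˣ := (AddSubgroup.toSubgroup' N).comap q
  have hmem : ∀ u : Eˣ, u ∈ N' ↔ Additive.ofMul (QuotientGroup.mk u : Eˣ ⧸ powers ℓ E) ∈ N :=
    fun u => Iff.rfl
  have hle' : powers ℓ E ≤ N' := by
    intro u hu
    rw [hmem, (QuotientGroup.eq_one_iff u).2 hu]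
    exact N.zero_mem
  have hlt : powers ℓ E < N' := by
    refine lt_of_le_of_ne hle' fun heq => hN ?_
    rw [AddSubgroup.eq_bot_iff_forall]
    intro m hm
    obtain ⟨u, hu⟩ := QuotientGroup.mk_surjective m.toMul
    have h1 : u ∈ N' := by
      rw [hmem, hu]
      exact hm
    rw [← heq] at h1
    have h2 := (QuotientGroup.eq_one_iff u).2 h1
    rw [hu] at h2
    exact h2
  have hun : N' ≤ U := by
    intro u hu
    obtain ⟨u', hu', h1⟩ := hNu _ ((hmem u).1 hu)
    have h2 : (QuotientGroup.mk u : Eˣ ⧸ powers ℓ E) = QuotientGroup.mk u' := Additive.ofMul.injective h1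
    have h3 : u⁻¹ * u' ∈ powers ℓ E := QuotientGroup.eq.1 h2
    have h4 : u = u' * (u⁻¹ * u')⁻¹ := by group
    rw [h4]
    exact mul_mem hu' (inv_mem (hU h3))
  have hst' : ∀ γ ∈ galois ℓ k F t x, ∀ u ∈ N', Units.map (γ : E →* E) u ∈ N' := by
    intro γ hγ u hu
    obtain ⟨g, rfl⟩ := hρ' γ hγ
    exact hst g _ hu
  have hmap : N'.map q = AddSubgroup.toSubgroup' N :=
    Subgroup.map_comap_eq_self_of_surjective (QuotientGroup.mk'_surjective _) _
  have hcard : (powers ℓ E).relIndex N' = ℓ ^ r := by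
    have h1 : q.ker = powers ℓ E := QuotientGroup.ker_mk' _
    rw [← h1, Subgroup.relIndex_ker, hmap, ← hr]
    rfl
  have h := hcrit N' hlt hun hst' r hcard
  -- the two ranges
  let a : N' → N := fun u => ⟨Additive.ofMul (QuotientGroup.mk (u : Eˣ)), u.2⟩
  have ha : Function.Surjective a := by
    intro m
    obtain ⟨u, hu⟩ := QuotientGroup.mk_surjective (m : Additive (Eˣ ⧸ powers ℓ E)).toMul
    have h1 : u ∈ N' := by
      rw [hmem, hu]
      exact m.2
    exact ⟨⟨u, h1⟩, Subtype.ext (congrArg Additive.ofMul hu)⟩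
  let φ : (N → Additive (Eˣ ⧸ powers ℓ E)) → (N' → Eˣ ⧸ powers ℓ E) := fun s u => (s (a u)).toMul
  have hφ : Function.Injective φ := by
    intro s s' hs
    funext m
    obtain ⟨u, rfl⟩ := ha m
    exact Additive.toMul.injective (congrFun hs u)
  have hrange : (Set.range fun (γ : galois ℓ k F t x) (u : N') =>
      (Units.map ((γ : E ≃+* E) : E →* E) (u : Eˣ) : Eˣ ⧸ powers ℓ E)) =
      φ '' (Set.range fun (g : G) (m : N) => ρ g • (m : Additive (Eˣ ⧸ powers ℓ E))) := by
    ext s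
    constructor
    · rintro ⟨γ, rfl⟩
      obtain ⟨g, hg⟩ := hρ' γ γ.2
      refine ⟨_, ⟨g, rfl⟩, ?_⟩
      funext u
      show (ρ g • (Additive.ofMul (QuotientGroup.mk (u : Eˣ) : Eˣ ⧸ powers ℓ E))).toMul = _
      rw [actPow_mk, hg]
      rfl
    · rintro ⟨_, ⟨g, rfl⟩, rfl⟩
      exact ⟨⟨ρ g, hρ g⟩, rfl⟩
  rw [hrange, Nat.card_image_of_injective hφ] at h
  exact absurd hle (not_le.2 h)

/-! ### The norm -/

lemma aeval_mem_adjoin_of_mem {F E : Type} [Field F] [Field E] [Algebra F E] {K : IntermediateField F E} {t : E}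
    (ht : t ∈ K) (p : F[X]) : aeval t p ∈ K := by
  have h : aeval t p = ((aeval (⟨t, ht⟩ : K) p : K) : E) := by
    have h1 := aeval_algHom_apply K.val (⟨t, ht⟩ : K) p
    exact h1
  rw [h]
  exact (aeval (⟨t, ht⟩ : K) p).2

/-- The norm to `F(t)` of the element attached to a cochain is an `ℓ`-th power. -/
theorem norm_pow {F L Ω E : Type} [Field F] [Field L] [Algebra F[X] L] [IsFractionRing F[X] L] [Field Ω]
    [Algebra L Ω] [IsAlgClosure L Ω] [Field E] [Algebra F E] {ℓ : ℕ} {P : L[X]} (hℓL : (ℓ : L) ≠ 0)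
    (hP : P.Monic) (hirr : Irreducible P) (hsep : P.Separable) (lam : L →+* E) (ι : E →+* Ω)
    (h1 : ∀ z, ι (lam z) = algebraMap L Ω z) (h2 : ∀ c : F, lam (algebraMap F[X] L (C c)) = algebraMap F E c)
    {t x : E} (h3 : lam (algebraMap F[X] L X) = t) (hroot : (P.map (algebraMap L Ω)).eval (ι x) = 0)
    (hadj : ∀ y : Ω, y ∈ IntermediateField.adjoin L {ι x} ↔ ∃ e, ι e = y) {ζ : L} (hζ : ζ ^ ℓ = 1) {z : Ω → Ω}
    (hz : ∀ σ : Ω ≃ₐ[L] Ω, ∃ n : Ω → ℤ,
      (∀ θ, (P.map (algebraMap L Ω)).eval θ = 0 → σ (z θ) = (algebraMap L Ω ζ) ^ n (σ θ) * z (σ θ)) ∧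
        (ℓ : ℤ) ∣ ∑ θ ∈ (P.map (algebraMap L Ω)).roots.toFinset, n θ)
    {u : E} (hu0 : u ≠ 0) (hu : z (ι x) ^ ℓ = ι u) :
    ∃ w : IntermediateField.adjoin F {t}, Algebra.norm (IntermediateField.adjoin F {t}) u = w ^ ℓ := by
  have hΩ : IsAlgClosed Ω := IsAlgClosure.isAlgClosed L
  let _ : Algebra L E := lam.toAlgebra
  let _ : Algebra E Ω := ι.toAlgebra
  have htow : IsScalarTower L E Ω := IsScalarTower.of_algebraMap_eq fun z => (h1 z).symm
  have hP0 : P.map (algebraMap L Ω) ≠ 0 := (hP.map _).ne_zero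
  have hζ' : (algebraMap L Ω ζ) ^ ℓ = 1 := by rw [← map_pow, hζ, map_one]
  have hζ0 : algebraMap L Ω ζ ≠ 0 := by
    intro h
    rw [h, zero_pow (by rintro rfl; simp at hℓL)] at hζ'
    exact zero_ne_one hζ'
  have hζdvd : ∀ m : ℤ, (ℓ : ℤ) ∣ m → (algebraMap L Ω ζ) ^ m = 1 := by
    rintro _ ⟨m, rfl⟩
    rw [zpow_mul, zpow_natCast, hζ', one_zpow]
  -- `E` is generated by `x`
  let ιL : E →ₐ[L] Ω := { toRingHom := ι, commutes' := h1 }
  have hιL : ∀ e, ιL e = ι e := fun _ => rfl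
  have hev : P.eval₂ (algebraMap L E) x = 0 := by
    apply ι.injective
    rw [map_zero, hom_eval₂, ← hroot, eval_map]
    congr 1
    exact RingHom.ext h1
  have hmin : minpoly L x = P := (minpoly.eq_of_irreducible_of_monic hirr hev hP).symm
  have hint : IsIntegral L x := ⟨P, hP, hev⟩
  have htop : IntermediateField.adjoin L {x} = ⊤ := by
    rw [eq_top_iff]
    intro e _
    have h4 : ιL e ∈ IntermediateField.adjoin L {ι x} := (hadj _).2 ⟨e, rfl⟩
    have h5 : (IntermediateField.adjoin L {x}).map ιL = IntermediateField.adjoin L {ι x} := by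
      rw [IntermediateField.adjoin_map, Set.image_singleton, hιL]
    rw [← h5] at h4
    obtain ⟨e', he', h6⟩ := h4
    have h7 : e' = e := ι.injective h6
    exact h7 ▸ he'
  have hfin : FiniteDimensional L E := by
    have h4 : FiniteDimensional L (IntermediateField.adjoin L {x}) :=
      IntermediateField.adjoin.finiteDimensional hint
    rw [htop] at h4
    exact LinearEquiv.finiteDimensional (IntermediateField.topEquiv (F := L) (E := E)).toLinearEquiv
  have hsepE : Algebra.IsSeparable L E := by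
    have h4 : IsSeparable L x := by
      show (minpoly L x).Separable
      rw [hmin]
      exact hsep
    have h5 : Algebra.IsSeparable L (IntermediateField.adjoin L {x}) :=
      (IntermediateField.isSeparable_adjoin_simple_iff_isSeparable (F := L) (E := E)).2 h4
    rw [htop] at h5
    exact AlgEquiv.Algebra.isSeparable (IntermediateField.topEquiv (F := L) (E := E))
  -- the embeddings are given by the roots
  have hroots : ∀ σ : E →ₐ[L] Ω, (P.map (algebraMap L Ω)).eval (σ x) = 0 := by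
    intro σ
    rw [eval_map]
    have h4 := congrArg (σ : E →+* Ω) hev
    rw [map_zero, hom_eval₂] at h4
    have h5 : ((σ : E →+* Ω).comp (algebraMap L E)) = algebraMap L Ω := RingHom.ext σ.commutes
    rw [h5] at h4
    exact h4
  have hinj : ∀ σ σ' : E →ₐ[L] Ω, σ x = σ' x → σ = σ' := by
    intro σ σ' h
    have h4 : Algebra.adjoin L {x} = ⊤ := by
      rw [← IntermediateField.adjoin_simple_toSubalgebra_of_isAlgebraic hint.isAlgebraic, htop,
        IntermediateField.top_toSubalgebra]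
    exact AlgHom.ext_of_adjoin_eq_top h4 (by
      rintro y rfl
      exact h)
  have hN : Normal L Ω := IsAlgClosure.normal L Ω
  have hmin' : minpoly L (ι x) = P := by
    refine (minpoly.eq_of_irreducible_of_monic hirr ?_ hP).symm
    rw [← eval_map_algebraMap]
    exact hroot
  have hgex : ∀ θ : Ω, (P.map (algebraMap L Ω)).eval θ = 0 → ∃ g : Ω ≃ₐ[L] Ω, g (ι x) = θ := by
    intro θ hθ
    have h4 : aeval θ (minpoly L (ι x)) = 0 := by
      rw [hmin', ← eval_map_algebraMap]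
      exact hθ
    exact minpoly.exists_algEquiv_of_root' (IsAlgClosure.isAlgebraic.isAlgebraic (ι x)) h4
  -- the product
  obtain ⟨A, hA⟩ : ∃ A : Ω, A = ∏ θ ∈ (P.map (algebraMap L Ω)).roots.toFinset, z θ := ⟨_, rfl⟩
  have hmem : ∀ θ, θ ∈ (P.map (algebraMap L Ω)).roots.toFinset ↔ (P.map (algebraMap L Ω)).eval θ = 0 := by
    intro θ
    rw [Multiset.mem_toFinset, mem_roots hP0, IsRoot.def]
  have hgal : ∀ (g : Ω ≃ₐ[L] Ω) (θ : Ω), (P.map (algebraMap L Ω)).eval (g θ) = 0 ↔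
      (P.map (algebraMap L Ω)).eval θ = 0 := by
    intro g θ
    have h4 : (P.map (algebraMap L Ω)).eval (g θ) = g ((P.map (algebraMap L Ω)).eval θ) := by
      rw [eval_map, eval_map, ← aeval_def, ← aeval_def, aeval_algHom_apply]
    rw [h4, map_eq_zero_iff g g.injective]
  have hfix : ∀ g : Ω ≃ₐ[L] Ω, g A = A := by
    intro g
    obtain ⟨n, hn, hsum⟩ := hz g
    rw [hA, map_prod]
    have h4 : ∏ θ ∈ (P.map (algebraMap L Ω)).roots.toFinset, g (z θ) =
        ∏ θ ∈ (P.map (algebraMap L Ω)).roots.toFinset, ((algebraMap L Ω ζ) ^ n (g θ) * z (g θ)) :=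
      Finset.prod_congr rfl fun θ hθ => hn θ ((hmem θ).1 hθ)
    have h5 : ∏ θ ∈ (P.map (algebraMap L Ω)).roots.toFinset, ((algebraMap L Ω ζ) ^ n (g θ) * z (g θ)) =
        ∏ θ ∈ (P.map (algebraMap L Ω)).roots.toFinset, ((algebraMap L Ω ζ) ^ n θ * z θ) :=
      Finset.prod_equiv (g : Ω ≃ₐ[L] Ω).toEquiv (fun θ => by
        rw [hmem, hmem]
        exact (hgal g θ).symm) (fun _ _ => rfl)
    have h6 : ∀ S : Finset Ω, ∏ θ ∈ S, (algebraMap L Ω ζ) ^ n θ = (algebraMap L Ω ζ) ^ (∑ θ ∈ S, n θ) := by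
      intro S
      induction S using Finset.induction_on with
      | empty => rw [Finset.prod_empty, Finset.sum_empty, zpow_zero]
      | insert a S ha ih => rw [Finset.prod_insert ha, Finset.sum_insert ha, ih, zpow_add₀ hζ0]
    rw [h4, h5, Finset.prod_mul_distrib, h6, hζdvd _ hsum, one_mul]
  -- the norm
  have hnorm : algebraMap L Ω (Algebra.norm L u) = A ^ ℓ := by
    rw [Algebra.norm_eq_prod_embeddings L Ω u, hA, ← Finset.prod_pow]
    refine Finset.prod_bij (fun σ _ => σ x) (fun σ _ => (hmem _).2 (hroots σ)) (fun σ _ σ' _ h => hinj σ σ' h)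
      (fun θ hθ => ?_) (fun σ _ => ?_)
    · obtain ⟨g, hg⟩ := hgex θ ((hmem θ).1 hθ)
      exact ⟨(g : Ω →ₐ[L] Ω).comp ιL, Finset.mem_univ _, hg⟩
    · obtain ⟨g, hg⟩ := hgex (σ x) (hroots σ)
      have h4 : σ = (g : Ω →ₐ[L] Ω).comp ιL := hinj _ _ hg.symm
      obtain ⟨n, hn, -⟩ := hz g
      have h5 : σ u = g (ι u) := congrArg (fun τ : E →ₐ[L] Ω => τ u) h4
      rw [h5, ← hu, map_pow, hn _ hroot, hg, mul_pow, ← zpow_natCast, ← zpow_mul, mul_comm (n (σ x)),
        hζdvd _ (dvd_mul_right _ _), one_mul]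
  have hn0 : Algebra.norm L u ≠ 0 := by
    rw [Ne, Algebra.norm_eq_zero_iff]
    exact hu0
  have hA' : A ∈ (algebraMap L Ω).range := by
    refine mem_range_of_fixed hfix (p := X ^ ℓ - C (Algebra.norm L u)) ?_ ?_
    · exact separable_X_pow_sub_C _ hℓL hn0
    · rw [Polynomial.map_sub, Polynomial.map_pow, map_X, map_C, eval_sub, eval_pow, eval_X, eval_C, hnorm,
        sub_self]
  obtain ⟨w₀, hw₀⟩ := hA'
  have hw : Algebra.norm L u = w₀ ^ ℓ := by
    apply (algebraMap L Ω).injective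
    rw [hnorm, map_pow, hw₀]
  -- the transport
  have hmem' : ∀ y : L, lam y ∈ IntermediateField.adjoin F {t} := by
    have ht : t ∈ IntermediateField.adjoin F {t} := IntermediateField.mem_adjoin_simple_self F t
    have h4 : ∀ p : F[X], lam (algebraMap F[X] L p) = aeval t p := by
      intro p
      have h5 : (lam.comp (algebraMap F[X] L)) = ((aeval t : F[X] →ₐ[F] E) : F[X] →+* E) := by
        apply Polynomial.ringHom_ext
        · intro c
          show lam (algebraMap F[X] L (C c)) = aeval t (C c)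
          rw [h2, aeval_C]
        · show lam (algebraMap F[X] L X) = aeval t X
          rw [h3, aeval_X]
      exact congrArg (fun τ : F[X] →+* E => τ p) h5
    have h5 : ∀ p : F[X], lam (algebraMap F[X] L p) ∈ IntermediateField.adjoin F {t} := by
      intro p
      rw [h4]
      exact aeval_mem_adjoin_of_mem ht p
    intro y
    obtain ⟨p, q, -, rfl⟩ := IsFractionRing.div_surjective (A := F[X]) y
    rw [map_div₀]
    exact div_mem (h5 p) (h5 q)
  let lam' : L →+* IntermediateField.adjoin F {t} := lam.codRestrict (IntermediateField.adjoin F {t}) hmem'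
  have hsur : Function.Surjective lam' := by
    rintro ⟨y, hy⟩
    have h4 : IntermediateField.adjoin F {t} ≤ lam.fieldRange.toIntermediateField (fun c => ⟨_, h2 c⟩) := by
      rw [IntermediateField.adjoin_simple_le_iff]
      exact ⟨_, h3⟩
    obtain ⟨y', hy'⟩ := h4 hy
    exact ⟨y', Subtype.ext hy'⟩
  let e : L ≃+* IntermediateField.adjoin F {t} := RingEquiv.ofBijective lam' ⟨lam'.injective, hsur⟩
  have hnn := Algebra.norm_eq_of_equiv_equiv e (RingEquiv.refl E) (by
    apply RingHom.ext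
    intro y
    rfl) u
  refine ⟨e w₀, ?_⟩
  rw [← map_pow, ← hw, hnn, e.apply_symm_apply]
  rfl

/-! ### The reduction to the fields which contain the roots of unity -/

section

variable {ℓ e : ℕ} {k F : Type} [Field k] [Field F] [Algebra k F] (k₁ : IntermediateField k F) {f : k[X][X]}

lemma isBranchCurve_red (hB : IsBranchCurve ℓ e F f) : IsBranchCurve ℓ e F (red k₁ f) := by
  have hd : (red k₁ f).natDegree = f.natDegree := hB.monic.natDegree_map _
  have hinj : Function.Injective (mapRingHom (algebraMap k k₁)) := map_injective _ (algebraMap k k₁).injective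
  refine ⟨hB.monic.map _, ?_, ?_, ?_, hB.dvd, fun i => ?_⟩
  · rw [hd]
    exact hB.coprime
  · rw [red, derivative_map, Ne, Polynomial.map_eq_zero_iff hinj]
    exact hB.separable
  · rw [ext_red]
    exact hB.irreducible
  · rw [hd, red, coeff_map]
    exact (natDegree_map_le).trans (hB.degree i)

lemma unramified_red {E : Type} [Field E] [Algebra F E] (t x : E) :
    unramified ℓ e F (red k₁ f) t x = unramified ℓ e F f t x := by
  have h : ∀ O : ValuationSubring E, IsRegular e F (red k₁ f) t x O ↔ IsRegular e F f t x O := by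
    intro O
    unfold IsRegular
    rw [ext_red]
  ext u
  constructor
  · rintro ⟨h1, h2⟩
    exact ⟨h1, fun O hO hR => h2 O hO ((h O).2 hR)⟩
  · rintro ⟨h1, h2⟩
    exact ⟨h1, fun O hO hR => h2 O hO ((h O).1 hR)⟩

lemma isCritical_red {ζ : F} (hζ : ζ ^ ℓ = 1) (hk₁ : k₁ = IntermediateField.adjoin k {ζ}) {E : Type} [Field E]
    [Algebra F E] {t x : E} {U : Subgroup Eˣ} (h : IsCritical ℓ k F t x U) : IsCritical ℓ k₁ F t x U := by
  have h0 := galois_red k₁ hζ hk₁ t x
  unfold IsCritical at h ⊢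
  rw [h0]
  exact h

end

lemma ntg_congr {ℓ : ℕ} {F L Ω : Type} [Field F] [Field L] [Algebra F[X] L] [Field Ω] [Algebra L Ω] {p q : L[X]}
    (h : p = q) [IsGood ℓ (p.map (algebraMap L Ω))] [IsGood ℓ (q.map (algebraMap L Ω))] {Γ : Set (Ω ≃+* Ω)}
    (hN : NTg ℓ 1 p (UB F ℓ p) Γ) : NTg ℓ 1 q (UB F ℓ q) Γ := by
  subst h
  exact hN

/-- The final step: from the Selmer groups over the fields which contain the roots of unity. -/
theorem coverTate_red' {ℓ e : ℕ} (hℓ : ℓ.Prime) {k F : Type} [Field k] [Field F] [Algebra k F]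
    [IsAlgClosure k F] (hk : (ℓ : k) ≠ 0) {f : k[X][X]} (hB : IsBranchCurve ℓ e F f)
    {E : Type} [Field E] [Algebra F E] {t x : E} (hE : IsCurveField F f t x)
    (hC : IsCritical ℓ k F t x (unramified ℓ e F f t x))
    (hmain : ∀ (k₁ : Type) [Field k₁] [Algebra k₁ F] [IsAlgClosure k₁ F] (ζ : k₁) (f₁ : k₁[X][X])
      (L Ω : Type) [Field L] [Algebra F[X] L] [IsFractionRing F[X] L] [Field Ω] [Algebra L Ω] [IsAlgClosure L Ω]
      [IsGood ℓ ((f₁.map (base k₁ F L L)).map (algebraMap L Ω))],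
      IsPrimitiveRoot ζ ℓ → (ℓ : k₁) ≠ 0 → IsBranchCurve ℓ e F f₁ → IsCurveField F f₁ t x →
      IsCritical ℓ k₁ F t x (unramified ℓ e F f₁ t x) →
      ∀ k' : IntermediateField k₁ F, FiniteDimensional k₁ k' →
        NTg ℓ 1 (f₁.map (base k₁ F L L)) (UB F ℓ (f₁.map (base k₁ F L L))) (AutK k₁ F L Ω k')) :
    CoverTate ℓ F f := by
  have hFa : IsAlgClosed F := IsAlgClosure.isAlgClosed k
  have hF0 : (ℓ : F) ≠ 0 := by
    rw [← map_natCast (algebraMap k F)]
    exact (_root_.map_ne_zero _).mpr hk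
  have : NeZero (ℓ : F) := ⟨hF0⟩
  have : NeZero ℓ := ⟨hℓ.ne_zero⟩
  obtain ⟨ζ, hζ⟩ : ∃ ζ : F, IsPrimitiveRoot ζ ℓ :=
    HasEnoughRootsOfUnity.exists_primitiveRoot F ℓ
  obtain ⟨k₁, hk₁⟩ : ∃ k₁ : IntermediateField k F, k₁ = IntermediateField.adjoin k {ζ} := ⟨_, rfl⟩
  have hζk : ζ ∈ k₁ := by
    rw [hk₁]
    exact IntermediateField.mem_adjoin_simple_self k ζ
  have hfin : FiniteDimensional k k₁ := by
    rw [hk₁]
    exact IntermediateField.adjoin.finiteDimensional
      ((IsAlgClosure.isAlgebraic (R := k) (K := F)).isAlgebraic ζ).isIntegral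
  have halg : Algebra.IsAlgebraic k F := IsAlgClosure.isAlgebraic
  have hcl : IsAlgClosure k₁ F := ⟨hFa, Algebra.IsAlgebraic.tower_top (K := k) k₁⟩
  have hζ₁ : IsPrimitiveRoot (⟨ζ, hζk⟩ : k₁) ℓ :=
    IsPrimitiveRoot.of_map_of_injective (f := algebraMap k₁ F) hζ (algebraMap k₁ F).injective
  have hk₁0 : (ℓ : k₁) ≠ 0 := by
    rw [← map_natCast (algebraMap k k₁)]
    exact (_root_.map_ne_zero _).mpr hk
  refine coverTate_of' hℓ hk hB fun L Ω _ _ _ _ _ _ _ k' hk' => ?_
  obtain ⟨k'', h1, h2⟩ := exists_autK (L := L) (Ω := Ω) k₁ k' hfin hk'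
  have hgood : IsGood ℓ (((red k₁ f).map (base k₁ F L L)).map (algebraMap L Ω)) := by
    rw [map_base_red]
    infer_instance
  have hC' : IsCritical ℓ k₁ F t x (unramified ℓ e F (red k₁ f) t x) := by
    rw [unramified_red]
    exact isCritical_red k₁ hζ.pow_eq_one hk₁ hC
  have h3 := hmain k₁ ⟨ζ, hζk⟩ (red k₁ f) L Ω hζ₁ hk₁0 (isBranchCurve_red k₁ hB) (isCurveField_red k₁ hE)
    hC' k'' h1
  exact ntg_mono h2 (ntg_congr (map_base_red (L := L) k₁ (f := f)) h3)

end Pool.Agent.Lib.MP_89bcae_ag.Zp
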