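import Pool.Agent.Lib.MP_89bcae_ag.Zp.Defs
import Pool.Agent.Lib.MP_89bcae_ag.Z.Crit

/-!
# MP_89bcae_ag, P-version: symplectic or orthogonal images satisfy the criterion, for every subgroup `U`
-/

namespace Pool.Agent.Lib.MP_89bcae_ag.Zp

open Pool.Agent.Lib.MP_89bcae_ag.Zs (powers galois actW smul_def qact qact_mk absSymp absOrth range_congr)

section Field

variable {ℓ : ℕ} {k F E : Type} [Field k] [Field F] [Algebra k F] [Field E] [Algebra F E]
  {t x : E} {U : Subgroup Eˣ}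

/-- The group `U / (Eˣ) ^ ℓ`, written additively. -/
def tors (ℓ : ℕ) (U : Subgroup Eˣ) :
    AddSubgroup (Additive (Eˣ ⧸ powers ℓ E)) :=
  Subgroup.toAddSubgroup (torsion ℓ U)

/-- The group `U / (Eˣ) ^ ℓ`, written additively. -/
def torsEquiv (ℓ : ℕ) (U : Subgroup Eˣ) :
    tors ℓ U ≃+ Additive (torsion ℓ U) where
  toFun u := Additive.ofMul ⟨(u : Additive (Eˣ ⧸ powers ℓ E)).toMul, u.2⟩
  invFun u := ⟨Additive.ofMul (u.toMul : Eˣ ⧸ powers ℓ E), u.toMul.2⟩
  left_inv _ := rfl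
  right_inv _ := rfl
  map_add' _ _ := rfl

theorem tors_smul (ℓ : ℕ) (U : Subgroup Eˣ) (u : tors ℓ U) :
    ℓ • u = 0 := by
  apply Subtype.ext
  apply Additive.toMul.injective
  change ((u : Additive (Eˣ ⧸ powers ℓ E)).toMul) ^ ℓ = 1
  obtain ⟨v, hv⟩ := QuotientGroup.mk_surjective ((u : Additive (Eˣ ⧸ powers ℓ E)).toMul)
  rw [← hv, ← QuotientGroup.mk_pow, QuotientGroup.eq_one_iff]
  exact ⟨v, rfl⟩

theorem card_tors : Nat.card (tors ℓ U) = Nat.card (torsion ℓ U) :=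
  Nat.card_congr ((torsEquiv ℓ U).toEquiv.trans Additive.toMul)

theorem transfer (h : ∀ N : AddSubgroup (Additive (Eˣ ⧸ powers ℓ E)), N ≤ tors ℓ U → N ≠ ⊥ →
      (∀ γ : galois ℓ k F t x, ∀ v ∈ N, (actW ℓ k F t x).smul γ v ∈ N) →
      ∀ r, Nat.card N = ℓ ^ r → r + padicValNat ℓ r.factorial <
      padicValNat ℓ (Nat.card (Set.range fun (γ : galois ℓ k F t x) (v : N) =>
        (actW ℓ k F t x).smul γ (v : Additive (Eˣ ⧸ powers ℓ E))))) : IsCritical ℓ k F t x U := by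
  intro N hPN hNU hN r hr
  have hsm : ∀ (γ : galois ℓ k F t x) (u : Eˣ),
      (actW ℓ k F t x).smul γ (Additive.ofMul (u : Eˣ ⧸ powers ℓ E)) =
        Additive.ofMul ((Units.map ((γ : E ≃+* E) : E →* E) u : Eˣ) : Eˣ ⧸ powers ℓ E) :=
    fun γ u => rfl
  set N1 : AddSubgroup (Additive (Eˣ ⧸ powers ℓ E)) :=
    Subgroup.toAddSubgroup (N.map (QuotientGroup.mk' (powers ℓ E))) with hN1
  have hmem : ∀ u : Eˣ, u ∈ N → Additive.ofMul (u : Eˣ ⧸ powers ℓ E) ∈ N1 :=
    fun u hu => ⟨u, hu, rfl⟩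
  have hmem' : ∀ w ∈ N1, ∃ u ∈ N, w = Additive.ofMul (u : Eˣ ⧸ powers ℓ E) := by
    rintro w ⟨u, hu, hw⟩
    exact ⟨u, hu, hw.symm⟩
  have hcard : Nat.card N1 = ℓ ^ r := by
    have h1 := Subgroup.relIndex_ker N (QuotientGroup.mk' (powers ℓ E))
    rw [QuotientGroup.ker_mk', hr] at h1
    rw [h1]
    exact Nat.card_congr (Equiv.subtypeEquiv Additive.toMul (fun _ => Iff.rfl))
  have h := h N1 ?_ ?_ ?_ r hcard
  · refine h.trans_eq (congrArg (padicValNat ℓ) (range_congr _ _ Additive.toMul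
      (fun u => ⟨Additive.ofMul ((u : Eˣ) : Eˣ ⧸ powers ℓ E), hmem u u.2⟩) ?_ ?_))
    · intro w
      obtain ⟨u, hu, hw⟩ := hmem' w w.2
      exact ⟨⟨u, hu⟩, Subtype.ext hw.symm⟩
    · intro γ u
      rw [hsm]
      rfl
  · intro w hw
    obtain ⟨u, hu, rfl⟩ := hmem' w hw
    exact ⟨u, hNU hu, rfl⟩
  · intro hbot
    obtain ⟨u, hu, huP⟩ := Set.exists_of_ssubset hPN
    have h1 := hmem u hu
    rw [hbot, AddSubgroup.mem_bot] at h1
    apply huP
    exact (QuotientGroup.eq_one_iff u).1 h1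
  · intro γ w hw
    obtain ⟨u, hu, rfl⟩ := hmem' w hw
    rw [hsm]
    exact hmem _ (hN γ γ.2 u hu)

/-- The automorphism of `U / (Eˣ) ^ ℓ` attached to an additive one. -/
def toAut (f : tors ℓ U ≃+ tors ℓ U) : torsion ℓ U ≃* torsion ℓ U :=
  AddEquiv.toMultiplicative (((torsEquiv ℓ U).symm.trans f).trans (torsEquiv ℓ U))

theorem induced (f : tors ℓ U ≃+ tors ℓ U) (hf : IsInduced ℓ k F t x U (toAut f)) :
    ∃ γ : galois ℓ k F t x, ∀ v : tors ℓ U,
      (actW ℓ k F t x).smul γ (v : Additive (Eˣ ⧸ powers ℓ E)) = f v := by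
  obtain ⟨γ, hγ, hγ'⟩ := hf
  refine ⟨⟨γ, hγ⟩, fun v => ?_⟩
  obtain ⟨u, hu, hv⟩ := v.2
  have h1 : (v : Additive (Eˣ ⧸ powers ℓ E)) = Additive.ofMul (u : Eˣ ⧸ powers ℓ E) := hv.symm
  have h2 := hγ' u ⟨u, hu, rfl⟩
  apply Additive.toMul.injective
  rw [h1]
  refine h2.symm.trans ?_
  have h3 : (⟨Additive.ofMul (u : Eˣ ⧸ powers ℓ E), ⟨u, hu, rfl⟩⟩ : tors ℓ U) = v :=
    Subtype.ext h1.symm
  rw [← h3]
  rfl

/-- The pairing written additively. -/
def pair {ℓ' : ℕ} (e : torsion ℓ U →* torsion ℓ U →* Multiplicative (ZMod ℓ')) :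
    tors ℓ U →+ tors ℓ U →+ ZMod ℓ' :=
  AddMonoidHom.mk' (fun u => AddMonoidHom.mk' (fun v =>
      (e (torsEquiv ℓ U u).toMul (torsEquiv ℓ U v).toMul).toAdd) (fun v w => by
    rw [map_add, toMul_add, map_mul, toAdd_mul])) (fun u v => by
    ext w
    change (e (torsEquiv ℓ U (u + v)).toMul (torsEquiv ℓ U w).toMul).toAdd =
      (e (torsEquiv ℓ U u).toMul (torsEquiv ℓ U w).toMul).toAdd +
        (e (torsEquiv ℓ U v).toMul (torsEquiv ℓ U w).toMul).toAdd
    rw [map_add, toMul_add, map_mul, MonoidHom.mul_apply, toAdd_mul])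

theorem pair_apply {ℓ' : ℕ} (e : torsion ℓ U →* torsion ℓ U →* Multiplicative (ZMod ℓ'))
    (u v : tors ℓ U) :
    pair e u v = (e (torsEquiv ℓ U u).toMul (torsEquiv ℓ U v).toMul).toAdd := rfl

theorem pair_nd {ℓ' : ℕ} (e : torsion ℓ U →* torsion ℓ U →* Multiplicative (ZMod ℓ'))
    (hnd : ∀ u, (∀ v, e u v = 1) → u = 1) (v : tors ℓ U) (hv : ∀ w, pair e v w = 0) :
    v = 0 := by
  have h1 : (torsEquiv ℓ U v).toMul = 1 := by
    apply hnd
    intro w
    have h2 := hv ((torsEquiv ℓ U).symm (Additive.ofMul w))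
    rw [pair_apply, AddEquiv.apply_symm_apply] at h2
    exact h2
  have h3 : torsEquiv ℓ U v = 0 := h1
  exact (map_eq_zero_iff (torsEquiv ℓ U) (torsEquiv ℓ U).injective).1 h3

/-- If all the automorphisms of a nondegenerate alternating pairing on `U / (Eˣ) ^ ℓ` come from
the Galois group, `ℓ` odd, `g ≥ 3`, then the criterion holds. -/
theorem IsSymplectic.isCritical [hl : Fact ℓ.Prime] (h : IsSymplectic ℓ k F t x U) :
    IsCritical ℓ k F t x U := by
  obtain ⟨hl2, g, hg, hcard, e, halt, hnd, hiso⟩ := h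
  have h1 := @absSymp (galois ℓ k F t x) (Additive (Eˣ ⧸ powers ℓ E)) _ _ (actW ℓ k F t x) ℓ hl hl2
    (tors ℓ U)
  have h2 := h1 (tors_smul ℓ U)
  have h3 := h2 (pair e)
  have h4 := h3 (by
    intro v
    rw [pair_apply, halt]
    rfl)
  have h5 := h4 (pair_nd e hnd)
  have h6 := h5 (by
    intro f hf
    refine induced f (hiso _ ?_)
    intro u v
    exact hf ((torsEquiv ℓ U).symm (Additive.ofMul u)) ((torsEquiv ℓ U).symm (Additive.ofMul v)))
  have h7 := h6 g hg (by rw [card_tors, hcard])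
  apply transfer
  intro N hNU hne hN r hr
  have h8 := h7 N hNU hne
  have h9 := h8 hN
  have h10 := h9 r hr
  exact h10

/-- If all the automorphisms of a nondegenerate quadratic form on `U / (Eˣ) ^ 2` come from
the Galois group, `g ≥ 5`, then the criterion holds. -/
theorem IsOrthogonal.isCritical (h : IsOrthogonal ℓ k F t x U) :
    IsCritical ℓ k F t x U := by
  obtain ⟨rfl, g, hg, hcard, q, e, hq, hnd, hiso⟩ := h
  have h1 := @absOrth (galois 2 k F t x) (Additive (Eˣ ⧸ powers 2 E)) _ _ (actW 2 k F t x)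
    (tors 2 U)
  have h2 := h1 (tors_smul 2 U)
  have h3 := h2 (fun u => (q (torsEquiv 2 U u).toMul).toAdd)
  have h4 := h3 (pair e)
  have h5 := h4 (by
    intro u v
    rw [pair_apply]
    change (q (torsEquiv 2 U (u + v)).toMul).toAdd = _
    rw [map_add, toMul_add, hq, toAdd_mul, toAdd_mul])
  have h6 := h5 (pair_nd e hnd)
  have h7 := h6 (by
    intro f hf
    refine induced f (hiso _ ?_)
    intro u
    exact hf ((torsEquiv 2 U).symm (Additive.ofMul u)))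
  have h8 := h7 g hg (by rw [card_tors, hcard])
  apply transfer
  intro N hNU hne hN r hr
  have h9 := h8 N hNU hne
  have h10 := h9 hN
  have h11 := h10 r hr
  exact h11

end Field

end Pool.Agent.Lib.MP_89bcae_ag.Zp
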