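import Pool.Agent.Lib.MP_89bcae_ag.Zp.DefsJ
import Pool.Agent.Lib.MP_89bcae_ag.Zp.Crit

/-!
# Large images of the Galois group: comparison of the definitions
-/

namespace Pool.Agent.Lib.MP_89bcae_ag.Zp

open Pool.Agent.Lib.MP_89bcae_ag.Zs (powers galois)

open scoped Classical

variable {ℓ : ℕ} {k F E : Type} [Field k] [Field F] [Algebra k F] [Field E] [Algebra F E] {t x : E} {U : Subgroup Eˣ}

variable [hU : Fact (powers ℓ E ≤ U)]

include hU in
theorem jac_powers_le : powers ℓ E ≤ U := hU.out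

omit hU in
theorem jac_div_mem (u v : Eˣ) : u / v ∈ powers ℓ E ↔ (u : Eˣ ⧸ powers ℓ E) = v := by
  rw [← div_eq_one, ← QuotientGroup.mk_div, QuotientGroup.eq_one_iff]

include hU in
theorem jac_mem {u : Eˣ} : (u : Eˣ ⧸ powers ℓ E) ∈ torsion ℓ U ↔ u ∈ U := by
  constructor
  · rintro ⟨u', hu', h⟩
    have h1 : (u : Eˣ ⧸ powers ℓ E) = u' := h.symm
    have h2 := U.mul_mem (jac_powers_le ((jac_div_mem u u').2 h1)) hu'
    rwa [div_mul_cancel] at h2
  · exact fun h => ⟨u, h, rfl⟩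

/-- a representative -/
noncomputable def jacLift (c : torsion ℓ U) : Eˣ := Classical.choose (Subgroup.mem_map.1 c.2)

omit hU in
theorem jacLift_mem (c : torsion ℓ U) : jacLift c ∈ U :=
  (Classical.choose_spec (Subgroup.mem_map.1 c.2)).1

omit hU in
theorem jacLift_coe (c : torsion ℓ U) : (jacLift c : Eˣ ⧸ powers ℓ E) = c :=
  (Classical.choose_spec (Subgroup.mem_map.1 c.2)).2

section pairing

variable {e : Eˣ → Eˣ → ZMod ℓ} (he : IsPairing ℓ U e)

include he

theorem jac_left {u u' v : Eˣ} (hu : u ∈ U) (hu' : u' ∈ U)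
    (hv : v ∈ U) (h : (u : Eˣ ⧸ powers ℓ E) = u') : e u v = e u' v := by
  have h1 := (jac_div_mem u u').2 h
  have h2 := he.mul_left _ (jac_powers_le h1) u' hu' v hv
  rw [div_mul_cancel, (he.left _ (jac_powers_le h1)).2 h1 v hv, zero_add] at h2
  exact h2

theorem jac_right {u v v' : Eˣ} (hu : u ∈ U) (hv : v ∈ U)
    (hv' : v' ∈ U) (h : (v : Eˣ ⧸ powers ℓ E) = v') : e u v = e u v' := by
  have h1 := (jac_div_mem v v').2 h
  have h2 := he.mul_right u hu _ (jac_powers_le h1) v' hv'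
  rw [div_mul_cancel, (he.right _ (jac_powers_le h1)).2 h1 u hu, zero_add] at h2
  exact h2

theorem jac_congr {u u' v v' : Eˣ} (hu : u ∈ U) (hu' : u' ∈ U)
    (hv : v ∈ U) (hv' : v' ∈ U) (h : (u : Eˣ ⧸ powers ℓ E) = u')
    (h' : (v : Eˣ ⧸ powers ℓ E) = v') : e u v = e u' v' :=
  (jac_left he hu hu' hv h).trans (jac_right he hu' hv hv' h')

omit he in
/-- the pairing on `torsion` -/
noncomputable def jacPair (he : IsPairing ℓ U e) :
    torsion ℓ U →* torsion ℓ U →* Multiplicative (ZMod ℓ) :=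
  MonoidHom.mk' (fun c => MonoidHom.mk' (fun d => Multiplicative.ofAdd (e (jacLift c) (jacLift d))) (by
    intro d d'
    rw [← ofAdd_add, ← he.mul_right _ (jacLift_mem c) _ (jacLift_mem d) _ (jacLift_mem d')]
    congr 1
    refine jac_right he (jacLift_mem c) (jacLift_mem _) (U.mul_mem (jacLift_mem d) (jacLift_mem d')) ?_
    rw [jacLift_coe, QuotientGroup.mk_mul, jacLift_coe, jacLift_coe]; rfl)) (by
    intro c c'
    ext d
    show Multiplicative.ofAdd (e (jacLift (c * c')) (jacLift d)) =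
      Multiplicative.ofAdd (e (jacLift c) (jacLift d)) * Multiplicative.ofAdd (e (jacLift c') (jacLift d))
    rw [← ofAdd_add, ← he.mul_left _ (jacLift_mem c) _ (jacLift_mem c') _ (jacLift_mem d)]
    congr 1
    refine jac_left he (jacLift_mem _) (U.mul_mem (jacLift_mem c) (jacLift_mem c')) (jacLift_mem d) ?_
    rw [jacLift_coe, QuotientGroup.mk_mul, jacLift_coe, jacLift_coe]; rfl)

omit he in
theorem jacPair_apply (he : IsPairing ℓ U e) (c d : torsion ℓ U) :
    jacPair he c d = Multiplicative.ofAdd (e (jacLift c) (jacLift d)) := rfl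

omit he in
theorem jacPair_nd (he : IsPairing ℓ U e) (c : torsion ℓ U) (h : ∀ d, jacPair he c d = 1) : c = 1 := by
  have h1 : ∀ v ∈ U, e (jacLift c) v = 0 := by
    intro v hv
    have h2 := h ⟨v, jac_mem.2 hv⟩
    rw [jacPair_apply] at h2
    have h3 : e (jacLift c) (jacLift ⟨(v : Eˣ ⧸ powers ℓ E), jac_mem.2 hv⟩) = 0 := Multiplicative.ofAdd.injective h2
    rw [← h3]
    exact jac_right he (jacLift_mem c) hv (jacLift_mem _)
      (jacLift_coe (⟨(v : Eˣ ⧸ powers ℓ E), jac_mem.2 hv⟩ : torsion ℓ U)).symm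
  have h2 := (he.left _ (jacLift_mem c)).1 h1
  apply Subtype.ext
  rw [← jacLift_coe c]
  exact (QuotientGroup.eq_one_iff _).2 h2

end pairing

/-- the function of elements of `Eˣ` for an automorphism -/
noncomputable def jacFun (φ : torsion ℓ U ≃* torsion ℓ U) (u : Eˣ) : Eˣ :=
  if h : (u : Eˣ ⧸ powers ℓ E) ∈ torsion ℓ U then jacLift (φ ⟨u, h⟩) else 1

theorem jacFun_mem (φ : torsion ℓ U ≃* torsion ℓ U) {u : Eˣ} (hu : u ∈ U) :
    jacFun φ u ∈ U := by
  rw [jacFun, dif_pos (jac_mem.2 hu)]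
  exact jacLift_mem _

theorem jacFun_coe (φ : torsion ℓ U ≃* torsion ℓ U) {u : Eˣ} (hu : u ∈ U) :
    (jacFun φ u : Eˣ ⧸ powers ℓ E) = φ ⟨u, jac_mem.2 hu⟩ := by
  rw [jacFun, dif_pos (jac_mem.2 hu)]
  exact jacLift_coe _

theorem jacFun_isAutomorphism (φ : torsion ℓ U ≃* torsion ℓ U) :
    IsAutomorphism ℓ U (jacFun φ) := by
  refine ⟨fun u hu => jacFun_mem φ hu, fun u hu v hv => ?_, fun u hu => ?_⟩
  · have h1 := jacFun_coe φ (U.mul_mem hu hv)
    have h2 : (⟨((u * v : Eˣ) : Eˣ ⧸ powers ℓ E), jac_mem.2 (U.mul_mem hu hv)⟩ :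
        torsion ℓ U) = ⟨u, jac_mem.2 hu⟩ * ⟨v, jac_mem.2 hv⟩ := rfl
    have h3 : ((jacFun φ u * jacFun φ v : Eˣ) : Eˣ ⧸ powers ℓ E) =
        (jacFun φ u : Eˣ ⧸ powers ℓ E) * (jacFun φ v : Eˣ ⧸ powers ℓ E) := rfl
    rw [jac_div_mem, h1, h2, map_mul, h3, jacFun_coe φ hu, jacFun_coe φ hv]
    rfl
  · rw [← QuotientGroup.eq_one_iff, jacFun_coe φ hu, ← QuotientGroup.eq_one_iff (N := powers ℓ E) u]
    constructor
    · intro h
      have h1 : φ ⟨u, jac_mem.2 hu⟩ = 1 := Subtype.ext h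
      have h2 := (map_eq_one_iff φ φ.injective).1 h1
      exact congrArg Subtype.val h2
    · intro h
      have h1 : (⟨u, jac_mem.2 hu⟩ : torsion ℓ U) = 1 := Subtype.ext h
      rw [h1, map_one]; rfl

theorem jacFun_induced {φ : torsion ℓ U ≃* torsion ℓ U} (h : IsInducedBy ℓ k F t x U (jacFun φ)) :
    IsInduced ℓ k F t x U φ := by
  obtain ⟨γ, hγ, h⟩ := h
  refine ⟨γ, hγ, fun u hu => ?_⟩
  have hu' := jac_mem.1 hu
  rw [← jacFun_coe φ hu']
  exact ((jac_div_mem _ _).1 (h u hu')).symm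

omit hU in
theorem jac_card : (powers ℓ E).relIndex U = Nat.card (torsion ℓ U) := by
  rw [torsion, ← Subgroup.relIndex_ker, QuotientGroup.ker_mk']

theorem HasSymplectic.isSymplectic (h : HasSymplectic ℓ k F t x U) : IsSymplectic ℓ k F t x U := by
  obtain ⟨h2, g, hg, hc, e, he, h3, h5⟩ := h
  refine ⟨h2, g, hg, by rw [← hc, jac_card], jacPair he, fun c => ?_, jacPair_nd he, fun φ hφ => ?_⟩
  · rw [jacPair_apply, h3 _ (jacLift_mem c)]; rfl
  · refine jacFun_induced (h5 _ (jacFun_isAutomorphism φ) fun u hu v hv => ?_)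
    have h6 : e (jacLift (φ ⟨u, jac_mem.2 hu⟩)) (jacLift (φ ⟨v, jac_mem.2 hv⟩)) =
        e (jacLift ⟨u, jac_mem.2 hu⟩) (jacLift ⟨v, jac_mem.2 hv⟩) :=
      Multiplicative.ofAdd.injective (hφ ⟨u, jac_mem.2 hu⟩ ⟨v, jac_mem.2 hv⟩)
    have h7 : e (jacFun φ u) (jacFun φ v) = e (jacLift (φ ⟨u, jac_mem.2 hu⟩)) (jacLift (φ ⟨v, jac_mem.2 hv⟩)) :=
      jac_congr he (jacFun_mem φ hu) (jacLift_mem _) (jacFun_mem φ hv) (jacLift_mem _)
        (by rw [jacFun_coe φ hu, jacLift_coe]) (by rw [jacFun_coe φ hv, jacLift_coe])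
    have h8 : e (jacLift ⟨u, jac_mem.2 hu⟩) (jacLift ⟨v, jac_mem.2 hv⟩) = e u v :=
      jac_congr he (jacLift_mem _) hu (jacLift_mem _) hv (jacLift_coe _) (jacLift_coe _)
    rw [h7, h6, h8]

theorem HasOrthogonal.isOrthogonal (h : HasOrthogonal ℓ k F t x U) : IsOrthogonal ℓ k F t x U := by
  obtain ⟨h2, g, hg, hc, q, hq, he, h5⟩ := h
  -- `q` depends only on the class
  have hqc : ∀ {u u' : Eˣ}, u ∈ U → u' ∈ U → (u : Eˣ ⧸ powers ℓ E) = u' →
      q u = q u' := by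
    intro u u' hu hu' h
    have h1 := (jac_div_mem u u').2 h
    have h3 := (he.left _ (jac_powers_le h1)).2 h1 u' hu'
    simp only [div_mul_cancel, hq _ h1, sub_zero] at h3
    exact sub_eq_zero.1 h3
  refine ⟨h2, g, hg, by rw [← hc, jac_card], fun c => Multiplicative.ofAdd (q (jacLift c)), jacPair he, fun c d => ?_,
    jacPair_nd he, fun φ hφ => ?_⟩
  · show Multiplicative.ofAdd (q (jacLift (c * d))) = Multiplicative.ofAdd (q (jacLift c)) *
      Multiplicative.ofAdd (q (jacLift d)) * jacPair he c d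
    rw [jacPair_apply, ← ofAdd_add, ← ofAdd_add]
    have h3 : q (jacLift (c * d)) = q (jacLift c * jacLift d) :=
      hqc (jacLift_mem _) (U.mul_mem (jacLift_mem c) (jacLift_mem d)) (by
        rw [jacLift_coe, QuotientGroup.mk_mul, jacLift_coe, jacLift_coe]; rfl)
    rw [h3]
    congr 1
    ring
  · refine jacFun_induced (h5 _ (jacFun_isAutomorphism φ) fun u hu => ?_)
    have h6 : q (jacLift (φ ⟨u, jac_mem.2 hu⟩)) = q (jacLift ⟨u, jac_mem.2 hu⟩) :=
      Multiplicative.ofAdd.injective (hφ ⟨u, jac_mem.2 hu⟩)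
    have h7 : q (jacFun φ u) = q (jacLift (φ ⟨u, jac_mem.2 hu⟩)) :=
      hqc (jacFun_mem φ hu) (jacLift_mem _) (by rw [jacFun_coe φ hu, jacLift_coe])
    rw [h7, h6]
    exact hqc (jacLift_mem _) hu (jacLift_coe _)

omit hU in
/-- The `ℓ`-th powers are in the group `unramified`. -/
theorem powers_le_unramified (ℓ e : ℕ) {k F E : Type} [Field k] [Field F] [Algebra k F] [Field E]
    [Algebra F E] (f : Polynomial (Polynomial k)) (t x : E) : powers ℓ E ≤ unramified ℓ e F f t x := by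
  rintro u ⟨w, rfl⟩
  refine ⟨⟨Algebra.norm (IntermediateField.adjoin F {t}) (w : E), ?_⟩, fun O _ _ => ⟨w, ?_⟩⟩
  · rw [powMonoidHom_apply, Units.val_pow_eq_pow_val, map_pow]
  · rw [powMonoidHom_apply, Units.val_pow_eq_pow_val, map_pow]

omit hU in
/-- All the three forms of the hypothesis on the Galois image imply the criterion. -/
theorem isCritical_of [hl : Fact ℓ.Prime] (hU : powers ℓ E ≤ U)
    (h : IsCritical ℓ k F t x U ∨ HasSymplectic ℓ k F t x U ∨ HasOrthogonal ℓ k F t x U) :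
    IsCritical ℓ k F t x U := by
  haveI : Fact (powers ℓ E ≤ U) := ⟨hU⟩
  rcases h with h | h | h
  · exact h
  · exact h.isSymplectic.isCritical
  · exact h.isOrthogonal.isCritical

end Pool.Agent.Lib.MP_89bcae_ag.Zp
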