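import Mathlib
import Pool.Agent.Lib.MP_89bcae_ag.Zc.Asm
import Pool.Agent.Lib.MP_89bcae_ag.Zp.Defs

/-!
# The generic fibre
-/

attribute [local instance 100000] Pool.Agent.Lib.MP_89bcae_ag.Brt.tffFields
attribute [local instance 100000] Pool.Agent.Lib.MP_89bcae_ag.Wt.ifrNF Pool.Agent.Lib.MP_89bcae_ag.Wt.iddNF

open Polynomial IsDedekindDomain

open scoped Classical

namespace Pool.Agent.Lib.MP_89bcae_ag.Zp

open Pool.Agent.Lib.MP_89bcae_ag.Wt Pool.Agent.Lib.MP_89bcae_ag.Wt.Lns Pool.Agent.Lib.MP_89bcae_ag.Bra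
  Pool.Agent.Lib.MP_89bcae_ag.Brt

open Pool.Agent.Lib.MP_89bcae_ag.Zc (map_base_eq)

/-- The generic fibre. -/
theorem good_of {k F L Ω : Type} [Field k] [Field F] [Algebra k F] [IsAlgClosure k F] [Field L]
    [Algebra F[X] L] [IsFractionRing F[X] L] [Field Ω] [Algebra L Ω] [IsAlgClosure L Ω] {ℓ e : ℕ} (hℓ : ℓ.Prime)
    (hk : (ℓ : k) ≠ 0) {f : k[X][X]} (hB : IsBranchCurve ℓ e F f) :
    (f.map (base k F L L)).Separable ∧ IsGood ℓ ((f.map (base k F L L)).map (algebraMap L Ω)) := by
  have hΩ : IsAlgClosed Ω := IsAlgClosure.isAlgClosed L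
  have hmon : (Zs.ext F f).Monic := hB.monic.map _
  have hinj : Function.Injective (algebraMap F[X] L) := IsFractionRing.injective F[X] L
  have hinj' : Function.Injective (mapRingHom (algebraMap k F)) :=
    map_injective _ (algebraMap k F).injective
  have hirr : Irreducible (f.map (base k F L L)) := by
    rw [map_base_eq]
    exact (hmon.irreducible_iff_irreducible_map_fraction_map (K := L)).1 hB.irreducible
  have hder : derivative (f.map (base k F L L)) ≠ 0 := by
    rw [map_base_eq, derivative_map, Ne, Polynomial.map_eq_zero_iff hinj, Zs.ext, derivative_map,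
      Polynomial.map_eq_zero_iff hinj']
    exact hB.separable
  have hsep : (f.map (base k F L L)).Separable := (separable_iff_derivative_ne_zero hirr).2 hder
  refine ⟨hsep, ⟨hΩ, hℓ.one_lt, ?_, ?_, ?_⟩⟩
  · intro h
    apply hk
    have h1 : ((algebraMap L Ω).comp ((algebraMap F[X] L).comp ((C : F →+* F[X]).comp (algebraMap k F)))) (ℓ : k) = 0 := by
      rw [map_natCast]
      exact h
    exact (_root_.map_eq_zero _).1 h1
  · intro θ hθ
    have hsep' : ((f.map (base k F L L)).map (algebraMap L Ω)).Separable := hsep.map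
    have h1 := Polynomial.rootMultiplicity_le_one_of_separable hsep' θ
    have h2 : 0 < ((f.map (base k F L L)).map (algebraMap L Ω)).rootMultiplicity θ :=
      (Polynomial.rootMultiplicity_pos hsep'.ne_zero).mpr hθ
    rw [show ((f.map (base k F L L)).map (algebraMap L Ω)).rootMultiplicity θ = 1 by omega]
    exact Nat.coprime_one_left ℓ
  · rw [natDegree_map, hB.monic.natDegree_map]
    exact hB.coprime

end Pool.Agent.Lib.MP_89bcae_ag.Zp
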