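import Mathlib
import Pool.Agent.Lib.MP_89bcae_ag.Zp.Loc

/-!
# The local divisibility lemma, pointwise
-/

attribute [local instance 100000] Pool.Agent.Lib.MP_89bcae_ag.Brt.tffFields
attribute [local instance 100000] Pool.Agent.Lib.MP_89bcae_ag.Wt.ifrNF Pool.Agent.Lib.MP_89bcae_ag.Wt.iddNF

open Polynomial IsDedekindDomain

open scoped Classical

namespace Pool.Agent.Lib.MP_89bcae_ag.Zp

open Pool.Agent.Lib.MP_89bcae_ag.Wt Pool.Agent.Lib.MP_89bcae_ag.Wt.Lns Pool.Agent.Lib.MP_89bcae_ag.Bra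
  Pool.Agent.Lib.MP_89bcae_ag.Brt

open Pool.Agent.Lib.MP_89bcae_ag.Zs (nearL lf_fixed)

section Val

variable {M : Type} [Field M] {v : AbsoluteValue M ℝ}

private lemma l1_comm (x y : M) : v (x - y) = v (y - x) := by
  rw [← neg_sub, v.map_neg]

private lemma l1_sub (hna : ∀ x y, v (x + y) ≤ max (v x) (v y)) {x y : M} (h : v y < v x) :
    v (x - y) = v x := by
  apply le_antisymm
  · have h1 := hna x (-y)
    rw [← sub_eq_add_neg, v.map_neg] at h1
    exact h1.trans (max_le le_rfl h.le)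
  · have h1 := hna (x - y) y
    rw [sub_add_cancel] at h1
    rcases le_max_iff.1 h1 with h2 | h2
    · exact h2
    · exact absurd h2 (not_le.2 h)

private lemma l1_sub' (hna : ∀ x y, v (x + y) ≤ max (v x) (v y)) {x y : M} (h : v x < v y) :
    v (x - y) = v y := by
  rw [l1_comm, l1_sub hna h]

/-- The value of a product over a divisor. -/
private lemma l1_v_prod {ℓ : ℕ} {f : M[X]} (D : Pt ℓ f →₀ ℤ) (φ : Pt ℓ f → M) :
    v (D.prod fun P n => φ P ^ n) = ∏ P ∈ D.support, v (φ P) ^ D P := by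
  rw [Finsupp.prod, map_prod]
  refine Finset.prod_congr rfl ?_
  intro P _
  rw [map_zpow₀]

private lemma l1_prod_fixed {ℓ : ℕ} {f : M[X]} (σ : Sym f) (D : Pt ℓ f →₀ ℤ)
    (hD : D.mapDomain (Pt.sym σ) = D) (φ : Pt ℓ f → M)
    (hφ : ∀ P, (σ : M ≃+* M) (φ P) = φ (P.sym σ)) :
    (σ : M ≃+* M) (D.prod fun P n => φ P ^ n) = D.prod fun P n => φ P ^ n := by
  conv_rhs => rw [← hD, Finsupp.prod_mapDomain_index_inj (U01_sym_inj σ)]
  rw [map_finsuppProd]
  refine Finsupp.prod_congr ?_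
  intro P _
  rw [map_zpow₀, hφ]

end Val

section

variable {F K M : Type} [Field F] [Field K] [Algebra F[X] K] [Field M] [Algebra K M] [Algebra F M]
  [IsAlgClosure K M] {ℓ : ℕ} {s : F} {v : AbsoluteValue M ℝ} {p : K[X]} {lam : K}

omit [IsAlgClosure K M] in
private lemma l1_fixF (hL : LocF F K s v) (σ : M ≃ₐ[K] M) (c : F) : σ (algebraMap F M c) = algebraMap F M c := by
  rw [hL.compat, σ.commutes]

omit [IsAlgClosure K M] in
private lemma l1_const (hL : LocF F K s v) (c : F) : v (algebraMap F M c) ≤ 1 := by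
  by_cases h : c = 0
  · rw [h, map_zero, map_zero]
    exact zero_le_one
  · exact (hL.ctx.const c h).le

omit [IsAlgClosure K M] in
private lemma l1_pos (hL : LocF F K s v) :
    0 < v (algebraMap K M (algebraMap F[X] K X) - algebraMap F M s) :=
  v.pos (sub_ne_zero.2 hL.ctx.ne)

private lemma l1_ne {p : M[X]} (hs : p.Separable) : p ≠ 0 := hs.ne_zero

omit [IsAlgClosure K M] in
private lemma l1_mem (hs : p.Separable) {θ : M} :
    θ ∈ (p.map (algebraMap K M)).roots.toFinset ↔ (p.map (algebraMap K M)).eval θ = 0 := by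
  have hs' : (p.map (algebraMap K M)).Separable := hs.map
  rw [Multiset.mem_toFinset, mem_roots hs'.ne_zero, IsRoot.def]

omit [IsAlgClosure K M] [Algebra F[X] K] in
private lemma l1_near (hs : p.Separable) {lm : M} {r : F} {θ : M} :
    θ ∈ nearL v lm (p.map (algebraMap K M)) r ↔
      (p.map (algebraMap K M)).eval θ = 0 ∧ v (θ / lm - algebraMap F M r) < 1 := by
  unfold nearL
  rw [Finset.mem_filter, l1_mem hs]

omit [Field F] [Algebra F[X] K] [Algebra F M] in
/-- The value of a monic polynomial. -/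
private lemma l1_eval (hp : p.Monic) (hs : p.Separable) (x : M) :
    (p.map (algebraMap K M)).eval x = ∏ θ ∈ (p.map (algebraMap K M)).roots.toFinset, (x - θ) := by
  have : IsAlgClosed M := IsAlgClosure.isAlgClosed K
  have hs' : (p.map (algebraMap K M)).Separable := hs.map
  rw [(IsAlgClosed.splits _).eval_eq_prod_roots_of_monic (hp.map _), Finset.prod_eq_multiset_prod,
    Multiset.toFinset_val, (nodup_roots hs').dedup]

omit [Field F] [Algebra F[X] K] [Algebra F M] in
private lemma l1_card (hs : p.Separable) :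
    (p.map (algebraMap K M)).roots.toFinset.card = p.natDegree := by
  have : IsAlgClosed M := IsAlgClosure.isAlgClosed K
  have hs' : (p.map (algebraMap K M)).Separable := hs.map
  rw [Multiset.toFinset_card_of_nodup (nodup_roots hs'), ← (IsAlgClosed.splits _).natDegree_eq_card_roots,
    natDegree_map]

omit [Field F] [Algebra F[X] K] [Algebra F M] in
/-- The derivative at a root. -/
private lemma l1_cof (hp : p.Monic) (hs : p.Separable) {x : M} (hx : (p.map (algebraMap K M)).eval x = 0) :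
    wt (p.map (algebraMap K M)) x = 1 ∧ cof (p.map (algebraMap K M)) x =
      ∏ θ ∈ (p.map (algebraMap K M)).roots.toFinset.erase x, (x - θ) := by
  have hM : IsAlgClosed M := IsAlgClosure.isAlgClosed K
  have hs' : (p.map (algebraMap K M)).Separable := hs.map
  have hw : wt (p.map (algebraMap K M)) x = 1 := by
    have h1 := rootMultiplicity_le_one_of_separable hs' x
    have h2 : 0 < (p.map (algebraMap K M)).rootMultiplicity x := (rootMultiplicity_pos hs'.ne_zero).mpr hx
    unfold wt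
    omega
  refine ⟨hw, ?_⟩
  have h1 := wt_mul (p.map (algebraMap K M)) x
  have h2 : p.map (algebraMap K M) = (X - C x) *
      ∏ θ ∈ (p.map (algebraMap K M)).roots.toFinset.erase x, (X - C θ) := by
    rw [Finset.mul_prod_erase _ (fun θ => X - C θ) ((l1_mem hs).2 hx)]
    conv_lhs => rw [(IsAlgClosed.splits (p.map (algebraMap K M))).eq_prod_roots_of_monic (hp.map _)]
    rw [Finset.prod_eq_multiset_prod, Multiset.toFinset_val, (nodup_roots hs').dedup]
  rw [hw, pow_one] at h1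
  have h3 : cofP (p.map (algebraMap K M)) x =
      ∏ θ ∈ (p.map (algebraMap K M)).roots.toFinset.erase x, (X - C θ) :=
    mul_left_cancel₀ (X_sub_C_ne_zero x) (h1.trans h2)
  rw [cof, h3, eval_prod]
  simp

omit [IsAlgClosure K M] in
private lemma l1_div {lm : M} (hlm : lm ≠ 0) (x y : M) : v (x - y) = v (x / lm - y / lm) * v lm := by
  rw [← sub_div, map_div₀, div_mul_cancel₀ _ ((v.ne_zero_iff).2 hlm)]

omit [IsAlgClosure K M] in
/-- The residues are the same or not. -/
private lemma l1_far (hL : LocF F K s v) {lm : M} (hlm : lm ≠ 0) {r : F} {x y : M}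
    (hx : v (x / lm - algebraMap F M r) < 1) (hy : v y ≤ v lm) (hy' : ¬ v (y / lm - algebraMap F M r) < 1) :
    v (x - y) = v lm := by
  have hlm0 : 0 < v lm := v.pos hlm
  have hna := hL.ctx.nonarch
  have h1 : v (y / lm - algebraMap F M r) = 1 := by
    apply le_antisymm
    · have h2 := hna (y / lm) (-algebraMap F M r)
      rw [← sub_eq_add_neg, v.map_neg] at h2
      refine h2.trans (max_le ?_ (l1_const hL r))
      rw [map_div₀]
      exact (div_le_one hlm0).2 hy
    · exact not_lt.1 hy'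
  have h3 : x / lm - y / lm = (x / lm - algebraMap F M r) - (y / lm - algebraMap F M r) := by ring
  rw [l1_div hlm, h3, l1_sub' hna (by rw [h1]; exact hx), h1, one_mul]

omit [IsAlgClosure K M] in
private lemma l1_near_le (hL : LocF F K s v) {lm : M} (hlm : lm ≠ 0) {r : F} {x : M}
    (hx : v (x / lm - algebraMap F M r) < 1) : v x ≤ v lm := by
  have hlm0 : 0 < v lm := v.pos hlm
  have h1 := hL.ctx.nonarch (x / lm - algebraMap F M r) (algebraMap F M r)
  rw [sub_add_cancel] at h1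
  have h2 := h1.trans (max_le hx.le (l1_const hL r))
  rw [map_div₀] at h2
  exact (div_le_one hlm0).1 h2

/-- The regularizing function. -/
private noncomputable def cc (v : AbsoluteValue M ℝ) (lm : M) {ℓ : ℕ} {f : M[X]} (r : F) (P : Pt ℓ f) : M :=
  if v (P.x / lm - algebraMap F M r) < 1 then (if P.y = 0 then (cof f P.x ^ be ℓ 1)⁻¹ else P.y) else 1

/-- The exponent. -/
private noncomputable def ee (v : AbsoluteValue M ℝ) (lm : M) (m μ : ℤ) {ℓ : ℕ} {f : M[X]} (r : F)
    (P : Pt ℓ f) : ℤ :=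
  if v lm < v P.x then 0 else if v (P.x / lm - algebraMap F M r) < 1 then μ - m else μ

private lemma l1_factor (hL : LocF F K s v) [hG : IsGood ℓ (p.map (algebraMap K M))]
    (hp : p.Monic) (hs : p.Separable) (hlam : lam ≠ 0)
    (hroots : ∀ θ, (p.map (algebraMap K M)).eval θ = 0 → v θ ≤ v (algebraMap K M lam))
    (r : F) (P : Pt ℓ (p.map (algebraMap K M))) :
    ∏ θ ∈ nearL v (algebraMap K M lam) (p.map (algebraMap K M)) r,
      v (if P.x = θ then (cof (p.map (algebraMap K M)) θ ^ al ℓ (wt (p.map (algebraMap K M)) θ))⁻¹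
        else θ - P.x) =
    v (if v (algebraMap K M lam) < v P.x then P.x else 1) ^
        (nearL v (algebraMap K M lam) (p.map (algebraMap K M)) r).card *
      (v (algebraMap K M lam) ^ ee v (algebraMap K M lam) p.natDegree
          (nearL v (algebraMap K M lam) (p.map (algebraMap K M)) r).card r P *
        v (cc v (algebraMap K M lam) r P) ^ ℓ) := by
  set lm : M := algebraMap K M lam with hlmdef
  set N := nearL v lm (p.map (algebraMap K M)) r with hN
  have hlm : lm ≠ 0 := (_root_.map_ne_zero _).2 hlam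
  have hlm0 : 0 < v lm := v.pos hlm
  have hna := hL.ctx.nonarch
  have hℓ0 : ℓ ≠ 0 := hG.ne
  have hNn : ∀ θ ∈ N, (p.map (algebraMap K M)).eval θ = 0 ∧ v (θ / lm - algebraMap F M r) < 1 := fun θ hθ => (l1_near hs).1 hθ
  have hNs : N ⊆ (p.map (algebraMap K M)).roots.toFinset := Finset.filter_subset _ _
  have hcm : (p.map (algebraMap K M)).roots.toFinset.card = p.natDegree := l1_card hs
  -- products over the far roots
  have hfar : ∀ x : M, v (x / lm - algebraMap F M r) < 1 →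
      ∏ θ ∈ (p.map (algebraMap K M)).roots.toFinset \ N, v (x - θ) = v lm ^ (p.natDegree - N.card) := by
    intro x hx
    rw [← hcm, ← Finset.card_sdiff_of_subset hNs]
    apply Finset.prod_eq_pow_card
    intro θ hθ
    rw [Finset.mem_sdiff] at hθ
    have h1 : (p.map (algebraMap K M)).eval θ = 0 := (l1_mem hs).1 hθ.1
    exact l1_far hL hlm hx (hroots θ h1) (fun h2 => hθ.2 ((l1_near hs).2 ⟨h1, h2⟩))
  have hle : N.card ≤ p.natDegree := by
    rw [← hcm]
    exact Finset.card_le_card hNs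
  have hpow : v lm ^ (p.natDegree - N.card) * v lm ^ ((N.card : ℤ) - p.natDegree) = 1 := by
    rw [← zpow_natCast, ← zpow_add₀ hlm0.ne', Nat.cast_sub hle]
    rw [show (p.natDegree : ℤ) - N.card + ((N.card : ℤ) - p.natDegree) = 0 by ring, zpow_zero]
  by_cases hbig : v lm < v P.x
  · have hnr : ¬ v (P.x / lm - algebraMap F M r) < 1 := fun h1 => absurd hbig (not_lt.2 (l1_near_le hL hlm h1))
    unfold ee cc
    simp only [if_pos hbig, if_neg hnr]
    rw [map_one, one_pow, mul_one, zpow_zero, mul_one]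
    apply Finset.prod_eq_pow_card
    intro θ hθ
    have h1 := hroots θ (hNn θ hθ).1
    rw [if_neg (by rintro rfl; exact absurd hbig (not_lt.2 h1)), l1_sub' hna (lt_of_le_of_lt h1 hbig)]
  · unfold ee cc
    rw [if_neg hbig, map_one, one_pow, one_mul, if_neg hbig]
    by_cases hr : v (P.x / lm - algebraMap F M r) < 1
    · rw [if_pos hr, if_pos hr]
      by_cases hy : P.y = 0
      · rw [if_pos hy]
        have hPx : (p.map (algebraMap K M)).eval P.x = 0 := by
          rw [← P.eq, hy, zero_pow hℓ0]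
        have hmem : P.x ∈ N := (l1_near hs).2 ⟨hPx, hr⟩
        obtain ⟨hw, hcof⟩ := l1_cof hp hs hPx
        rw [← Finset.mul_prod_erase _ _ hmem, if_pos rfl, hw]
        have e1 : ∏ θ ∈ N.erase P.x,
            v (if P.x = θ then (cof (p.map (algebraMap K M)) θ ^ al ℓ (wt (p.map (algebraMap K M)) θ))⁻¹ else θ - P.x) =
            ∏ θ ∈ N.erase P.x, v (P.x - θ) := by
          refine Finset.prod_congr rfl ?_
          intro θ hθ
          rw [if_neg (Finset.ne_of_mem_erase hθ).symm, l1_comm]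
        have e2 : v (cof (p.map (algebraMap K M)) P.x) = (∏ θ ∈ N.erase P.x, v (P.x - θ)) * v lm ^ (p.natDegree - N.card) := by
          rw [hcof, map_prod, ← hfar P.x hr, mul_comm]
          have h1 : (p.map (algebraMap K M)).roots.toFinset.erase P.x = ((p.map (algebraMap K M)).roots.toFinset \ N) ∪ N.erase P.x := by
            ext θ
            simp only [Finset.mem_erase, Finset.mem_union, Finset.mem_sdiff]
            constructor
            · rintro ⟨h1, h2⟩
              by_cases h3 : θ ∈ N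
              · exact Or.inr ⟨h1, h3⟩
              · exact Or.inl ⟨h2, h3⟩
            · rintro (⟨h1, h2⟩ | ⟨h1, h2⟩)
              · exact ⟨fun h3 => h2 (h3 ▸ hmem), h1⟩
              · exact ⟨h1, hNs h2⟩
          have h2 : Disjoint ((p.map (algebraMap K M)).roots.toFinset \ N) (N.erase P.x) := by
            rw [Finset.disjoint_left]
            intro θ h3 h4
            exact (Finset.mem_sdiff.1 h3).2 (Finset.mem_of_mem_erase h4)
          rw [h1, Finset.prod_union h2]
        have hcof0 : v (cof (p.map (algebraMap K M)) P.x) ≠ 0 := (v.ne_zero_iff).2 (cof_ne_zero (f_ne_zero ℓ (p.map (algebraMap K M))) _)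
        have hal : al ℓ 1 = be ℓ 1 * ℓ + 1 := by
          have h1 := al_wt (N := ℓ) hPx
          rw [hw, mul_one] at h1
          exact h1
        rw [e1, map_inv₀, map_pow, map_inv₀, map_pow, hal, pow_succ, mul_inv, inv_pow, ← pow_mul, mul_assoc,
          mul_comm (v lm ^ _)]
        congr 1
        rw [inv_mul_eq_iff_eq_mul₀ hcof0, e2, mul_assoc, hpow, mul_one]
      · rw [if_neg hy]
        have e1 : ∏ θ ∈ N, v (if P.x = θ then (cof (p.map (algebraMap K M)) θ ^ al ℓ (wt (p.map (algebraMap K M)) θ))⁻¹ else θ - P.x) =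
            ∏ θ ∈ N, v (P.x - θ) := by
          refine Finset.prod_congr rfl ?_
          intro θ hθ
          rw [if_neg, l1_comm]
          rintro rfl
          apply hy
          have h1 := P.eq
          rw [(hNn _ hθ).1] at h1
          exact (pow_eq_zero_iff hℓ0).1 h1
        have e2 : v P.y ^ ℓ = v lm ^ (p.natDegree - N.card) * ∏ θ ∈ N, v (P.x - θ) := by
          rw [← map_pow, P.eq, l1_eval hp hs, map_prod, ← hfar P.x hr, Finset.prod_sdiff hNs]
        rw [e1, e2, ← mul_assoc, mul_comm (v lm ^ (_ : ℤ)), hpow, one_mul]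
    · rw [if_neg hr, if_neg hr, map_one, one_pow, mul_one, zpow_natCast]
      apply Finset.prod_eq_pow_card
      intro θ hθ
      have h2 := (hNn θ hθ).2
      rw [if_neg (by rintro rfl; exact hr h2)]
      exact l1_far hL hlm h2 (not_lt.1 hbig) hr


/-- The values of the products over an invariant divisor. -/
private lemma l1_disc (hL : LocF F K s v) (D : Pt ℓ (p.map (algebraMap K M)) →₀ ℤ)
    (hD : ∀ σ : M ≃ₐ[K] M, D.mapDomain (Pt.sym (gs p σ)) = D) (φ : Pt ℓ (p.map (algebraMap K M)) → M)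
    (h0 : ∀ P, φ P ≠ 0) (hφ : ∀ (σ : M ≃ₐ[K] M) P, σ (φ P) = φ (P.sym (gs p σ))) :
    Sup.Val (ringExpChar K) (v (algebraMap K M (algebraMap F[X] K X) - algebraMap F M s))
      (∏ P ∈ D.support, v (φ P) ^ D P) := by
  rw [← l1_v_prod]
  refine lf_fixed hL (Finset.prod_ne_zero_iff.2 fun P _ => zpow_ne_zero _ (h0 P)) fun σ => ?_
  exact l1_prod_fixed (gs p σ) D (hD σ) φ (hφ σ)

/-- The product of the values over the roots near `r`. -/
theorem lf_uval_prod (hL : LocF F K s v) (_hℓ : ℓ.Prime) [hG : IsGood ℓ (p.map (algebraMap K M))]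
    (hp : p.Monic) (hs : p.Separable) (hlam : lam ≠ 0)
    (hlv : ∃ n : ℤ, v (algebraMap K M lam) =
      v (algebraMap K M (algebraMap F[X] K X) - algebraMap F M s) ^ ((ℓ : ℤ) * n))
    (hroots : ∀ θ, (p.map (algebraMap K M)).eval θ = 0 → v θ ≤ v (algebraMap K M lam))
    (D : Pt ℓ (p.map (algebraMap K M)) →₀ ℤ) (hD : ∀ σ : M ≃ₐ[K] M, D.mapDomain (Pt.sym (gs p σ)) = D) (r : F) :
    Sup.Val (ringExpChar K) (v (algebraMap K M (algebraMap F[X] K X) - algebraMap F M s) ^ ℓ)
      (∏ θ ∈ nearL v (algebraMap K M lam) (p.map (algebraMap K M)) r, v (uval D θ)) := by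
  set lm : M := algebraMap K M lam with hlmdef
  set ϖ : ℝ := v (algebraMap K M (algebraMap F[X] K X) - algebraMap F M s) with hϖ
  have hϖ0 : 0 < ϖ := l1_pos hL
  have hϖ1 : ϖ < 1 := hL.ctx.lt_one
  have hlm : lm ≠ 0 := (_root_.map_ne_zero _).2 hlam
  have hlm0 : 0 < v lm := v.pos hlm
  have hℓ0 : ℓ ≠ 0 := hG.ne
  have hcop : p.natDegree.Coprime ℓ := by
    have h1 := hG.coprime
    rwa [natDegree_map] at h1
  have hlV : Sup.Val (ringExpChar K) (ϖ ^ ℓ) (v lm) := by
    obtain ⟨n, hn⟩ := hlv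
    refine ⟨0, n, ?_⟩
    rw [pow_zero, pow_one, hn, zpow_mul, zpow_natCast]
  have hsx : ∀ (σ : M ≃ₐ[K] M) (P : Pt ℓ (p.map (algebraMap K M))), (P.sym (gs p σ)).x = σ P.x :=
    fun σ P => rfl
  have hsy : ∀ (σ : M ≃ₐ[K] M) (P : Pt ℓ (p.map (algebraMap K M))), (P.sym (gs p σ)).y = σ P.y :=
    fun σ P => rfl
  have hslm : ∀ σ : M ≃ₐ[K] M, σ lm = lm := fun σ => σ.commutes lam
  set N := nearL v lm (p.map (algebraMap K M)) r with hN
  have hprod2 : ∏ θ' ∈ N, v (uval D θ') =
      (∏ P ∈ D.support, v (if v lm < v P.x then P.x else 1) ^ D P) ^ N.card *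
      ((∏ P ∈ D.support, (v lm ^ ee v lm p.natDegree N.card r P) ^ D P) *
        (∏ P ∈ D.support, v (cc v lm r P) ^ D P) ^ ℓ) := by
    have e1 : ∀ θ' ∈ N, v (uval D θ') = ∏ P ∈ D.support,
        v (if P.x = θ' then (cof (p.map (algebraMap K M)) θ' ^ al ℓ (wt (p.map (algebraMap K M)) θ'))⁻¹
          else θ' - P.x) ^ D P := by
      intro θ' _
      unfold uval
      rw [Finsupp.prod, map_prod]
      refine Finset.prod_congr rfl ?_
      intro P _
      rw [map_zpow₀]
    rw [Finset.prod_congr rfl e1, Finset.prod_comm, ← Finset.prod_pow, ← Finset.prod_pow,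
      ← Finset.prod_mul_distrib, ← Finset.prod_mul_distrib]
    refine Finset.prod_congr rfl ?_
    intro P _
    rw [Finset.prod_zpow, l1_factor hL hp hs hlam hroots r P, mul_zpow, mul_zpow]
    congr 1
    · rw [← zpow_natCast, ← zpow_natCast, ← zpow_mul, ← zpow_mul, mul_comm]
    · congr 1
      rw [← zpow_natCast, ← zpow_natCast, ← zpow_mul, ← zpow_mul, mul_comm]
  rw [hprod2]
  -- the big part
  have hX : Sup.Val (ringExpChar K) ϖ (∏ P ∈ D.support, v (if v lm < v P.x then P.x else 1) ^ D P) := by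
    refine l1_disc hL D hD (fun P => if v lm < v P.x then P.x else 1) ?_ ?_
    · intro P
      show (if v lm < v P.x then P.x else 1) ≠ 0
      split_ifs with h1
      · intro h0
        rw [h0, map_zero] at h1
        exact absurd h1 (not_lt.2 hlm0.le)
      · exact one_ne_zero
    · intro σ P
      simp only [hsx, hL.inv]
      split_ifs
      · rfl
      · exact map_one _
  have hbigv : ∀ P : Pt ℓ (p.map (algebraMap K M)), v lm < v P.x → v P.y ^ ℓ = v P.x ^ p.natDegree := by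
    intro P h1
    rw [← map_pow, P.eq, l1_eval hp hs, map_prod, ← l1_card (K := K) (M := M) hs]
    apply Finset.prod_eq_pow_card
    intro θ' hθ'
    exact l1_sub hL.ctx.nonarch (lt_of_le_of_lt (hroots θ' ((l1_mem hs).1 hθ')) h1)
  have hX' : Sup.Val (ringExpChar K) ϖ (∏ P ∈ D.support, v (if v lm < v P.x then P.y else 1) ^ D P) := by
    refine l1_disc hL D hD (fun P => if v lm < v P.x then P.y else 1) ?_ ?_
    · intro P
      show (if v lm < v P.x then P.y else 1) ≠ 0
      split_ifs with h1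
      · intro h0
        have h2 := hbigv P h1
        rw [h0, map_zero, zero_pow hℓ0] at h2
        have h3 : 0 < v P.x ^ p.natDegree := pow_pos (hlm0.trans h1) _
        exact absurd h2 h3.ne
      · exact one_ne_zero
    · intro σ P
      simp only [hsx, hsy, hL.inv]
      split_ifs
      · rfl
      · exact map_one _
  have hXm : (∏ P ∈ D.support, v (if v lm < v P.x then P.x else 1) ^ D P) ^ p.natDegree =
      (∏ P ∈ D.support, v (if v lm < v P.x then P.y else 1) ^ D P) ^ ℓ := by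
    rw [← Finset.prod_pow, ← Finset.prod_pow]
    refine Finset.prod_congr rfl ?_
    intro P _
    have e1 : ∀ (x : ℝ) (m : ℕ), (x ^ D P) ^ m = (x ^ m) ^ D P := by
      intro x m
      rw [← zpow_natCast, ← zpow_natCast, ← zpow_mul, ← zpow_mul, mul_comm]
    rw [e1, e1]
    congr 1
    split_ifs with h1
    · exact (hbigv P h1).symm
    · rw [map_one, one_pow, one_pow]
  have hXpos : 0 < ∏ P ∈ D.support, v (if v lm < v P.x then P.x else 1) ^ D P := by
    refine Finset.prod_pos ?_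
    intro P _
    refine zpow_pos ?_ _
    split_ifs with h1
    · exact hlm0.trans h1
    · rw [map_one]; exact one_pos
  have hXval : Sup.Val (ringExpChar K) (ϖ ^ ℓ) (∏ P ∈ D.support, v (if v lm < v P.x then P.x else 1) ^ D P) := by
    refine Sup.Val.of_pow hϖ0 hϖ1 hcop hXpos hX ?_
    rw [hXm]
    exact Sup.Val.pow_self ℓ hX'
  -- the part near `r`
  have hB : Sup.Val (ringExpChar K) ϖ (∏ P ∈ D.support, v (cc v lm r P) ^ D P) := by
    refine l1_disc hL D hD (fun P => cc v lm r P) ?_ ?_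
    · intro P
      show cc v lm r P ≠ 0
      unfold cc
      split_ifs with h1 h2
      · exact inv_ne_zero (pow_ne_zero _ (cof_ne_zero (f_ne_zero ℓ (p.map (algebraMap K M))) _))
      · exact h2
      · exact one_ne_zero
    · intro σ P
      have e1 : v (σ P.x / lm - algebraMap F M r) = v (P.x / lm - algebraMap F M r) := by
        have e0 : σ (P.x / lm - algebraMap F M r) = σ P.x / lm - algebraMap F M r := by
          rw [map_sub, map_div₀, hslm, l1_fixF hL]
        rw [← e0, hL.inv]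
      have e2 : (σ P.y = 0) = (P.y = 0) := by
        rw [eq_iff_iff]
        exact map_eq_zero_iff _ σ.injective
      have e3 : cof (p.map (algebraMap K M)) (σ P.x) = σ (cof (p.map (algebraMap K M)) P.x) :=
        cof_sym (gs p σ) P.x
      unfold cc
      simp only [hsx, hsy, e1, e2, e3]
      split_ifs
      · rw [map_inv₀, map_pow]
      · rfl
      · exact map_one _
  refine Sup.Val.mul (Sup.Val.pow hXval _) (Sup.Val.mul (Sup.Val.prod _ _ ?_) (Sup.Val.pow_self ℓ hB))
  intro P _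
  exact Sup.Val.zpow (Sup.Val.zpow hlV _) _

omit [IsAlgClosure K M] [Field F] [Algebra F[X] K] [Algebra F M] in
private lemma l1_prod_perm {N : Type*} [CommMonoid N] (σ : M ≃ₐ[K] M) (S : Finset M)
    (hS : ∀ θ ∈ S, σ θ ∈ S) (φ : M → N) :
    ∏ θ ∈ S, φ (σ θ) = ∏ θ ∈ S, φ θ := by
  have h1 : S.image σ = S := by
    apply Finset.eq_of_subset_of_card_le
    · intro x hx
      obtain ⟨y, hy, rfl⟩ := Finset.mem_image.mp hx
      exact hS y hy
    · rw [Finset.card_image_of_injective _ σ.injective]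
  conv_rhs => rw [← h1]
  rw [Finset.prod_image (fun x _ y _ h => σ.injective h)]

/-- The values of the functions `z`, near a point where the roots are conjugate. -/
theorem lf_z (hL : LocF F K s v) (hℓ : ℓ.Prime) (_hℓF : (ℓ : F) ≠ 0)
    [hG : IsGood ℓ (p.map (algebraMap K M))]
    (hp : p.Monic) (hs : p.Separable) (hlam : lam ≠ 0)
    (hlv : ∃ n : ℤ, v (algebraMap K M lam) =
      v (algebraMap K M (algebraMap F[X] K X) - algebraMap F M s) ^ ((ℓ : ℤ) * n))
    (hroots : ∀ θ, (p.map (algebraMap K M)).eval θ = 0 → v θ ≤ v (algebraMap K M lam))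
    {ζ : K} (hζ : IsPrimitiveRoot (algebraMap K M ζ) ℓ) {z : M → M}
    (hz : ∀ θ, (p.map (algebraMap K M)).eval θ = 0 → z θ ≠ 0) (Q : Jac ℓ (p.map (algebraMap K M)))
    {r : F} (hQ : ∀ σ : M ≃ₐ[K] M, ∃ n e : M → ℤ,
      (rm n + rm e : Jac ℓ (p.map (algebraMap K M))) = symJ (gs p σ) Q - Q ∧
      (∀ θ, (p.map (algebraMap K M)).eval θ = 0 → σ (z θ) = algebraMap K M ζ ^ n (σ θ) * z (σ θ)) ∧
      (ℓ : ℤ) ∣ ∑ θ ∈ (p.map (algebraMap K M)).roots.toFinset, n θ ∧
      ∀ r' : F, (ℓ : ℤ) ∣ ∑ θ ∈ nearL v (algebraMap K M lam) (p.map (algebraMap K M)) r', e θ)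
    (horb : ∀ θ ∈ nearL v (algebraMap K M lam) (p.map (algebraMap K M)) r,
      ∀ θ' ∈ nearL v (algebraMap K M lam) (p.map (algebraMap K M)) r, ∃ σ : M ≃ₐ[K] M, σ θ = θ')
    {θ : M} (hθ : θ ∈ nearL v (algebraMap K M lam) (p.map (algebraMap K M)) r) :
    Sup.Val (ringExpChar K) (v (algebraMap K M (algebraMap F[X] K X) - algebraMap F M s) ^ ℓ)
      (v (z θ) ^ (ℓ * (nearL v (algebraMap K M lam) (p.map (algebraMap K M)) r).card * p.natDegree)) := by
  set lm : M := algebraMap K M lam with hlmdef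
  set ξ : M := algebraMap K M ζ with hξ
  set ϖ : ℝ := v (algebraMap K M (algebraMap F[X] K X) - algebraMap F M s) with hϖ
  have hϖ0 : 0 < ϖ := l1_pos hL
  have hϖ1 : ϖ < 1 := hL.ctx.lt_one
  have hlm : lm ≠ 0 := (_root_.map_ne_zero _).2 hlam
  have hlm0 : 0 < v lm := v.pos hlm
  have hℓ0 : ℓ ≠ 0 := hG.ne
  have hNZ : NeZero ℓ := ⟨hℓ0⟩
  have hξ0 : ξ ≠ 0 := hζ.ne_zero hℓ0
  have hfixζ : ∀ σ : M ≃ₐ[K] M, σ ξ = ξ := fun σ => σ.commutes ζ
  have hslm : ∀ σ : M ≃ₐ[K] M, σ lm = lm := fun σ => σ.commutes lam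
  have hrts : ∀ θ, θ ∈ (p.map (algebraMap K M)).roots.toFinset ↔ (p.map (algebraMap K M)).eval θ = 0 :=
    fun θ => l1_mem hs
  have hnear : ∀ (r' : F) (θ : M), θ ∈ nearL v lm (p.map (algebraMap K M)) r' ↔
      (p.map (algebraMap K M)).eval θ = 0 ∧ v (θ / lm - algebraMap F M r') < 1 := fun r' θ => l1_near hs
  -- the action
  have hσ0 : ∀ (σ : M ≃ₐ[K] M) (θ : M), (p.map (algebraMap K M)).eval (σ θ) = σ ((p.map (algebraMap K M)).eval θ) :=
    fun σ θ => R21_eval (gs p σ) θ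
  have hσrts : ∀ (σ : M ≃ₐ[K] M) (θ : M), (p.map (algebraMap K M)).eval θ = 0 →
      (p.map (algebraMap K M)).eval (σ θ) = 0 := by
    intro σ θ h
    rw [hσ0, h, map_zero]
  have hσnear : ∀ (r' : F) (σ : M ≃ₐ[K] M), ∀ θ ∈ nearL v lm (p.map (algebraMap K M)) r',
      σ θ ∈ nearL v lm (p.map (algebraMap K M)) r' := by
    intro r' σ θ hθ
    rw [hnear] at hθ ⊢
    refine ⟨hσrts σ θ hθ.1, ?_⟩
    have e0 : σ (θ / lm - algebraMap F M r') = σ θ / lm - algebraMap F M r' := by
      rw [map_sub, map_div₀, hslm, l1_fixF hL]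
    rw [← e0, hL.inv]
    exact hθ.2
  -- the residues of the roots
  have hres : ∀ θ ∈ (p.map (algebraMap K M)).roots.toFinset, ∃ r' : F,
      v (θ / lm - algebraMap F M r') < 1 := by
    intro θ hθ
    refine hL.ctx.residue _ ?_
    rw [map_div₀]
    exact (div_le_one hlm0).2 (hroots θ ((hrts θ).1 hθ))
  choose! res hres1 using hres
  have huniq : ∀ (x : M) (r₁ r₂ : F), v (x - algebraMap F M r₁) < 1 → v (x - algebraMap F M r₂) < 1 → r₁ = r₂ := by
    intro x r₁ r₂ h1 h2
    by_contra hne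
    have h3 := hL.ctx.const (r₁ - r₂) (sub_ne_zero.2 hne)
    have h4 : algebraMap F M (r₁ - r₂) = (x - algebraMap F M r₂) + -(x - algebraMap F M r₁) := by
      rw [map_sub]
      ring
    have h5 := hL.ctx.nonarch (x - algebraMap F M r₂) (-(x - algebraMap F M r₁))
    rw [← h4, h3, v.map_neg] at h5
    rcases le_max_iff.1 h5 with h6 | h6
    · exact absurd h2 (not_lt.2 h6)
    · exact absurd h1 (not_lt.2 h6)
  have hfilt : ∀ r' : F, (p.map (algebraMap K M)).roots.toFinset.filter (fun θ => res θ = r') =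
      nearL v lm (p.map (algebraMap K M)) r' := by
    intro r'
    unfold nearL
    apply Finset.filter_congr
    intro θ hθ
    constructor
    · rintro rfl
      exact hres1 θ hθ
    · intro h'
      exact huniq _ _ _ (hres1 θ hθ) h'
  have hsume : ∀ e : M → ℤ, (∀ r' : F, (ℓ : ℤ) ∣ ∑ θ ∈ nearL v lm (p.map (algebraMap K M)) r', e θ) →
      (ℓ : ℤ) ∣ ∑ θ ∈ (p.map (algebraMap K M)).roots.toFinset, e θ := by
    intro e he
    rw [← Finset.sum_fiberwise_of_maps_to (t := (p.map (algebraMap K M)).roots.toFinset.image res) (g := res)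
      (fun θ hθ => Finset.mem_image_of_mem res hθ) e]
    refine Finset.dvd_sum fun r' _ => ?_
    rw [hfilt]
    exact he r'
  -- the stable divisor
  have hstab : ∀ σ ∈ Set.range (fun σ : M ≃ₐ[K] M => gs p σ),
      symJ σ (Q - zJ ξ hζ.pow_eq_one Q) = Q - zJ ξ hζ.pow_eq_one Q := by
    rintro _ ⟨σ, rfl⟩
    obtain ⟨n, e, hn, -⟩ := hQ σ
    have e1 : symJ (gs p σ) Q = Q + (rm n + rm e) := by
      rw [hn]
      abel
    rw [map_sub, ← zJ_symJ _ _ (gs p σ) (hfixζ σ), e1, map_add, map_add, zJ_rm, zJ_rm]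
    abel
  obtain ⟨D, hDcl, hDfix'⟩ := exists_stable ξ hζ (Set.range (fun σ : M ≃ₐ[K] M => gs p σ)) _ hstab
  have hDfix : ∀ σ : M ≃ₐ[K] M, D.mapDomain (Pt.sym (gs p σ)) = D := fun σ => hDfix' _ ⟨σ, rfl⟩
  obtain ⟨z', hz', hkum⟩ := kummer_rm ξ hζ Q D hDcl.symm
  have hc : ∀ σ : M ≃ₐ[K] M, ∃ (c : ℤ) (e : M → ℤ), (∀ θ, (p.map (algebraMap K M)).eval θ = 0 → σ (z θ / z' θ) =
      ξ ^ c * ξ ^ (-e (σ θ)) * (z (σ θ) / z' (σ θ))) ∧
      (ℓ : ℤ) ∣ ∑ θ ∈ (p.map (algebraMap K M)).roots.toFinset, e θ ∧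
      (ℓ : ℤ) ∣ ∑ θ ∈ nearL v lm (p.map (algebraMap K M)) r, e θ := by
    intro σ
    obtain ⟨n, e, hn, hnz, -, he1⟩ := hQ σ
    have hDσ := hDfix σ
    have hex : ∀ θ, (p.map (algebraMap K M)).eval θ = 0 → ∃ i : ℤ, σ (z' θ) = ξ ^ i * z' (σ θ) := by
      intro θ hθ0
      have hσθ0 := hσrts σ θ hθ0
      have h0 : z' (σ θ) ≠ 0 := (hz' _ hσθ0).1
      have h1 : (σ (z' θ) / z' (σ θ)) ^ ℓ = 1 := by
        have h2 : σ (uval D θ) = uval D (σ θ) := sym_uval (gs p σ) D hDσ θ
        have h3 : atR D (σ θ) = atR D θ := sym_atR (gs p σ) D hDσ θ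
        rw [div_pow, ← map_pow, (hz' θ hθ0).2, (hz' _ hσθ0).2, map_mul, h2, h3, map_zpow₀, map_pow,
          map_neg, map_one]
        apply div_self
        apply mul_ne_zero
        · apply zpow_ne_zero
          apply pow_ne_zero
          exact neg_ne_zero.mpr one_ne_zero
        · exact uval_ne_zero D
      obtain ⟨i, _, hi⟩ := hζ.eq_pow_of_pow_eq_one h1
      exact ⟨i, by rw [zpow_natCast, hi, div_mul_cancel₀ _ h0]⟩
    let n' : M → ℤ := fun θ'' =>
      if h : (p.map (algebraMap K M)).eval (σ.symm θ'') = 0 then (hex _ h).choose else 0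
    have hn' : ∀ θ, (p.map (algebraMap K M)).eval θ = 0 → σ (z' θ) = ξ ^ n' (σ θ) * z' (σ θ) := by
      intro θ hθ
      have key : ∀ θ₁ (h₁ : (p.map (algebraMap K M)).eval θ₁ = 0), θ₁ = θ →
          σ (z' θ) = ξ ^ (hex θ₁ h₁).choose * z' (σ θ) := by
        rintro θ₁ h₁ rfl
        exact (hex θ₁ h₁).choose_spec
      have e1 : σ.symm (σ θ) = θ := σ.symm_apply_apply θ
      have e2 : (p.map (algebraMap K M)).eval (σ.symm (σ θ)) = 0 := by
        rw [e1]
        exact hθ
      have e3 : n' (σ θ) = (hex _ e2).choose := dif_pos e2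
      rw [e3]
      exact key _ e2 e1
    have hk := hkum (gs p σ) (hfixζ σ) hDσ n' hn'
    have h0 : (rm (fun θ => n θ - (n' θ - e θ)) : Jac ℓ (p.map (algebraMap K M))) = 0 := by
      have h00 : (rm (fun θ => n' θ - e θ) : Jac ℓ (p.map (algebraMap K M))) = rm n' - rm e := rm_sub _ _
      rw [rm_sub, h00, ← hk, ← hn]
      abel
    obtain ⟨c, hc⟩ := (rm_eq_zero_iff ξ hζ _).mp h0
    refine ⟨c, e, fun θ hθ => ?_, hsume e he1, he1 r⟩
    have h1 := hc (σ θ) (hσrts σ θ hθ)
    have h2 : ξ ^ (n (σ θ) - n' (σ θ)) = ξ ^ c * ξ ^ (-e (σ θ)) := by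
      have h3 : ξ ^ ((n (σ θ) - (n' (σ θ) - e (σ θ))) - c) = 1 := (hζ.zpow_eq_one_iff_dvd _).mpr h1
      rw [← zpow_add₀ hξ0]
      have h4 : n (σ θ) - n' (σ θ) = (n (σ θ) - (n' (σ θ) - e (σ θ)) - c) + (c + -e (σ θ)) := by ring
      rw [h4, zpow_add₀ hξ0, h3, one_mul]
    rw [map_div₀, hnz θ hθ, hn' θ hθ, mul_div_mul_comm, ← zpow_sub₀ hξ0, h2]
  -- the product of the `z θ`
  have hq0 : ∀ θ, (p.map (algebraMap K M)).eval θ = 0 → z θ / z' θ ≠ 0 := fun θ hθ =>
    div_ne_zero (hz θ hθ) (hz' θ hθ).1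
  obtain ⟨Qt, hQt⟩ : ∃ Qt, Qt = ∏ θ ∈ (p.map (algebraMap K M)).roots.toFinset, (z θ / z' θ) := ⟨_, rfl⟩
  have hQt0 : Qt ≠ 0 := by
    rw [hQt]
    exact Finset.prod_ne_zero_iff.mpr fun θ hθ => hq0 θ ((hrts θ).1 hθ)
  have hσS : ∀ σ : M ≃ₐ[K] M, ∀ θ ∈ (p.map (algebraMap K M)).roots.toFinset,
      σ θ ∈ (p.map (algebraMap K M)).roots.toFinset := fun σ θ hθ =>
    (hrts _).2 (hσrts σ θ ((hrts θ).1 hθ))
  have hpe : ∀ e : M → ℤ, ∀ S : Finset M, ∏ θ ∈ S, ξ ^ e θ = ξ ^ ∑ θ ∈ S, e θ := by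
    intro e S
    induction S using Finset.induction_on with
    | empty => rw [Finset.prod_empty, Finset.sum_empty, zpow_zero]
    | insert a S ha ih => rw [Finset.prod_insert ha, Finset.sum_insert ha, zpow_add₀ hξ0, ih]
  set N := nearL v lm (p.map (algebraMap K M)) r with hN
  have hx : ∀ σ : M ≃ₐ[K] M, ∃ e : M → ℤ, (∀ θ ∈ N, σ ((z θ / z' θ) ^ p.natDegree / Qt) =
      ξ ^ (-(p.natDegree * e (σ θ))) * ((z (σ θ) / z' (σ θ)) ^ p.natDegree / Qt)) ∧ (ℓ : ℤ) ∣ ∑ θ ∈ N, e θ := by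
    intro σ
    obtain ⟨c, e, hc, he1, he2⟩ := hc σ
    refine ⟨e, fun θ hθr => ?_, he2⟩
    have hθ := ((hnear _ _).mp hθr).1
    have h1 : σ Qt = (ξ ^ c) ^ p.natDegree * Qt := by
      rw [hQt, map_prod, Finset.prod_congr rfl (fun θ hθ => hc θ ((hrts θ).1 hθ)), Finset.prod_mul_distrib,
        Finset.prod_mul_distrib, Finset.prod_const, l1_card (K := K) (M := M) hs,
        l1_prod_perm σ _ (hσS σ) (fun θ => ξ ^ (-e θ)), hpe (fun θ => -e θ), Finset.sum_neg_distrib,
        (hζ.zpow_eq_one_iff_dvd _).mpr ((dvd_neg).2 he1), mul_one]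
      congr 1
      exact l1_prod_perm σ _ (hσS σ) (fun θ => z θ / z' θ)
    have h2 : ξ ^ (-(p.natDegree * e (σ θ))) = (ξ ^ (-e (σ θ))) ^ p.natDegree := by
      rw [← zpow_natCast, ← zpow_mul]
      congr 1
      ring
    rw [map_div₀, map_pow, hc θ hθ, h1, h2, mul_pow, mul_pow, mul_assoc,
      mul_div_mul_left _ _ (pow_ne_zero _ (zpow_ne_zero _ hξ0)), mul_div_assoc]
  have hξv : v ξ = 1 := by
    have h1 : v ξ ^ ℓ = 1 := by rw [← map_pow, hζ.pow_eq_one, map_one]
    exact (pow_eq_one_iff_of_nonneg (v.nonneg _) hℓ0).1 h1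
  have hvx : Sup.Val (ringExpChar K) ϖ (v ((z θ / z' θ) ^ p.natDegree / Qt) ^ N.card) := by
    have h1 : ∏ θ' ∈ N, v ((z θ' / z' θ') ^ p.natDegree / Qt) =
        v ((z θ / z' θ) ^ p.natDegree / Qt) ^ N.card := by
      apply Finset.prod_eq_pow_card
      intro θ' hθ'
      obtain ⟨σ, rfl⟩ := horb θ hθ θ' hθ'
      obtain ⟨e, he, -⟩ := hx σ
      have h2 := congrArg v (he θ hθ)
      rw [hL.inv σ, v.map_mul, map_zpow₀, hξv, one_zpow, one_mul] at h2
      exact h2.symm
    rw [← h1, ← map_prod]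
    apply lf_fixed hL
    · exact Finset.prod_ne_zero_iff.mpr fun θ' hθ' =>
        div_ne_zero (pow_ne_zero _ (hq0 θ' ((hnear _ _).mp hθ').1)) hQt0
    · intro σ
      obtain ⟨e, he, hd⟩ := hx σ
      rw [map_prod, Finset.prod_congr rfl (fun θ' hθ' => he θ' hθ'), Finset.prod_mul_distrib,
        l1_prod_perm σ _ (hσnear r σ) (fun θ => ξ ^ (-(p.natDegree * e θ))),
        l1_prod_perm σ _ (hσnear r σ) (fun θ => (z θ / z' θ) ^ p.natDegree / Qt),
        hpe (fun θ => -(p.natDegree * e θ)), Finset.sum_neg_distrib, ← Finset.mul_sum,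
        (hζ.zpow_eq_one_iff_dvd _).mpr ((dvd_neg).2 (hd.mul_left _)), one_mul]
  have hvz' : ∀ θ, (p.map (algebraMap K M)).eval θ = 0 → v (z' θ) ^ ℓ = v (uval D θ) := by
    intro θ hθ
    rw [← map_pow, (hz' θ hθ).2, map_mul, map_zpow₀, map_pow, AbsoluteValue.map_neg,
      map_one, one_pow, one_zpow, one_mul]
  have huv : ∀ r' : F, Sup.Val (ringExpChar K) (ϖ ^ ℓ)
      (∏ θ ∈ nearL v lm (p.map (algebraMap K M)) r', v (uval D θ)) := fun r' =>
    lf_uval_prod hL hℓ hp hs hlam hlv hroots D hDfix r'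
  -- all the roots
  have hgroup : ∏ θ ∈ (p.map (algebraMap K M)).roots.toFinset, v (uval D θ) =
      ∏ r' ∈ (p.map (algebraMap K M)).roots.toFinset.image res,
        ∏ θ ∈ nearL v lm (p.map (algebraMap K M)) r', v (uval D θ) := by
    rw [← Finset.prod_fiberwise_of_maps_to (t := (p.map (algebraMap K M)).roots.toFinset.image res) (g := res)
      (fun θ hθ => Finset.mem_image_of_mem res hθ) (fun θ => v (uval D θ))]
    exact Finset.prod_congr rfl fun r' _ => Finset.prod_congr (hfilt r') fun _ _ => rfl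
  have hZt : Sup.Val (ringExpChar K) ϖ (v (∏ θ ∈ (p.map (algebraMap K M)).roots.toFinset, z θ)) := by
    apply lf_fixed hL
    · exact Finset.prod_ne_zero_iff.mpr fun θ hθ => hz θ ((hrts θ).1 hθ)
    · intro σ
      obtain ⟨n, e, -, hnz, hdvd, -⟩ := hQ σ
      rw [map_prod, Finset.prod_congr rfl (fun θ hθ => hnz θ ((hrts θ).1 hθ)), Finset.prod_mul_distrib,
        l1_prod_perm σ _ (hσS σ) (fun θ => ξ ^ n θ), l1_prod_perm σ _ (hσS σ) z]
      have h1 : ∏ θ ∈ (p.map (algebraMap K M)).roots.toFinset, ξ ^ n θ = 1 := by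
        rw [hpe]
        exact (hζ.zpow_eq_one_iff_dvd _).mpr hdvd
      rw [h1, one_mul]
  have hQv : Sup.Val (ringExpChar K) (ϖ ^ ℓ) (v Qt ^ ℓ) := by
    have h1 : v Qt ^ ℓ = (v (∏ θ ∈ (p.map (algebraMap K M)).roots.toFinset, z θ)) ^ ℓ *
        (∏ r' ∈ (p.map (algebraMap K M)).roots.toFinset.image res,
          ∏ θ ∈ nearL v lm (p.map (algebraMap K M)) r', v (uval D θ))⁻¹ := by
      rw [← hgroup, hQt, Finset.prod_div_distrib, map_div₀, div_pow, div_eq_mul_inv]
      congr 2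
      rw [map_prod, ← Finset.prod_pow]
      exact Finset.prod_congr rfl fun θ hθ => hvz' θ ((hrts θ).1 hθ)
    rw [h1]
    exact (Sup.Val.pow_self ℓ hZt).mul (Sup.Val.prod _ _ fun r' _ => huv r').inv
  have hθ0 := ((hnear _ _).mp hθ).1
  have hUθ : Sup.Val (ringExpChar K) (ϖ ^ ℓ) (v (uval D θ) ^ N.card) := by
    have h1 : ∏ θ' ∈ N, v (uval D θ') = v (uval D θ) ^ N.card := by
      apply Finset.prod_eq_pow_card
      intro θ' hθ'
      obtain ⟨σ, rfl⟩ := horb θ hθ θ' hθ'
      have h2 : σ (uval D θ) = uval D (σ θ) := sym_uval (gs p σ) D (hDfix σ) θ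
      rw [← h2, hL.inv σ]
    rw [← h1]
    exact huv r
  have hQ0 : v Qt ≠ 0 := (v.ne_zero_iff).2 hQt0
  have hz'0 : v (z' θ) ≠ 0 := (v.ne_zero_iff).2 (hz' θ hθ0).1
  have hmain : v (z θ) ^ (ℓ * N.card * p.natDegree) =
      (v ((z θ / z' θ) ^ p.natDegree / Qt) ^ N.card) ^ ℓ *
        ((v (uval D θ) ^ N.card) ^ p.natDegree * (v Qt ^ ℓ) ^ N.card) := by
    rw [← hvz' θ hθ0, map_div₀, map_pow, map_div₀]
    have e1 : ((v (z θ) / v (z' θ)) ^ p.natDegree / v Qt) ^ N.card =
        v (z θ) ^ (p.natDegree * N.card) / (v (z' θ) ^ (p.natDegree * N.card) * v Qt ^ N.card) := by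
      rw [div_pow, div_pow, div_pow, ← pow_mul, ← pow_mul, div_div]
    have e2 : ((v (z' θ) ^ ℓ) ^ N.card) ^ p.natDegree * (v Qt ^ ℓ) ^ N.card =
        (v (z' θ) ^ (p.natDegree * N.card) * v Qt ^ N.card) ^ ℓ := by
      ring
    rw [e1, e2, ← mul_pow, div_mul_cancel₀ _ (mul_ne_zero (pow_ne_zero _ hz'0) (pow_ne_zero _ hQ0)), ← pow_mul]
    congr 1
    ring
  rw [hmain]
  exact (Sup.Val.pow_self ℓ hvx).mul ((hUθ.pow _).mul (hQv.pow _))

end

end Pool.Agent.Lib.MP_89bcae_ag.Zp
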