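import Mathlib
import Pool.Agent.Lib.MP_89bcae_ag.Z.L3
import Pool.Agent.Lib.MP_89bcae_ag.Zp.L1

/-!
# From the local form to the divisibility of the values
-/

attribute [local instance 100000] Pool.Agent.Lib.MP_89bcae_ag.Brt.tffFields
attribute [local instance 100000] Pool.Agent.Lib.MP_89bcae_ag.Wt.ifrNF Pool.Agent.Lib.MP_89bcae_ag.Wt.iddNF

open Polynomial IsDedekindDomain

open scoped Classical

namespace Pool.Agent.Lib.MP_89bcae_ag.Zp

open Pool.Agent.Lib.MP_89bcae_ag.Wt Pool.Agent.Lib.MP_89bcae_ag.Wt.Lns Pool.Agent.Lib.MP_89bcae_ag.Bra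
  Pool.Agent.Lib.MP_89bcae_ag.Brt Pool.Agent.Lib.MP_89bcae_ag.Zc

open Pool.Agent.Lib.MP_89bcae_ag.Zs (nearL KumD l3_restrict l3_roots)

section

variable {F L Ω K M : Type} [Field F] [IsAlgClosed F] [Field L] [Algebra F[X] L] [Field Ω] [Algebra L Ω]
  [IsAlgClosure L Ω] [Field K] [Field M] [Algebra K M] [IsAlgClosure K M] {ℓ : ℕ} {f : L[X]}
  [hG : IsGood ℓ (f.map (algebraMap L Ω))]

/-- The values of the functions `z`. -/
theorem l3_val (hℓ : ℓ.Prime) (hℓF : (ℓ : F) ≠ 0) (hfm : f.Monic) (hsep : f.Separable) {ζ : L}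
    (hζ : IsPrimitiveRoot ζ ℓ) {z : Ω → Ω} {c : (Ω ≃ₐ[L] Ω) → JacOver ℓ f Ω} (hz : KumD ζ z c)
    [Algebra F[X] K] [Algebra F M] {s : F} {v : AbsoluteValue M ℝ} (hL : LocF F K s v) (i : L →+* K) (j : Ω →+* M)
    (hij : ∀ z, j (algebraMap L Ω z) = algebraMap K M (i z)) {a : L}
    [hG' : IsGood ℓ ((f.map i).map (algebraMap K M))] (hc : LTe ℓ F f i j v a c) (ha : a ≠ 0)
    (hav : ∃ n : ℤ, v (algebraMap K M (i a)) =
      v (algebraMap K M (algebraMap F[X] K X) - algebraMap F M s) ^ ((ℓ : ℤ) * n))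
    (hroots : ∀ θ, ((f.map i).map (algebraMap K M)).eval θ = 0 → v θ ≤ v (algebraMap K M (i a)))
    {r : F}
    (horb : ∀ θ ∈ nearL v (algebraMap K M (i a)) ((f.map i).map (algebraMap K M)) r,
      ∀ θ' ∈ nearL v (algebraMap K M (i a)) ((f.map i).map (algebraMap K M)) r, ∃ σ : M ≃ₐ[K] M, σ θ = θ')
    {θ₀ : Ω} (hθ₀ : (f.map (algebraMap L Ω)).eval θ₀ = 0)
    (hr : v (j θ₀ / algebraMap K M (i a) - algebraMap F M r) < 1) :
    Sup.Val (ringExpChar K) (v (algebraMap K M (algebraMap F[X] K X) - algebraMap F M s) ^ ℓ)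
      (v (j (z θ₀)) ^ (ℓ * (nearL v (algebraMap K M (i a)) ((f.map i).map (algebraMap K M)) r).card *
        f.natDegree)) := by
  have hM : IsAlgClosed M := IsAlgClosure.isAlgClosed K
  have hpol : (f.map i).map (algebraMap K M) = (f.map (algebraMap L Ω)).map j := l3_roots i j hij
  have hinj : Function.Injective j := j.injective
  have hf0 : f.map (algebraMap L Ω) ≠ 0 := (hfm.map _).ne_zero
  have hev : ∀ θ : Ω, ((f.map i).map (algebraMap K M)).eval (j θ) = j ((f.map (algebraMap L Ω)).eval θ) := by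
    intro θ
    rw [hpol, eval_map, eval₂_hom]
  have hroot : ∀ θ' : M, ((f.map i).map (algebraMap K M)).eval θ' = 0 →
      ∃ θ : Ω, j θ = θ' ∧ (f.map (algebraMap L Ω)).eval θ = 0 := by
    intro θ' hθ'
    have hΩ : IsAlgClosed Ω := IsAlgClosure.isAlgClosed L
    have h1 : θ' ∈ ((f.map (algebraMap L Ω)).map j).roots := by
      rw [← hpol, mem_roots (by rw [hpol]; exact ((hfm.map _).map _).ne_zero)]
      exact hθ'
    rw [(IsAlgClosed.splits (f.map (algebraMap L Ω))).roots_map j, Multiset.mem_map] at h1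
    obtain ⟨θ, h2, h3⟩ := h1
    exact ⟨θ, h3, (mem_roots hf0).1 h2⟩
  -- functions on `M`
  let zM : M → M := fun y => if h : ∃ θ, j θ = y then j (z h.choose) else 1
  have hzM : ∀ θ, zM (j θ) = j (z θ) := by
    intro θ
    have h : ∃ θ', j θ' = j θ := ⟨θ, rfl⟩
    show (if h : ∃ θ', j θ' = j θ then j (z h.choose) else 1) = _
    rw [dif_pos h, hinj h.choose_spec]
  obtain ⟨Q, hQ⟩ := hc
  have key := lf_z (F := F) (K := K) (M := M) (p := f.map i) (lam := i a) hL hℓ hℓF (hfm.map i) (hsep.map)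
    ((map_ne_zero i).2 ha) hav hroots (ζ := i ζ) (hζ.map_of_injective ((algebraMap K M).comp i).injective)
    (z := zM) (fun θ' hθ' => by
      obtain ⟨θ, rfl, h2⟩ := hroot θ' hθ'
      rw [hzM]
      exact (map_ne_zero j).2 (hz.1 θ h2))
    Q (r := r) (fun g => by
      obtain ⟨g', hg'⟩ := l3_restrict i j hij g
      obtain ⟨n, hn1, hn2, hn3⟩ := hz.2 g'
      let nM : M → ℤ := fun y => if h : ∃ θ, j θ = y then n h.choose else 0
      have hnM : ∀ θ, nM (j θ) = n θ := by
        intro θ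
        have h : ∃ θ', j θ' = j θ := ⟨θ, rfl⟩
        show (if h : ∃ θ', j θ' = j θ then n h.choose else 0) = _
        rw [dif_pos h, hinj h.choose_spec]
      obtain ⟨e, he, he1⟩ := hQ g g' hg' hpol.symm
      refine ⟨nM, e, ?_, ?_, ?_, he1⟩
      · rw [← he, hn2]
        congr 1
        exact (jacMap_rm _ _ n nM fun θ _ => hnM θ).symm
      · intro θ' hθ'
        obtain ⟨θ, rfl, h2⟩ := hroot θ' hθ'
        rw [hzM, ← hg', ← hg', hzM, hnM, hn1 θ h2, map_mul, map_zpow₀, hij]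
      · have h1 : ((f.map i).map (algebraMap K M)).roots.toFinset =
            (f.map (algebraMap L Ω)).roots.toFinset.image j := by
          rw [hpol]
          have hΩ : IsAlgClosed Ω := IsAlgClosure.isAlgClosed L
          rw [(IsAlgClosed.splits (f.map (algebraMap L Ω))).roots_map j]
          exact Multiset.toFinset_map _ _
        rw [h1, Finset.sum_image fun x _ y _ h => hinj h]
        simp only [hnM]
        exact hn3)
    horb (θ := j θ₀) (by
      unfold nearL
      rw [Finset.mem_filter, Multiset.mem_toFinset, mem_roots ((hfm.map _).map _).ne_zero]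
      exact ⟨by rw [IsRoot.def, hev, hθ₀, map_zero], hr⟩)
  rw [hzM, natDegree_map] at key
  exact key

end

end Pool.Agent.Lib.MP_89bcae_ag.Zp
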