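import Mathlib
import Pool.Agent.Lib.MP_89bcae_ag.Zc.Orb
import Pool.Agent.Lib.MP_89bcae_ag.Zp.Defs

/-!
# The roots near a smooth point of the curve
-/

open Polynomial IsDedekindDomain IsLocalRing

open scoped Classical Polynomial.Bivariate

namespace Pool.Agent.Lib.MP_89bcae_ag.Zp

open Pool.Agent.Lib.MP_89bcae_ag.Wt Pool.Agent.Lib.MP_89bcae_ag.Wt.Lns Pool.Agent.Lib.MP_89bcae_ag.Bra
  Pool.Agent.Lib.MP_89bcae_ag.Brt Pool.Agent.Lib.MP_89bcae_ag.Zc

section

variable {F K E : Type} [Field F] [IsAlgClosed F] [Field K] [Algebra F[X] K] [Field E]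
  [Algebra K E] [Algebra F E] [IsAlgClosure K E] {s : F} {v : AbsoluteValue E ℝ}
  {φ : F[X][Y]} {p : E[X]} {res : E → F} {θ : E}

/-- The two kinds of smooth points. -/
theorem card_or_val (hL : LocF F K s v) (hφ : φ.Monic) (hp : p = φ.map (io F K E))
    (hsep : p.Separable) (hres : ∀ θ, p.eval θ = 0 → v (θ - algebraMap F E (res θ)) < 1) (hθ : p.eval θ = 0)
    (hsm : IsSmoothAt φ s (res θ)) :
    (rtsOver p res (res θ)).card = 1 ∨
      v (θ - algebraMap F E (res θ)) ^ (rtsOver p res (res θ)).card =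
        v (algebraMap K E (algebraMap F[X] K X) - algebraMap F E s) := by
  rw [card_rtsOver hL hφ hp hsep hres]
  have h2 : (φ.map (evalRingHom s)).eval (res θ) = 0 := by
    have h3 := evalEval_res hL hp hθ (hres θ hθ)
    have h6 : (φ.map (evalRingHom s)).eval (res θ) = φ.evalEval s (res θ) := map_evalRingHom_eval s (res θ) φ
    rw [h6, h3]
  rcases hsm h2 with h1 | h1
  · left
    have hs0 : φ.map (evalRingHom s) ≠ 0 := (hφ.map _).ne_zero
    have h4 : 0 < (φ.map (evalRingHom s)).rootMultiplicity (res θ) := (rootMultiplicity_pos hs0).2 h2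
    have h5 : ¬ 1 < (φ.map (evalRingHom s)).rootMultiplicity (res θ) := by
      intro h6
      have h7 := (one_lt_rootMultiplicity_iff_isRoot hs0).1 h6
      exact h1 h7.2
    omega
  · right
    exact val_pow hL hφ hp hθ (hres θ hθ) h1

/-- The roots near a smooth point are conjugate. -/
theorem orbit (hL : LocF F K s v) (hφ : φ.Monic) (hp : p = φ.map (io F K E))
    (hsep : p.Separable) (hres : ∀ θ, p.eval θ = 0 → v (θ - algebraMap F E (res θ)) < 1) (hθ : p.eval θ = 0)
    (hsm : IsSmoothAt φ s (res θ)) {θ' : E} (hθ' : p.eval θ' = 0) (h : res θ' = res θ) :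
    ∃ σ : E ≃ₐ[K] E, σ θ = θ' :=
  orbit_of_val (p₀ := φ.map (algebraMap F[X] K)) hL (by rw [hp, Polynomial.map_map]; rfl) hsep hres hθ
    (card_or_val hL hφ hp hsep hres hθ hsm) hθ' h

end

end Pool.Agent.Lib.MP_89bcae_ag.Zp
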