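import Mathlib
import Pool.Agent.Lib.MP_89bcae_ag.Z.L4
import Pool.Agent.Lib.MP_89bcae_ag.Zp.L3
import Pool.Agent.Lib.MP_89bcae_ag.Zp.Orb

/-!
# The values of the elements attached to the cochains with a local form
-/

attribute [local instance 100000] Pool.Agent.Lib.MP_89bcae_ag.Brt.tffFields
attribute [local instance 100000] Pool.Agent.Lib.MP_89bcae_ag.Wt.ifrNF Pool.Agent.Lib.MP_89bcae_ag.Wt.iddNF

open Polynomial IsDedekindDomain

open scoped Classical

namespace Pool.Agent.Lib.MP_89bcae_ag.Zp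

open Pool.Agent.Lib.MP_89bcae_ag.Wt Pool.Agent.Lib.MP_89bcae_ag.Wt.Lns Pool.Agent.Lib.MP_89bcae_ag.Bra
  Pool.Agent.Lib.MP_89bcae_ag.Brt Pool.Agent.Lib.MP_89bcae_ag.Zc

open Pool.Agent.Lib.MP_89bcae_ag.Zs (nearL KumD l3_restrict l3_roots mem_range_of_fixed)

section

variable {F L Ω K M E : Type} [Field F] [IsAlgClosed F] [Field L] [Algebra F[X] L] [Field Ω] [Algebra L Ω]
  [IsAlgClosure L Ω] [Field K] [Field M] [Algebra K M] [IsAlgClosure K M] [Field E] [Algebra L E] [Algebra E Ω]
  [IsScalarTower L E Ω] {ℓ : ℕ} {f : L[X]}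
  [hG : IsGood ℓ (f.map (algebraMap L Ω))]

/-- The values of the elements of `E`, in a chart. -/
theorem l4_chart (hℓ : ℓ.Prime) (hℓF : (ℓ : F) ≠ 0) (hfm : f.Monic) (hcop : f.natDegree.Coprime ℓ)
    (hsep : f.Separable) {ζ : L}
    (hζ : IsPrimitiveRoot ζ ℓ) {z : Ω → Ω} {c : (Ω ≃ₐ[L] Ω) → JacOver ℓ f Ω} (hz : KumD ζ z c)
    (ψ : F[X] →+* L) (hψ : ∀ a : F, ψ (C a) = algebraMap F[X] L (C a)) {φ : F[X][X]} (hφ : φ.Monic)
    {a : L} (ha : a ≠ 0) (hfa : f.comp (C a * X) = C (a ^ f.natDegree) * φ.map ψ) {s : F}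
    (i : L →+* K) (j : Ω →+* M) (hij : ∀ z, j (algebraMap L Ω z) = algebraMap K M (i z)) {v : AbsoluteValue M ℝ}
    (hL : ∀ [Algebra F[X] K] [Algebra F M], (∀ p, algebraMap F[X] K p = i (ψ p)) →
      (∀ a : F, algebraMap F M a = algebraMap K M (i (algebraMap F[X] L (C a)))) → LocF F K s v)
    (hav : ∃ n : ℤ, v (algebraMap K M (i a)) =
      v (algebraMap K M (i (ψ (X - C s)))) ^ ((ℓ : ℤ) * n))
    (hc : ∀ [Algebra F[X] K] [Algebra F M] [IsGood ℓ ((f.map i).map (algebraMap K M))],
      (∀ p, algebraMap F[X] K p = i (ψ p)) → (∀ a : F, algebraMap F M a = algebraMap K M (i (algebraMap F[X] L (C a)))) →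
      LocF F K s v → LTe ℓ F f i j v a c) {x u : E} (hx : (f.map (algebraMap L Ω)).eval (algebraMap E Ω x) = 0)
    (hE : ∀ e : E, algebraMap E Ω e ∈ IntermediateField.adjoin L {algebraMap E Ω x}) (hu0 : u ≠ 0)
    (hu : z (algebraMap E Ω x) ^ ℓ = algebraMap E Ω u) {r : F}
    (hr : v (j (algebraMap E Ω x) / algebraMap K M (i a) - algebraMap K M (i (algebraMap F[X] L (C r)))) < 1)
    (hsm : IsSmoothAt φ s r) :
    ∃ w : E, w ≠ 0 ∧ v (j (algebraMap E Ω u)) = v (j (algebraMap E Ω w)) ^ ℓ := by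
  have hMc : IsAlgClosed M := IsAlgClosure.isAlgClosed K
  let _ : Algebra F[X] K := (i.comp ψ).toAlgebra
  let _ : Algebra F M := ((algebraMap K M).comp ((i.comp (algebraMap F[X] L)).comp Polynomial.C)).toAlgebra
  have hLL : LocF F K s v := hL (fun p => rfl) (fun a => rfl)
  have hFM : ∀ c : F, algebraMap F M c = algebraMap K M (i (algebraMap F[X] L (C c))) := fun _ => rfl
  have hϖ : algebraMap K M (algebraMap F[X] K X) - algebraMap F M s = algebraMap K M (i (ψ (X - C s))) := by
    rw [map_sub, map_sub, map_sub, hψ]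
    rfl
  have hϖ0 : 0 < v (algebraMap K M (algebraMap F[X] K X) - algebraMap F M s) :=
    v.pos (sub_ne_zero.2 hLL.ctx.ne)
  have hϖ1 := hLL.ctx.lt_one
  obtain ⟨A, hA⟩ : ∃ A : M, A = algebraMap K M (i a) := ⟨_, rfl⟩
  have hA0 : A ≠ 0 := by
    rw [hA]
    exact (_root_.map_ne_zero _).2 ((_root_.map_ne_zero i).2 ha)
  obtain ⟨p', hp'⟩ : ∃ p' : M[X], p' = φ.map (io F K M) := ⟨_, rfl⟩
  obtain ⟨q, hq⟩ : ∃ q : M[X], q = (f.map i).map (algebraMap K M) := ⟨_, rfl⟩
  have hqm : q.Monic := by
    rw [hq]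
    exact (hfm.map _).map _
  have hqs : q.Separable := by
    rw [hq]
    exact hsep.map.map
  have hqp : q.comp (C A * X) = C (A ^ f.natDegree) * p' := by
    have h1 := congrArg (fun g : L[X] => (g.map i).map (algebraMap K M)) hfa
    simp only [Polynomial.map_comp, Polynomial.map_mul, map_C, map_X, map_pow] at h1
    rw [hq, hA, hp', h1, Polynomial.map_pow, Polynomial.map_pow, map_C, map_C, map_pow,
      Polynomial.map_map, Polynomial.map_map]
    rfl
  have hev : ∀ y : M, q.eval (A * y) = A ^ f.natDegree * p'.eval y := by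
    intro y
    have h1 := congrArg (eval y) hqp
    rw [eval_comp, eval_mul, eval_mul, eval_C, eval_X, eval_C] at h1
    exact h1
  have hrt : ∀ θ : M, q.eval θ = 0 ↔ p'.eval (θ / A) = 0 := by
    intro θ
    have h1 := hev (θ / A)
    rw [mul_div_cancel₀ _ hA0] at h1
    rw [h1, mul_eq_zero, or_iff_right (pow_ne_zero _ hA0)]
  have hp's : p'.Separable := by
    refine Separable.of_mul_right (f := C (A ^ f.natDegree)) ?_
    rw [← hqp]
    exact separable_comp_scale hqs hA0
  have hp'm : p'.Monic := by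
    rw [hp']
    exact hφ.map _
  have hle : ∀ θ, p'.eval θ = 0 → v θ ≤ 1 := by
    intro θ hθ
    rw [hp'] at hθ
    refine root_le hLL.ctx.nonarch (hφ.map _) (fun n => ?_) hθ
    rw [coeff_map]
    have h1 := io_sub (K := K) (E := M) hLL (φ.coeff n)
    have h2 := hLL.ctx.nonarch (io F K M (φ.coeff n) - algebraMap F M ((φ.coeff n).eval s))
      (algebraMap F M ((φ.coeff n).eval s))
    rw [sub_add_cancel] at h2
    refine h2.trans (max_le h1.le ?_)
    by_cases h3 : (φ.coeff n).eval s = 0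
    · rw [h3, map_zero, map_zero]
      exact zero_le_one
    · exact (hLL.ctx.const _ h3).le
  obtain ⟨res, hres'⟩ : ∃ res : M → F, ∀ θ, v θ ≤ 1 → v (θ - algebraMap F M (res θ)) < 1 := by
    refine ⟨fun θ => if h : v θ ≤ 1 then (hLL.ctx.residue θ h).choose else 0, fun θ h1 => ?_⟩
    show v (θ - algebraMap F M (if h : v θ ≤ 1 then (hLL.ctx.residue θ h).choose else 0)) < 1
    rw [dif_pos h1]
    exact (hLL.ctx.residue θ h1).choose_spec
  have hres : ∀ θ, p'.eval θ = 0 → v (θ - algebraMap F M (res θ)) < 1 := fun θ hθ => hres' θ (hle θ hθ)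
  -- the two sets of roots
  have hnear : ∀ (r : F) (θ : M), θ ∈ nearL v A q r ↔ θ / A ∈ rtsOver p' res r := by
    intro r θ
    unfold nearL rtsOver
    rw [Finset.mem_filter, Finset.mem_filter, Multiset.mem_toFinset, Multiset.mem_toFinset,
      mem_roots hqm.ne_zero, mem_roots hp'm.ne_zero, IsRoot.def, IsRoot.def, hrt]
    refine and_congr_right fun h => ?_
    constructor
    · intro h1
      exact hLL.ctx.residue_unique (hres _ h) h1
    · rintro rfl
      exact hres _ h
  have hcard : ∀ r : F, (nearL v A q r).card = (rtsOver p' res r).card := by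
    intro r
    refine Finset.card_bij (fun θ _ => θ / A) (fun θ h => (hnear r θ).1 h) (fun θ _ θ' _ h => ?_) fun y hy => ?_
    · exact (div_left_inj' hA0).1 h
    · refine ⟨y * A, ?_, mul_div_cancel_right₀ _ hA0⟩
      rw [hnear, mul_div_cancel_right₀ _ hA0]
      exact hy
  have horb : ∀ θ ∈ nearL v A q r, ∀ θ' ∈ nearL v A q r, ∃ σ : M ≃ₐ[K] M, σ θ = θ' := by
    intro θ hθ θ' hθ'
    have h1 := (hnear r θ).1 hθ
    have h2 := (hnear r θ').1 hθ'
    unfold rtsOver at h1 h2
    rw [Finset.mem_filter, Multiset.mem_toFinset, mem_roots hp'm.ne_zero, IsRoot.def] at h1 h2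
    obtain ⟨σ, hσ⟩ := orbit hLL hφ hp' hp's hres h1.1 (by rw [h1.2]; exact hsm) h2.1 (h2.2.trans h1.2.symm)
    refine ⟨σ, ?_⟩
    rw [map_div₀, hA, σ.commutes, ← hA] at hσ
    exact (div_left_inj' hA0).1 hσ
  have hroots : ∀ θ, q.eval θ = 0 → v θ ≤ v A := by
    intro θ hθ
    have h1 := hle _ ((hrt θ).1 hθ)
    rw [map_div₀] at h1
    exact (div_le_one (v.pos hA0)).1 h1
  have hpol : q = (f.map (algebraMap L Ω)).map j := hq.trans (l3_roots i j hij)
  -- the root
  obtain ⟨ξ, hξ⟩ : ∃ ξ : M, ξ = j (algebraMap E Ω x) / A := ⟨_, rfl⟩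
  have hξ0 : p'.eval ξ = 0 := by
    rw [hξ, ← hrt, hpol, eval_map, eval₂_hom, hx, map_zero]
  have hGM : IsGood ℓ ((f.map i).map (algebraMap K M)) := by
    rw [l3_roots i j hij]
    exact isGood_map j (f.map (algebraMap L Ω))
  have hξr : v (ξ - algebraMap F M r) < 1 := by
    rw [hξ, hA, hFM]
    exact hr
  have hrr : res ξ = r := hLL.ctx.residue_unique (hres ξ hξ0) hξr
  have key := l3_val (F := F) (K := K) (M := M) hℓ hℓF hfm hsep hζ hz hLL i j hij
    (hc (fun p => rfl) (fun a => rfl) hLL) ha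
    (by rw [hϖ]; exact hav) (by rw [← hq, ← hA]; exact hroots) (by rw [← hq, ← hA]; exact horb) hx
    (by rw [← hA, ← hξ]; exact hξr)
  rw [← hA, ← hq, hcard, ← hrr] at key
  have hzu : v (j (z (algebraMap E Ω x))) ^ ℓ = v (j (algebraMap E Ω u)) := by
    rw [← map_pow, ← map_pow, hu]
  rw [mul_assoc, pow_mul, hzu] at key
  have hcopq : (ringExpChar K).Coprime ℓ := by
    have hK : (ℓ : K) ≠ 0 := by
      intro h0
      apply hℓF
      have h1 : ((algebraMap F[X] K).comp C) (ℓ : F) = 0 := by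
        rw [map_natCast]
        exact h0
      exact (map_eq_zero_iff _ (RingHom.injective _)).1 h1
    have h1 := ringExpChar.expChar K
    generalize ringExpChar K = q at h1 ⊢
    rcases h1 with _ | hq
    · exact Nat.coprime_one_left ℓ
    · rw [Nat.coprime_primes hq hℓ]
      rintro rfl
      exact hK (CharP.cast_eq_zero K _)
  -- the conclusion from a uniformizer
  have hfin : ∀ π : E, π ≠ 0 → v (j (algebraMap E Ω π)) ^ (rtsOver p' res (res ξ)).card =
      v (algebraMap K M (algebraMap F[X] K X) - algebraMap F M s) →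
      (∃ m : ℤ, v (j (algebraMap E Ω u)) = v (j (algebraMap E Ω π)) ^ m) →
      ∃ w : E, w ≠ 0 ∧ v (j (algebraMap E Ω u)) = v (j (algebraMap E Ω w)) ^ ℓ := by
    rintro π hπ0 hπ ⟨m, hm⟩
    have h1 : v (j (algebraMap E Ω u)) ^ ((rtsOver p' res (res ξ)).card * f.natDegree) =
        v (algebraMap K M (algebraMap F[X] K X) - algebraMap F M s) ^ (m * f.natDegree) := by
      rw [hm, ← hπ, ← zpow_natCast, ← zpow_natCast, ← zpow_mul, ← zpow_mul]
      congr 1
      push_cast
      ring
    rw [h1] at key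
    have h2 := Sup.Val.dvd_of_zpow hcopq hϖ0 hϖ1 _ key
    have h3 : IsCoprime (ℓ : ℤ) (f.natDegree : ℤ) := Nat.isCoprime_iff_coprime.2 hcop.symm
    obtain ⟨m', hm'⟩ := h3.dvd_of_dvd_mul_right h2
    refine ⟨π ^ m', zpow_ne_zero _ hπ0, ?_⟩
    rw [hm, hm', map_zpow₀, map_zpow₀, map_zpow₀, ← zpow_natCast, ← zpow_mul, mul_comm]
  -- elements of `E`
  have hmem : ∀ e : E, j (algebraMap E Ω e) ∈ IntermediateField.adjoin K {ξ} := by
    intro e
    have h1 := hE e
    let _ : Algebra L M := ((algebraMap K M).comp i).toAlgebra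
    let j' : Ω →ₐ[L] M := { toRingHom := j, commutes' := fun z => hij z }
    have h2 : j' (algebraMap E Ω e) ∈ (IntermediateField.adjoin L {algebraMap E Ω x}).map j' :=
      ⟨_, h1, rfl⟩
    rw [IntermediateField.adjoin_map, Set.image_singleton] at h2
    have h4 : ∀ y : M, y ∈ IntermediateField.adjoin L {j' (algebraMap E Ω x)} →
        y ∈ IntermediateField.adjoin K {ξ} := by
      intro y hy
      induction hy using IntermediateField.adjoin_induction with
      | mem y hy =>
        rw [Set.mem_singleton_iff] at hy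
        have h5 : y = ξ * algebraMap K M (i a) := by
          rw [hy, hξ, ← hA, div_mul_cancel₀ _ hA0]
          rfl
        rw [h5]
        exact mul_mem (IntermediateField.subset_adjoin K _ (Set.mem_singleton _))
          (IntermediateField.algebraMap_mem _ _)
      | algebraMap b => exact IntermediateField.algebraMap_mem (IntermediateField.adjoin K {ξ}) (i b)
      | add y y' _ _ h h' => exact add_mem h h'
      | inv y _ h => exact inv_mem h
      | mul y y' _ _ h h' => exact mul_mem h h'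
    exact h4 _ h2
  have hju0 : j (algebraMap E Ω u) ≠ 0 := (_root_.map_ne_zero j).2 ((_root_.map_ne_zero _).2 hu0)
  rcases card_or_val hLL hφ hp' hp's hres hξ0 (by rw [hrr]; exact hsm) with h1 | h1
  · -- the root is in `K`
    have hfix : ∀ σ : M ≃ₐ[K] M, σ ξ = ξ := by
      intro σ
      have h2 : ξ ∈ rtsOver p' res (res ξ) := by
        unfold rtsOver
        rw [Finset.mem_filter, Multiset.mem_toFinset, mem_roots hp'm.ne_zero]
        exact ⟨hξ0, rfl⟩
      have h3 : σ ξ ∈ rtsOver p' res (res ξ) := by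
        unfold rtsOver
        rw [Finset.mem_filter, Multiset.mem_toFinset, mem_roots hp'm.ne_zero, IsRoot.def]
        have h4 : p'.eval (σ ξ) = 0 := by
          have h5 : p'.map ((σ : M ≃+* M) : M →+* M) = p' := by
            rw [hp', Polynomial.map_map]
            congr 1
            exact RingHom.ext fun y => σ.commutes _
          have h6 : eval (((σ : M ≃+* M) : M →+* M) ξ) (p'.map ((σ : M ≃+* M) : M →+* M)) =
              ((σ : M ≃+* M) : M →+* M) (eval ξ p') := by
            rw [eval_map, eval₂_hom]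
          rw [h5, hξ0, map_zero] at h6
          exact h6
        refine ⟨h4, ?_⟩
        refine hLL.ctx.residue_unique (hres _ h4) ?_
        have h5 : σ ξ - algebraMap F M (res ξ) = σ (ξ - algebraMap F M (res ξ)) := by
          rw [map_sub, hFM, σ.commutes]
        rw [h5, hLL.inv]
        exact hres ξ hξ0
      obtain ⟨y, hy⟩ := Finset.card_eq_one.1 h1
      rw [hy, Finset.mem_singleton] at h2 h3
      rw [h3, h2]
    have hrange : ξ ∈ (algebraMap K M).range :=
      mem_range_of_fixed hfix (p := φ.map (algebraMap F[X] K)) (by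
        have h2 : (φ.map (algebraMap F[X] K)).map (algebraMap K M) = p' := by
          rw [hp', Polynomial.map_map]
          rfl
        rw [← Polynomial.separable_map (algebraMap K M), h2]
        exact hp's) (by rw [Polynomial.map_map]; rw [hp'] at hξ0; exact hξ0)
    have hbot : IntermediateField.adjoin K {ξ} = ⊥ := by
      rw [IntermediateField.adjoin_simple_eq_bot_iff, IntermediateField.mem_bot]
      exact hrange
    refine hfin (algebraMap L E (ψ (X - C s))) ?_ ?_ ?_
    · intro h0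
      have h2 : v (algebraMap K M (algebraMap F[X] K X) - algebraMap F M s) = 0 := by
        have h3 : ψ (X - C s) = 0 := (map_eq_zero _).1 h0
        rw [hϖ, h3, map_zero, map_zero, map_zero]
      exact hϖ0.ne' h2
    · rw [h1, pow_one, ← IsScalarTower.algebraMap_apply L E Ω, hij, hϖ]
    · have h2 := hmem u
      rw [hbot, IntermediateField.mem_bot] at h2
      obtain ⟨y, hy⟩ := h2
      have hy0 : y ≠ 0 := by
        rintro rfl
        rw [map_zero] at hy
        exact hju0 hy.symm
      obtain ⟨m, hm⟩ := hLL.disc y hy0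
      refine ⟨m, ?_⟩
      rw [← hy, hm, ← IsScalarTower.algebraMap_apply L E Ω, hij, hϖ]
  · -- `ξ - r` is a uniformizer
    have hloc := locF_adj (p₀ := φ.map (algebraMap F[X] K)) hLL (by rw [hp', Polynomial.map_map]; rfl) hp's hres hξ0 h1
    have hπM : j (algebraMap E Ω (x / algebraMap L E a - algebraMap L E (algebraMap F[X] L (C (res ξ))))) =
        ξ - algebraMap F M (res ξ) := by
      rw [map_sub, map_sub, map_div₀, map_div₀, ← IsScalarTower.algebraMap_apply L E Ω,
        ← IsScalarTower.algebraMap_apply L E Ω, hij, hij, ← hA, ← hξ]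
      rfl
    refine hfin (x / algebraMap L E a - algebraMap L E (algebraMap F[X] L (C (res ξ)))) ?_ ?_ ?_
    · intro h0
      rw [h0, map_zero, map_zero] at hπM
      have hpos : 0 < (rtsOver p' res (res ξ)).card := by
        apply Finset.card_pos.2
        refine ⟨ξ, ?_⟩
        unfold rtsOver
        rw [Finset.mem_filter, Multiset.mem_toFinset, mem_roots hp'm.ne_zero]
        exact ⟨hξ0, rfl⟩
      rw [← hπM, map_zero, zero_pow hpos.ne'] at h1
      exact hϖ0.ne h1
    · rw [hπM, h1]
    · rw [hπM]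
      have h2 := hmem u
      have h3 : (⟨_, h2⟩ : IntermediateField.adjoin K {ξ}) ≠ 0 := fun h0 => hju0 (congrArg Subtype.val h0)
      obtain ⟨m, hm⟩ := @LocF.disc _ _ _ _ _ _ (algAdj F K ξ) _ _ _ _ hloc _ h3
      refine ⟨m, ?_⟩
      have h4 : ((algebraMap (IntermediateField.adjoin K {ξ}) M) (@algebraMap F[X] (IntermediateField.adjoin K {ξ}) _ _
          (algAdj F K ξ) X)) = ξ := by
        show ((eval₂ _ (IntermediateField.AdjoinSimple.gen K ξ) (X : F[X]) : IntermediateField.adjoin K {ξ}) : M) = ξ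
        rw [eval₂_X]
        exact IntermediateField.AdjoinSimple.coe_gen K ξ
      rw [h4] at hm
      exact hm

end

end Pool.Agent.Lib.MP_89bcae_ag.Zp
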