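import Mathlib
import Pool.Agent.Lib.MP_89bcae_ag.Z.PL
import Pool.Agent.Lib.MP_89bcae_ag.Zp.Good
import Pool.Agent.Lib.MP_89bcae_ag.Zp.Ver
import Pool.Agent.Lib.MP_89bcae_ag.Zp.L4

/-!
# The elements attached to the unramified cocycles are unramified at the smooth points
-/

attribute [local instance 100000] Pool.Agent.Lib.MP_89bcae_ag.Brt.tffFields
attribute [local instance 100000] Pool.Agent.Lib.MP_89bcae_ag.Wt.ifrNF Pool.Agent.Lib.MP_89bcae_ag.Wt.iddNF

open Polynomial IsDedekindDomain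

open scoped Classical

namespace Pool.Agent.Lib.MP_89bcae_ag.Zp

open Pool.Agent.Lib.MP_89bcae_ag.Wt Pool.Agent.Lib.MP_89bcae_ag.Wt.Lns Pool.Agent.Lib.MP_89bcae_ag.Bra
  Pool.Agent.Lib.MP_89bcae_ag.Brt Pool.Agent.Lib.MP_89bcae_ag.Zc

open Pool.Agent.Lib.MP_89bcae_ag.Zs (IsPlace KumD exists_place)

section

variable {k F L Ω E : Type} [Field k] [Field F] [Algebra k F] [IsAlgClosure k F] [Field L] [Algebra F[X] L]
  [IsFractionRing F[X] L] [Field Ω] [Algebra L Ω] [IsAlgClosure L Ω] [Field E] [Algebra L E] [Algebra E Ω]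
  [IsScalarTower L E Ω] {ℓ e : ℕ} {f : k[X][X]}

/-- The values of the elements of `E`, at the finite places. -/
theorem l5_fin (hℓ : ℓ.Prime) (hk : (ℓ : k) ≠ 0) (hB : IsBranchCurve ℓ e F f)
    [hG : IsGood ℓ ((f.map (base k F L L)).map (algebraMap L Ω))] {ζ : F}
    (hζ : IsPrimitiveRoot ζ ℓ) {z : Ω → Ω} {c : (Ω ≃ₐ[L] Ω) → JacOver ℓ (f.map (base k F L L)) Ω}
    (hz : KumD (algebraMap F[X] L (C ζ)) z c) (hc : UB F ℓ (f.map (base k F L L)) c)
    (hz1 : (algebraMap L Ω (algebraMap F[X] L (C ζ))) ^ ℓ = 1)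
    (hcz : ∀ g, zJ (algebraMap L Ω (algebraMap F[X] L (C ζ))) hz1 (c g) = c g)
    {K M : Type} [Field K] [Field M] [Algebra K M] [IsAlgClosure K M]
    (i : L →+* K) (j : Ω →+* M) (hij : ∀ z, j (algebraMap L Ω z) = algebraMap K M (i z)) {v : AbsoluteValue M ℝ}
    (hv : IsPlace F i v) {x u : E}
    (hx : ((f.map (base k F L L)).map (algebraMap L Ω)).eval (algebraMap E Ω x) = 0)
    (hE : ∀ e : E, algebraMap E Ω e ∈ IntermediateField.adjoin L {algebraMap E Ω x}) (hu0 : u ≠ 0)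
    (hu : z (algebraMap E Ω x) ^ ℓ = algebraMap E Ω u) {s r : F}
    (hs : v (algebraMap K M (i (algebraMap F[X] L X)) - algebraMap K M (i (algebraMap F[X] L (C s)))) < 1)
    (hr : v (j (algebraMap E Ω x) - algebraMap K M (i (algebraMap F[X] L (C r)))) < 1)
    (hsm : IsSmoothAt (Zs.ext F f) s r) :
    ∃ w : E, w ≠ 0 ∧ v (j (algebraMap E Ω u)) = v (j (algebraMap E Ω w)) ^ ℓ := by
  have hFa : IsAlgClosed F := IsAlgClosure.isAlgClosed k
  have hF0 : (ℓ : F) ≠ 0 := by
    rw [← map_natCast (algebraMap k F)]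
    exact (_root_.map_ne_zero _).mpr hk
  obtain ⟨hsep, -⟩ := good_of (Ω := Ω) (L := L) hℓ hk hB
  have hmon : (Zs.ext F f).Monic := hB.monic.map _
  have hfm : (f.map (base k F L L)).Monic := hB.monic.map _
  have hdegL : (f.map (base k F L L)).natDegree = f.natDegree := hB.monic.natDegree_map _
  have hcop : (f.map (base k F L L)).natDegree.Coprime ℓ := by
    rw [hdegL]
    exact hB.coprime
  have hzL : IsPrimitiveRoot (algebraMap F[X] L (C ζ)) ℓ :=
    hζ.map_of_injective (f := (algebraMap F[X] L).comp C) (RingHom.injective _)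
  have h : v (algebraMap K M (i (algebraMap F[X] L X))) ≤ 1 := by
    have h1 := hv.nonarch (algebraMap K M (i (algebraMap F[X] L X)) - algebraMap K M (i (algebraMap F[X] L (C s))))
      (algebraMap K M (i (algebraMap F[X] L (C s))))
    rw [sub_add_cancel] at h1
    refine h1.trans (max_le hs.le ?_)
    by_cases h2 : s = 0
    · subst h2
      simp
    · exact (hv.const s h2).le
  obtain ⟨s', hs'⟩ := locF_fin hv h
  have hss : s' = s := by
    let _ : Algebra F[X] K := (i.comp (algebraMap F[X] L)).toAlgebra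
    let _ : Algebra F M := ((algebraMap K M).comp ((i.comp (algebraMap F[X] L)).comp Polynomial.C)).toAlgebra
    have h1 : LocF F K s' v := hs' (fun p => rfl) (fun a => rfl)
    exact h1.ctx.residue_unique h1.ctx.lt_one hs
  subst hss
  obtain ⟨b, D, hb, hbu, hD, hcD⟩ := hc
  have hS : Scale ℓ (f.map (base k F L L)) ((Zs.ext F f).map (algebraMap F[X] L)) 1 1 := by
    refine ⟨one_ne_zero, one_ne_zero, ?_⟩
    rw [one_pow, C_1, one_mul, one_mul, comp_X, map_base_eq]
  refine l4_chart (F := F) hℓ hF0 hfm hcop hsep hzL hz (algebraMap F[X] L) (fun _ => rfl)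
    hmon one_ne_zero ?_ i j hij hs' ⟨0, ?_⟩ ?_ hx hE hu0 hu ?_ hsm
  · rw [one_pow, C_1, one_mul, one_mul, comp_X, map_base_eq]
  · rw [map_one, map_one, map_one, mul_zero, zpow_zero]
  · intro _ _ _ h1 h2 h3
    have h4 := lte_chart (F := F) hℓ hF0 hζ (algebraMap F[X] L) (fun _ => rfl) hmon hS hfm hsep hcop i j hij h1 h2 h3
      b D hb hbu hD hz1 (fun g => by rw [← hcD g]; exact hcz g)
    have h5 : c = fun g => (cl (D g) : Jac ℓ ((f.map (base k F L L)).map (algebraMap L Ω))) := funext hcD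
    rw [h5]
    exact h4
  · rw [map_one, map_one, _root_.div_one]
    exact hr

/-- The values of the elements of `E`, at infinity. -/
theorem l5_inf (hℓ : ℓ.Prime) (hk : (ℓ : k) ≠ 0) (hB : IsBranchCurve ℓ e F f)
    [hG : IsGood ℓ ((f.map (base k F L L)).map (algebraMap L Ω))] {ζ : F}
    (hζ : IsPrimitiveRoot ζ ℓ) {z : Ω → Ω} {c : (Ω ≃ₐ[L] Ω) → JacOver ℓ (f.map (base k F L L)) Ω}
    (hz : KumD (algebraMap F[X] L (C ζ)) z c) (hc : UB F ℓ (f.map (base k F L L)) c)
    (hz1 : (algebraMap L Ω (algebraMap F[X] L (C ζ))) ^ ℓ = 1)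
    (hcz : ∀ g, zJ (algebraMap L Ω (algebraMap F[X] L (C ζ))) hz1 (c g) = c g)
    {K M : Type} [Field K] [Field M] [Algebra K M] [IsAlgClosure K M]
    (i : L →+* K) (j : Ω →+* M) (hij : ∀ z, j (algebraMap L Ω z) = algebraMap K M (i z)) {v : AbsoluteValue M ℝ}
    (hv : IsPlace F i v) {x u : E}
    (hx : ((f.map (base k F L L)).map (algebraMap L Ω)).eval (algebraMap E Ω x) = 0)
    (hE : ∀ e : E, algebraMap E Ω e ∈ IntermediateField.adjoin L {algebraMap E Ω x}) (hu0 : u ≠ 0)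
    (hu : z (algebraMap E Ω x) ^ ℓ = algebraMap E Ω u) {r : F}
    (h : 1 < v (algebraMap K M (i (algebraMap F[X] L X))))
    (hr : v (j (algebraMap E Ω x) / algebraMap K M (i ((algebraMap F[X] L X) ^ e)) -
      algebraMap K M (i (algebraMap F[X] L (C r)))) < 1)
    (hsm : IsSmoothAt (Zs.atInfinity e (Zs.ext F f)) 0 r) :
    ∃ w : E, w ≠ 0 ∧ v (j (algebraMap E Ω u)) = v (j (algebraMap E Ω w)) ^ ℓ := by
  have hFa : IsAlgClosed F := IsAlgClosure.isAlgClosed k
  have hF0 : (ℓ : F) ≠ 0 := by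
    rw [← map_natCast (algebraMap k F)]
    exact (_root_.map_ne_zero _).mpr hk
  obtain ⟨hsep, -⟩ := good_of (Ω := Ω) (L := L) hℓ hk hB
  have hmon : (Zs.ext F f).Monic := hB.monic.map _
  have hdegn : (Zs.ext F f).natDegree = f.natDegree := hB.monic.natDegree_map _
  have hfm : (f.map (base k F L L)).Monic := hB.monic.map _
  have hdegL : (f.map (base k F L L)).natDegree = f.natDegree := hB.monic.natDegree_map _
  have hcop : (f.map (base k F L L)).natDegree.Coprime ℓ := by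
    rw [hdegL]
    exact hB.coprime
  have hzL : IsPrimitiveRoot (algebraMap F[X] L (C ζ)) ℓ :=
    hζ.map_of_injective (f := (algebraMap F[X] L).comp C) (RingHom.injective _)
  obtain ⟨e', he'⟩ := hB.dvd
  have ht : algebraMap F[X] L X ≠ 0 := by
    rw [Ne, IsFractionRing.to_map_eq_zero_iff]
    exact X_ne_zero
  have hdeg : ∀ i, ((Zs.ext F f).coeff i).natDegree ≤ e * ((Zs.ext F f).natDegree - i) := by
    intro i
    rw [hdegn, Zs.ext, coeff_map]
    exact (natDegree_map_le).trans (hB.degree i)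
  have hmon' := atInfinity_monic (e := e) hmon
  have hS : Scale ℓ (f.map (base k F L L)) ((Zs.atInfinity e (Zs.ext F f)).map (invT F L))
      ((algebraMap F[X] L X) ^ e) ((algebraMap F[X] L X) ^ (e' * (Zs.ext F f).natDegree)) := by
    refine ⟨pow_ne_zero _ ht, pow_ne_zero _ ht, ?_⟩
    rw [map_base_eq]
    exact atInfinity_scale he' hdeg ht
  obtain ⟨b, D, hb, hbu, hD, hcD⟩ := hc
  refine l4_chart (F := F) hℓ hF0 hfm hcop hsep hzL hz (invT F L) invT_C hmon'
    (a := (algebraMap F[X] L X) ^ e) (pow_ne_zero _ ht) ?_ (s := 0) i j hij ?_ ⟨-(e' : ℤ), ?_⟩ ?_ hx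
    hE hu0 hu hr hsm
  · have h1 := atInfinity_scale (L := L) he' hdeg ht
    rw [map_base_eq, ← h1]
    congr 2
    rw [← pow_mul, ← pow_mul, ← map_base_eq, hdegL, hdegn, he']
    ring
  · intro _ _ h1 h2
    exact locF_inf hv h (fun a => by rw [h1, invT_C]) (by rw [h1, invT_X]) h2
  · rw [C_0, sub_zero, invT_X, map_inv₀, map_inv₀, map_inv₀, map_pow, map_pow, map_pow, he', inv_zpow', pow_mul,
      ← zpow_natCast, ← zpow_natCast, ← zpow_mul]
    congr 1
    ring
  · intro _ _ _ h1 h2 h3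
    have h4 := lte_chart (F := F) hℓ hF0 hζ (invT F L) invT_C hmon' hS hfm hsep hcop i j hij h1 h2 h3
      b D hb hbu hD hz1 (fun g => by rw [← hcD g]; exact hcz g)
    have h5 : c = fun g => (cl (D g) : Jac ℓ ((f.map (base k F L L)).map (algebraMap L Ω))) := funext hcD
    rw [h5]
    exact h4

/-- The values of the elements attached to the unramified cocycles, at the smooth points. -/
theorem l5_regular (hℓ : ℓ.Prime) (hk : (ℓ : k) ≠ 0) (hB : IsBranchCurve ℓ e F f)
    [hG : IsGood ℓ ((f.map (base k F L L)).map (algebraMap L Ω))] {ζ : F}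
    (hζ : IsPrimitiveRoot ζ ℓ) {z : Ω → Ω} {c : (Ω ≃ₐ[L] Ω) → JacOver ℓ (f.map (base k F L L)) Ω}
    (hz : KumD (algebraMap F[X] L (C ζ)) z c) (hc : UB F ℓ (f.map (base k F L L)) c)
    (hz1 : (algebraMap L Ω (algebraMap F[X] L (C ζ))) ^ ℓ = 1)
    (hcz : ∀ g, zJ (algebraMap L Ω (algebraMap F[X] L (C ζ))) hz1 (c g) = c g)
    [FiniteDimensional L E] [Algebra F E]
    (hFE : ∀ c : F, algebraMap F E c = algebraMap L E (algebraMap F[X] L (C c))) {x : E} {u : Eˣ}
    (hx : ((f.map (base k F L L)).map (algebraMap L Ω)).eval (algebraMap E Ω x) = 0)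
    (hE : ∀ e : E, algebraMap E Ω e ∈ IntermediateField.adjoin L {algebraMap E Ω x})
    (hu : z (algebraMap E Ω x) ^ ℓ = algebraMap E Ω u) (O : ValuationSubring E)
    (hO : ∀ c : F, algebraMap F E c ∈ O) (hR : IsRegular e F f (algebraMap L E (algebraMap F[X] L X)) x O) :
    ∃ w : Eˣ, O.valuation (u : E) = O.valuation (w : E) ^ ℓ := by
  have hFa : IsAlgClosed F := IsAlgClosure.isAlgClosed k
  have ht : algebraMap F[X] L X ≠ 0 := by
    rw [Ne, IsFractionRing.to_map_eq_zero_iff]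
    exact X_ne_zero
  have htE : algebraMap L E (algebraMap F[X] L X) ≠ 0 := (_root_.map_ne_zero _).2 ht
  have hOt : O ≠ ⊤ := by
    rintro rfl
    have h0 : ∀ y : E, y ≠ 0 → ¬ (⊤ : ValuationSubring E).valuation y < 1 := by
      intro y hy h1
      have h2 : (⊤ : ValuationSubring E).valuation y⁻¹ ≤ 1 :=
        (ValuationSubring.valuation_le_one_iff _ _).2 (ValuationSubring.mem_top _)
      rw [map_inv₀] at h2
      have h3 : (⊤ : ValuationSubring E).valuation y ≠ 0 := (Valuation.ne_zero_iff _).2 hy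
      exact absurd h1 (not_lt.2 ((inv_le_one₀ (zero_lt_iff.2 h3)).1 h2))
    rcases hR with ⟨s, r, h1, -, -⟩ | ⟨r, h1, -, -⟩
    · refine h0 _ ?_ h1
      rw [hFE, ← map_sub, ← map_sub]
      refine (_root_.map_ne_zero _).2 ?_
      rw [Ne, IsFractionRing.to_map_eq_zero_iff]
      exact X_sub_C_ne_zero s
    · exact h0 _ (inv_ne_zero htE) h1
  obtain ⟨K, M, _, _, _, _, i, j, v, hij, hv, hOv⟩ := exists_place (F := F) (L := L) (Ω := Ω) O
    (fun c => by rw [← hFE]; exact hO c) hOt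
  have hlt : ∀ y : E, O.valuation y < 1 → v (j (algebraMap E Ω y)) < 1 := by
    intro y hy
    by_cases hy0 : y = 0
    · rw [hy0, map_zero, map_zero, map_zero]
      exact one_pos
    by_contra hcon
    have h1 : v (j (algebraMap E Ω y⁻¹)) ≤ 1 := by
      rw [map_inv₀, map_inv₀, map_inv₀]
      exact inv_le_one_of_one_le₀ (not_lt.1 hcon)
    have h2 := (ValuationSubring.valuation_le_one_iff _ _).2 ((hOv _).2 h1)
    rw [map_inv₀] at h2
    have h3 : O.valuation y ≠ 0 := (Valuation.ne_zero_iff _).2 hy0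
    exact absurd hy (not_lt.2 ((inv_le_one₀ (zero_lt_iff.2 h3)).1 h2))
  have hjF : ∀ c : F, j (algebraMap E Ω (algebraMap F E c)) = algebraMap K M (i (algebraMap F[X] L (C c))) := by
    intro c
    rw [hFE, ← IsScalarTower.algebraMap_apply L E Ω, hij]
  have hjt : j (algebraMap E Ω (algebraMap L E (algebraMap F[X] L X))) = algebraMap K M (i (algebraMap F[X] L X)) := by
    rw [← IsScalarTower.algebraMap_apply L E Ω, hij]
  obtain ⟨w, hw0, hw⟩ : ∃ w : E, w ≠ 0 ∧ v (j (algebraMap E Ω u)) = v (j (algebraMap E Ω w)) ^ ℓ := by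
    rcases hR with ⟨s, r, h1, h2, h3⟩ | ⟨r, h1, h2, h3⟩
    · have h4 := hlt _ h1
      have h5 := hlt _ h2
      rw [map_sub, map_sub, hjF, hjt] at h4
      rw [map_sub, map_sub, hjF] at h5
      exact l5_fin hℓ hk hB hζ hz hc hz1 hcz i j hij hv hx hE u.ne_zero hu h4 h5 h3
    · have h4 := hlt _ h1
      have h5 := hlt _ h2
      rw [map_inv₀, map_inv₀, map_inv₀, hjt] at h4
      rw [map_sub, map_sub, hjF, map_div₀, map_div₀, map_pow, map_pow, hjt, ← map_pow, ← map_pow] at h5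
      have h6 : 1 < v (algebraMap K M (i (algebraMap F[X] L X))) := by
        by_contra hcon
        have h7 : 0 < v (algebraMap K M (i (algebraMap F[X] L X))) :=
          v.pos ((_root_.map_ne_zero _).2 ((_root_.map_ne_zero i).2 ht))
        exact absurd h4 (not_lt.2 ((one_le_inv₀ h7).2 (not_lt.1 hcon)))
      exact l5_inf hℓ hk hB hζ hz hc hz1 hcz i j hij hv hx hE u.ne_zero hu h6 h5 h3
  refine ⟨Units.mk0 w hw0, ?_⟩
  have hv0 : v (j (algebraMap E Ω w)) ≠ 0 :=
    (v.ne_zero_iff).2 ((_root_.map_ne_zero j).2 ((_root_.map_ne_zero _).2 hw0))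
  have h1 : v (j (algebraMap E Ω ((u : E) / w ^ ℓ))) = 1 := by
    rw [map_div₀, map_div₀, map_div₀, map_pow, map_pow, map_pow, hw, div_self (pow_ne_zero _ hv0)]
  have h2 : ((u : E) / w ^ ℓ) ∈ O := (hOv _).2 h1.le
  have h3 : ((u : E) / w ^ ℓ)⁻¹ ∈ O := (hOv _).2 (by rw [map_inv₀, map_inv₀, map_inv₀, h1, inv_one])
  have h4 := (ValuationSubring.valuation_le_one_iff _ _).2 h2
  have h5 := (ValuationSubring.valuation_le_one_iff _ _).2 h3
  have hne : (u : E) / w ^ ℓ ≠ 0 := div_ne_zero u.ne_zero (pow_ne_zero _ hw0)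
  have h6 : O.valuation ((u : E) / w ^ ℓ) ≠ 0 := (Valuation.ne_zero_iff _).2 hne
  rw [map_inv₀] at h5
  have h7 : O.valuation ((u : E) / w ^ ℓ) = 1 :=
    le_antisymm h4 ((inv_le_one₀ (zero_lt_iff.2 h6)).1 h5)
  have h8 : O.valuation (w ^ ℓ) ≠ 0 := (Valuation.ne_zero_iff _).2 (pow_ne_zero _ hw0)
  rw [map_div₀, div_eq_one_iff_eq h8, map_pow] at h7
  exact h7

end

end Pool.Agent.Lib.MP_89bcae_ag.Zp
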