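import Mathlib
import Pool.Agent.Lib.MP_89bcae_ag.Z.H1
import Pool.Agent.Lib.MP_89bcae_ag.Zp.Loc

/-!
# The properties of the cochains given by unramified cocycles
-/

attribute [local instance 100000] Pool.Agent.Lib.MP_89bcae_ag.Brt.tffFields
attribute [local instance 100000] Pool.Agent.Lib.MP_89bcae_ag.Wt.ifrNF Pool.Agent.Lib.MP_89bcae_ag.Wt.iddNF

open Polynomial IsDedekindDomain

open scoped Classical

namespace Pool.Agent.Lib.MP_89bcae_ag.Zp

open Pool.Agent.Lib.MP_89bcae_ag.Wt Pool.Agent.Lib.MP_89bcae_ag.Wt.Lns Pool.Agent.Lib.MP_89bcae_ag.Bra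
  Pool.Agent.Lib.MP_89bcae_ag.Brt

open Pool.Agent.Lib.MP_89bcae_ag.Zs (LTprop Co1 h1_coef)

section

variable {F L Ω : Type} [Field F] [Field L] [Algebra F[X] L] [Field Ω] [Algebra L Ω] {ℓ : ℕ} {f : L[X]}
  [hG : IsGood ℓ (f.map (algebraMap L Ω))]

theorem ub_add {c c' : (Ω ≃ₐ[L] Ω) → JacOver ℓ f Ω} (h : UB F ℓ f c) (h' : UB F ℓ f c') :
    UB F ℓ f fun g => c g + c' g := by
  obtain ⟨b, C, hb, hu, hC, hc⟩ := h
  obtain ⟨b', C', hb', hu', hC', hc'⟩ := h'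
  refine ⟨_, _, hb.mul hb', hu.mul hu', hC.mul hC', fun g => ?_⟩
  show c g + c' g = cl (C g + C' g)
  rw [hc, hc', map_add]

theorem ub_neg {c : (Ω ≃ₐ[L] Ω) → JacOver ℓ f Ω} (h : UB F ℓ f c) : UB F ℓ f fun g => -c g := by
  obtain ⟨b, C, hb, hu, hC, hc⟩ := h
  refine ⟨_, _, hb.inv, hu.inv, hC.inv, fun g => ?_⟩
  show -c g = cl (-C g)
  rw [hc, map_neg]

theorem ub_cob (Q : JacOver ℓ f Ω) : UB F ℓ f fun σ => symJ (gs f σ) Q - Q := by
  obtain ⟨D, rfl⟩ := cl_surjective Q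
  have h1 : IDiv (fun _ _ => 1 : (Ω ≃ₐ[L] Ω) → (Ω ≃ₐ[L] Ω) → (FunField ℓ (f.map (algebraMap L Ω)))ˣ)
      fun _ => 0 := by
    refine ⟨⟨∅, fun _ _ _ => rfl⟩, fun g h => ?_⟩
    rw [Wt.div_one, Finsupp.mapDomain_zero]
  refine ⟨fun _ _ => 1, _, ⟨fun g h j => ?_, ∅, fun _ _ _ _ _ _ => rfl⟩, ?_, h1.add_coboundary D,
    fun g => ?_⟩
  · rw [map_one]
  · intro O H T _ _ _ _ _ _ _ _ _ _ ψ _ _ _
    refine ⟨fun _ => 1, ⟨∅, fun _ _ _ => rfl⟩, fun g h g' h' _ _ => ?_⟩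
    rw [Units.val_one, Units.val_one, map_one, map_one, one_mul]
  · show symJ (gs f g) (cl D) - cl D = cl (0 + (D.mapDomain (Pt.sym (gs f g)) - D))
    rw [zero_add, map_sub, symJ_cl]

theorem ub_zJ {c : (Ω ≃ₐ[L] Ω) → JacOver ℓ f Ω} (z : L) (hz : (algebraMap L Ω z) ^ ℓ = 1)
    (h : UB F ℓ f c) : UB F ℓ f fun g => zJ (algebraMap L Ω z) hz (c g) := by
  obtain ⟨b, C, hb, hu, hC, hc⟩ := h
  have hz0 : algebraMap L Ω z ≠ 0 := by
    intro h1
    rw [h1, zero_pow (zero_lt_one.trans hG.one_lt).ne'] at hz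
    exact zero_ne_one hz
  refine ⟨_, _, hb.rot hz hz0, hu.rot hz hz0, hC.rot hz hz0, fun g => ?_⟩
  show zJ (algebraMap L Ω z) hz (c g) = cl ((C g).mapDomain (Pt.rot (algebraMap L Ω z) hz))
  rw [hc, zJ_cl]

omit hG in
private lemma ltp_comp {A B C : Type} [Field A] [Field B] [Field C] {p : A[X]} {q : B[X]} {r : C[X]}
    (σ : A →+* B) (τ : B →+* C) (h1 : p.map σ = q) (h2 : q.map τ = r) (υ : A →+* C)
    (h3 : p.map υ = r) (h : τ.comp σ = υ) (x : FunField ℓ p) :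
    funMap ℓ τ h2 (funMap ℓ σ h1 x) = funMap ℓ υ h3 x := by
  have h4 : (funMap ℓ τ h2 : FunField ℓ q →+* FunField ℓ r).comp (funMap ℓ σ h1) =
      (funMap ℓ υ h3 : FunField ℓ p →+* FunField ℓ r) := by
    refine funField_hom_ext (fun a => ?_) ?_
    · rw [RingHom.comp_apply, funMap_polyF, funMap_polyF, funMap_polyF, Polynomial.map_map, h]
    · rw [RingHom.comp_apply, funMap_yF, funMap_yF, funMap_yF]
  exact RingHom.congr_fun h4 x

/-- The action of an automorphism `γ` of `Ω` which induces an automorphism `s` of `L` with `s(F) = F`. -/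
theorem ub_act (γ : Sym (f.map (algebraMap L Ω))) {s : L ≃+* L}
    (hs : ∀ z, (γ : Ω ≃+* Ω) (algebraMap L Ω z) = algebraMap L Ω (s z))
    (hF : ∀ a : F, ∃ b : F, s (algebraMap F[X] L (C a)) = algebraMap F[X] L (C b))
    (κ : (Ω ≃ₐ[L] Ω) → (Ω ≃ₐ[L] Ω)) (hκ : ∀ g x, (γ : Ω ≃+* Ω) (κ g x) = g ((γ : Ω ≃+* Ω) x))
    {c : (Ω ≃ₐ[L] Ω) → JacOver ℓ f Ω} (h : UB F ℓ f c) : UB F ℓ f fun g => symJ γ (c (κ g)) := by
  obtain ⟨b, D, hb, hu, hD, hc⟩ := h
  have hκm : ∀ g h, κ (g * h) = κ g * κ h := by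
    intro g h
    apply AlgEquiv.ext
    intro x
    apply (γ : Ω ≃+* Ω).injective
    rw [hκ, AlgEquiv.mul_apply, AlgEquiv.mul_apply, hκ, hκ]
  have hfs : f.map (s : L →+* L) = f := by
    apply Polynomial.map_injective (algebraMap L Ω) (algebraMap L Ω).injective
    have h1 : (f.map (algebraMap L Ω)).map (((γ : Ω ≃+* Ω)) : Ω →+* Ω) = f.map (algebraMap L Ω) := γ.2
    rw [Polynomial.map_map] at h1 ⊢
    rw [← h1]
    congr 1
    exact RingHom.ext fun z => (hs z).symm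
  have hfs' : f.map (s.symm : L →+* L) = f := by
    have h1 : ((s.symm : L ≃+* L) : L →+* L).comp (s : L →+* L) = RingHom.id L :=
      RingHom.ext fun z => s.symm_apply_apply z
    conv_lhs => rw [← hfs]
    rw [Polynomial.map_map, h1, Polynomial.map_id]
  have hγ : (f.map (algebraMap L Ω)).map (((γ : Ω ≃+* Ω)) : Ω →+* Ω) = f.map (algebraMap L Ω) := γ.2
  -- the action and the maps of `Aut(Ω/L)`
  have hsym : ∀ (g : Ω ≃ₐ[L] Ω) (u : (FunField ℓ (f.map (algebraMap L Ω)))ˣ),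
      symU γ (symU (gs f (κ g)) u) = symU (gs f g) (symU γ u) := by
    intro g u
    apply Units.ext
    rw [coe_symU', coe_symU', coe_symU', coe_symU']
    have h2 : (f.map (algebraMap L Ω)).map ((((γ : Ω ≃+* Ω)) : Ω →+* Ω).comp
        (((gs f (κ g) : Sym (f.map (algebraMap L Ω))) : Ω ≃+* Ω) : Ω →+* Ω)) =
          f.map (algebraMap L Ω) := by
      rw [← Polynomial.map_map]
      have h3 : (f.map (algebraMap L Ω)).map
        (((gs f (κ g) : Sym (f.map (algebraMap L Ω))) : Ω ≃+* Ω) : Ω →+* Ω) =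
          f.map (algebraMap L Ω) := (gs f (κ g)).2
      rw [h3]
      exact hγ
    exact (ltp_comp _ _ _ _ _ h2 rfl (u : FunField ℓ (f.map (algebraMap L Ω)))).trans
      (ltp_comp _ _ _ _ _ h2 (RingHom.ext fun x => (hκ g x).symm)
        (u : FunField ℓ (f.map (algebraMap L Ω)))).symm
  refine ⟨fun g h => symU γ (b (κ g) (κ h)), fun g => (D (κ g)).mapDomain (Pt.sym γ), ⟨?_, ?_⟩, ?_,
    ⟨?_, ?_⟩, ?_⟩
  · intro g h j
    show symU γ (b (κ g) (κ h)) * symU γ (b (κ (g * h)) (κ j)) =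
      symU (gs f g) (symU γ (b (κ h) (κ j))) * symU γ (b (κ g) (κ (h * j)))
    rw [← hsym, ← map_mul, ← map_mul, hκm, hκm, hb.cocycle]
  · obtain ⟨T, hT⟩ := hb.continuous
    refine ⟨T.image (γ : Ω ≃+* Ω), fun g g' h h' h1 h2 => ?_⟩
    refine congrArg (symU γ) (hT _ _ _ _ (fun x hx => ?_) fun x hx => ?_)
    · apply (γ : Ω ≃+* Ω).injective
      rw [hκ, hκ]
      exact h1 _ (Finset.mem_image_of_mem _ hx)
    · apply (γ : Ω ≃+* Ω).injective
      rw [hκ, hκ]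
      exact h2 _ (Finset.mem_image_of_mem _ hx)
  · -- unramified
    intro O H T _ _ _ _ _ _ _ _ _ _ ψ h1 h2 h3
    let ψ' : FunField ℓ (f.map (algebraMap L Ω)) →+* T :=
      ψ.comp (funMap ℓ (((γ : Ω ≃+* Ω)) : Ω →+* Ω) hγ)
    have hψ' : ∀ z, ψ' z = ψ (funMap ℓ (((γ : Ω ≃+* Ω)) : Ω →+* Ω) hγ z) := fun _ => rfl
    have hto : ∀ r : FunField ℓ f, ψ' (toO ℓ f Ω r) = ψ (toO ℓ f Ω (funMap ℓ (s : L →+* L) hfs r)) := by
      intro r
      rw [hψ']
      congr 1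
      unfold toO
      have h4 : f.map ((((γ : Ω ≃+* Ω)) : Ω →+* Ω).comp (algebraMap L Ω)) = f.map (algebraMap L Ω) := by
        rw [← Polynomial.map_map]
        exact hγ
      exact (ltp_comp _ _ _ _ _ h4 rfl r).trans
        (ltp_comp _ _ _ _ _ h4 (RingHom.ext fun z => (hs z).symm) r).symm
    have hcO : ∀ z : Ω, ψ' (cO ℓ f Ω z) = ψ (cO ℓ f Ω ((γ : Ω ≃+* Ω) z)) := by
      intro z
      rw [hψ']
      congr 1
      show funMap ℓ (((γ : Ω ≃+* Ω)) : Ω →+* Ω) hγ (polyF (C z)) = polyF (C ((γ : Ω ≃+* Ω) z))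
      rw [funMap_polyF, Polynomial.map_C]
      rfl
    obtain ⟨α, hα, hα'⟩ := hu O H T ψ'
      (fun r => by
        rw [hto]
        exact h1 _)
      (fun a => by
        obtain ⟨a', ha'⟩ := hF a
        rw [hcO, hs, ha']
        exact h2 a')
      (by
        obtain ⟨r, hr⟩ := h3
        refine ⟨funMap ℓ (s.symm : L →+* L) hfs' r, ?_⟩
        rw [hto]
        have h4 : funMap ℓ (s : L →+* L) hfs (funMap ℓ (s.symm : L →+* L) hfs' r) = r :=
          RingHom.congr_fun (R07_funMap_comp (f := f) (s : L →+* L) (s.symm : L →+* L) hfs hfs'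
            (RingHom.ext fun z => s.apply_symm_apply z)) r
        rw [h4]
        exact hr)
    refine ⟨α, hα, fun g h g' h' hg hh => ?_⟩
    have h5 := hα' g h (κ g') (κ h')
      (fun z => by
        rw [hcO, hcO, hκ]
        exact hg _)
      (fun z => by
        rw [hcO, hcO, hκ]
        exact hh _)
    rw [hψ', ← coe_symU' γ] at h5
    exact h5
  · obtain ⟨T, hT⟩ := hD.continuous
    refine ⟨T.image (γ : Ω ≃+* Ω), fun g g' h1 => ?_⟩
    refine congrArg (fun E => Finsupp.mapDomain (Pt.sym γ) E) (hT _ _ fun x hx => ?_)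
    apply (γ : Ω ≃+* Ω).injective
    rw [hκ, hκ]
    exact h1 _ (Finset.mem_image_of_mem _ hx)
  · intro g h
    show Wt.div (symU γ (b (κ g) (κ h))) + (D (κ (g * h))).mapDomain (Pt.sym γ) =
      ((D (κ h)).mapDomain (Pt.sym γ)).mapDomain (Pt.sym (gs f g)) + (D (κ g)).mapDomain (Pt.sym γ)
    have h1 : ((D (κ h)).mapDomain (Pt.sym γ)).mapDomain (Pt.sym (gs f g)) =
        ((D (κ h)).mapDomain (Pt.sym (gs f (κ g)))).mapDomain (Pt.sym γ) := by
      rw [← Finsupp.mapDomain_comp, ← Finsupp.mapDomain_comp]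
      congr 1
      funext P
      apply Pt.ext
      · exact (hκ g P.x).symm
      · exact (hκ g P.y).symm
    rw [Wt.div_symU, h1, ← Finsupp.mapDomain_add, ← Finsupp.mapDomain_add, hκm, hD.div]
  · intro g
    show symJ γ (c (κ g)) = cl ((D (κ g)).mapDomain (Pt.sym γ))
    rw [hc, symJ_cl]

end

section

variable {k F L Ω : Type} [Field k] [Field F] [Algebra k F] [Field L] [Algebra F[X] L]
  [Field Ω] [Algebra L Ω] [IsAlgClosure k F] [IsFractionRing F[X] L] [IsAlgClosure L Ω]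
  {ℓ : ℕ} {P : k[X][X]} {ζ : k} [hG : IsGood ℓ (cOver k F L Ω P)]

theorem ltprop_ub : LTprop (Ω := Ω) ζ (UB F ℓ (curveL k F L P)) where
  add h h' := ub_add h h'
  neg h := ub_neg h
  cob Q := ub_cob Q
  zJ hζ _ h := ub_zJ (f := curveL k F L P) (base k F L L (C ζ)) hζ h
  act γ a h := by
    refine ub_act (toSym P γ) (s := Sup.coefL L (resF γ : F ≃+* F)) (h1_coef γ)
      (fun a => ⟨resF γ a, by rw [Sup.coefL_algebraMap, Polynomial.map_C]; rfl⟩)
      (fun σ => conjG γ⁻¹ σ) (fun g x => ?_) h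
    have h2 := conjG_spec γ⁻¹ g ((γ : Ω ≃+* Ω) x)
    have h3 : ∀ z : Ω, ((γ⁻¹ : AutO k F L Ω) : Ω ≃+* Ω) ((γ : Ω ≃+* Ω) z) = z := fun z =>
      (γ : Ω ≃+* Ω).symm_apply_apply z
    have h4 : ∀ z : Ω, (γ : Ω ≃+* Ω) (((γ⁻¹ : AutO k F L Ω) : Ω ≃+* Ω) z) = z := fun z =>
      (γ : Ω ≃+* Ω).apply_symm_apply z
    rw [h3] at h2
    show (γ : Ω ≃+* Ω) (conjG γ⁻¹ g x) = g ((γ : Ω ≃+* Ω) x)
    rw [h2, h4]

end

end Pool.Agent.Lib.MP_89bcae_ag.Zp
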