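import Mathlib
import Pool.Agent.Lib.MP_89bcae_ag.Z.H1
import Pool.Agent.Lib.MP_89bcae_ag.Z.Kum
import Pool.Agent.Lib.MP_89bcae_ag.Zp.L5
import Pool.Agent.Lib.MP_89bcae_ag.Zp.Ltp
import Pool.Agent.Lib.MP_89bcae_ag.Zp.Fin
import Pool.Agent.Lib.MP_89bcae_ag.Zp.ET
import Pool.Agent.Lib.MP_89bcae_ag.Zp.Jac

/-!
# The theorem for the surfaces with irreducible branch curve
-/

attribute [local instance 100000] Pool.Agent.Lib.MP_89bcae_ag.Brt.tffFields
attribute [local instance 100000] Pool.Agent.Lib.MP_89bcae_ag.Wt.ifrNF Pool.Agent.Lib.MP_89bcae_ag.Wt.iddNF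

open Polynomial IsDedekindDomain

open scoped Classical

namespace Pool.Agent.Lib.MP_89bcae_ag.Zp

open Pool.Agent.Lib.MP_89bcae_ag.Wt Pool.Agent.Lib.MP_89bcae_ag.Wt.Lns Pool.Agent.Lib.MP_89bcae_ag.Bra
  Pool.Agent.Lib.MP_89bcae_ag.Brt Pool.Agent.Lib.MP_89bcae_ag.Zc

open Pool.Agent.Lib.MP_89bcae_ag.Zs hiding IsBranchCurve IsCritical IsSymplectic IsOrthogonal IsSmoothAt unramified
  critical_contra l3_val l4_chart lf_z

section

variable {k F L Ω : Type} [Field k] [Field F] [Algebra k F] [IsAlgClosure k F] [Field L] [Algebra F[X] L]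
  [IsFractionRing F[X] L] [Field Ω] [Algebra L Ω] [IsAlgClosure L Ω] {ℓ e : ℕ} {f : k[X][X]} {ζ : k}

/-- The hypotheses on the generic fibre. -/
theorem lhyp_of (hℓ : ℓ.Prime) (hk : (ℓ : k) ≠ 0) (hζ : IsPrimitiveRoot ζ ℓ) (hB : IsBranchCurve ℓ e F f) :
    LHyp ℓ k F L f ζ := by
  refine ⟨hℓ, hk, hζ, ?_⟩
  intro A _ _ _
  obtain ⟨hsep, -⟩ := good_of (Ω := AlgebraicClosure L) (L := L) hℓ hk hB
  refine ⟨inferInstance, hℓ.one_lt, ?_, ?_, ?_⟩
  · intro h
    apply hk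
    have h1 : ((algebraMap L A).comp ((algebraMap F[X] L).comp ((C : F →+* F[X]).comp (algebraMap k F)))) (ℓ : k) = 0 := by
      rw [map_natCast]
      exact h
    exact (_root_.map_eq_zero _).1 h1
  · intro θ hθ
    have hsep' : ((f.map (base k F L L)).map (algebraMap L A)).Separable := hsep.map
    have h1 := Polynomial.rootMultiplicity_le_one_of_separable hsep' θ
    have h2 : 0 < ((f.map (base k F L L)).map (algebraMap L A)).rootMultiplicity θ :=
      (Polynomial.rootMultiplicity_pos hsep'.ne_zero).mpr hθ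
    show (((f.map (base k F L L)).map (algebraMap L A)).rootMultiplicity θ).Coprime ℓ
    rw [show ((f.map (base k F L L)).map (algebraMap L A)).rootMultiplicity θ = 1 by omega]
    exact Nat.coprime_one_left ℓ
  · show (((f.map (base k F L L)).map (algebraMap L A)).natDegree).Coprime ℓ
    rw [natDegree_map, hB.monic.natDegree_map]
    exact hB.coprime

/-- The invariant classes are trivial. -/
theorem ntg_main (hℓ : ℓ.Prime) (hk : (ℓ : k) ≠ 0) (hζ : IsPrimitiveRoot ζ ℓ) (hB : IsBranchCurve ℓ e F f)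
    {E : Type} [Field E] [Algebra F E] {t x : E} (hE : IsCurveField F f t x)
    (hC : IsCritical ℓ k F t x (unramified ℓ e F f t x))
    [hG₁ : IsGood ℓ ((f.map (base k F L L)).map (algebraMap L Ω))]
    (k' : IntermediateField k F) [FiniteDimensional k k'] :
    NTg ℓ 1 (f.map (base k F L L)) (UB F ℓ (f.map (base k F L L))) (AutK k F L Ω k') := by
  have H : LHyp ℓ k F L f ζ := lhyp_of hℓ hk hζ hB
  obtain ⟨hsep, hG₀⟩ := good_of (Ω := Ω) (L := L) hℓ hk hB
  have hG : IsGood ℓ (cOver k F L Ω f) := hG₀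
  have hz : IsPrimitiveRoot (zA F L Ω ζ) ℓ := zA_prim H
  have hirr : Irreducible (curveL k F L f) := by
    have h1 : (Zs.ext F f).Monic := hB.monic.map _
    have h2 := (h1.irreducible_iff_irreducible_map_fraction_map (K := L)).1 hB.irreducible
    rwa [← map_base_eq] at h2
  obtain ⟨lam, ι, h1, h2, h3, hroot, hfin, hadj⟩ := exists_emb (L := L) (Ω := Ω) hB.monic hE
  obtain ⟨ρ, hρ1, hρ2, hρ3⟩ := exists_resE hℓ hζ hB.monic hE lam ι h1 h2 h3 (Gst k F L (ι x)) (fun γ => Iff.rfl)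
  let _ : Algebra L E := lam.toAlgebra
  let _ : Algebra E Ω := ι.toAlgebra
  have htow : IsScalarTower L E Ω := IsScalarTower.of_algebraMap_eq fun z => (h1 z).symm
  have hfin' : FiniteDimensional L E := hfin
  let _ : DistribMulAction (Gst k F L (ι x)) (Additive (Eˣ ⧸ powers ℓ E)) := DistribMulAction.compHom _ ρ
  have hsm : ∀ (g : Gst k F L (ι x)) (u : Eˣ), g • (Additive.ofMul (QuotientGroup.mk u : Eˣ ⧸ powers ℓ E)) =
      Additive.ofMul (QuotientGroup.mk (Units.map ((ρ g : E ≃+* E) : E →* E) u)) := fun g u => actPow_mk (ρ g) u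
  have hpow : ∀ u : Eˣ, (Additive.ofMul (QuotientGroup.mk u : Eˣ ⧸ powers ℓ E)) = 0 ↔ ∃ w : Eˣ, w ^ ℓ = u := by
    intro u
    have h4 : (Additive.ofMul (QuotientGroup.mk u : Eˣ ⧸ powers ℓ E)) = 0 ↔
        (QuotientGroup.mk u : Eˣ ⧸ powers ℓ E) = 1 := Iff.rfl
    rw [h4, QuotientGroup.eq_one_iff]
    exact Iff.rfl
  have hιinj : Function.Injective ι := ι.injective
  have hFact : Fact ℓ.Prime := ⟨hℓ⟩
  have hzF : IsPrimitiveRoot (algebraMap k F ζ) ℓ := hζ.map_of_injective (algebraMap k F).injective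
  have hzeq : zA F L Ω ζ = algebraMap L Ω (algebraMap F[X] L (C (algebraMap k F ζ))) := by
    show algebraMap L Ω (algebraMap F[X] L ((C ζ).map (algebraMap k F))) = _
    rw [map_C]
  refine ntg_of (LT := UB F ℓ (curveL k F L f)) H hirr ltprop_ub (ι x) hz.pow_eq_one
    (M := Additive (Eˣ ⧸ powers ℓ E))
    (fun c m => ∃ u : Eˣ, m = Additive.ofMul (QuotientGroup.mk u : Eˣ ⧸ powers ℓ E) ∧
      IsKum ζ (ι x) (fun σ => vJ (zA F L Ω ζ) hz.pow_eq_one (c 1 σ)) (ι (u : E)))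
    ?_ ?_ ?_ ?_ ?_ ?_ ?_ k'
  · -- existence
    intro c hc
    obtain ⟨u, hu1, hu2⟩ := exists_isKum H hz.pow_eq_one hirr hsep hroot hc.1
    obtain ⟨u', rfl⟩ := (hadj u).1 hu1
    have hu0 : u' ≠ 0 := by
      rintro rfl
      exact hu2.ne_zero hroot (map_zero ι)
    exact ⟨_, Units.mk0 u' hu0, rfl, hu2⟩
  · -- sums
    rintro c c' - - m m' ⟨u, rfl, hu⟩ ⟨u', rfl, hu'⟩
    refine ⟨u * u', rfl, ?_⟩
    have h4 := hu.add (hz.ne_zero hℓ.ne_zero) hu'
    rw [← map_mul, ← Units.val_mul] at h4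
    refine Eq.mp (congrArg (fun a => IsKum ζ (ι x) a _) ?_) h4
    funext σ
    exact (vJ_add _ _ _ _).symm
  · -- trivial classes
    rintro c hc m ⟨u, rfl, hu⟩
    obtain ⟨q, hq⟩ := Trc.exists_cob H hz.pow_eq_one hc
    obtain ⟨w, hw1, hw2⟩ := hu.exists_pow H hirr hsep hroot ((hadj _).2 ⟨u, rfl⟩) hq
    obtain ⟨w', rfl⟩ := (hadj w).1 hw1
    rw [← map_pow] at hw2
    have hw3 : (u : E) = w' ^ ℓ := hιinj hw2
    have hw0 : w' ≠ 0 := by
      rintro rfl
      rw [zero_pow hℓ.ne_zero] at hw3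
      exact u.ne_zero hw3
    rw [hpow]
    exact ⟨Units.mk0 w' hw0, Units.ext hw3.symm⟩
  · -- `Z`
    rintro c hc m ⟨u, rfl, hu⟩
    exact ⟨u, rfl, isKum_zC H hz.pow_eq_one hc.1 hu⟩
  · -- kernel
    rintro c hc ⟨u, hu0, hu⟩
    obtain ⟨w, hw⟩ := (hpow u).1 hu0.symm
    rw [← hw, Units.val_pow_eq_pow_val, map_pow] at hu
    exact hu.exists_cob H hirr hsep hroot ((hadj _).2 ⟨w, rfl⟩)
  · -- equivariance
    rintro g c hc m ⟨u, rfl, hu⟩
    refine ⟨_, hsm g u, ?_⟩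
    have h4 := hu.act (γ := (g : AutO k F L Ω)) g.2
    rw [← hρ1] at h4
    refine Eq.mp (congrArg (fun a => IsKum ζ (ι x) a _) ?_) h4
    funext σ
    exact (vJ_symJ (zA F L Ω ζ) hz.pow_eq_one (toSym f (g : AutO k F L Ω)) (zA_fixed ζ (g : AutO k F L Ω)) _).symm
  · -- the criterion
    intro N hN hNE hNst r hr
    by_contra hcon
    refine critical_contra' (powers_le_unramified ℓ e f t x) hC ρ hρ2 hρ3 N hN ?_ hNst hr (not_lt.1 hcon)
    intro m hm
    obtain ⟨c, hc, u, hmu, z, hz1, hz2, hz3⟩ := hNE m hm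
    refine ⟨u, ⟨?_, fun O hO hR => ?_⟩, hmu⟩
    · have hℓL : (ℓ : L) ≠ 0 := by
        intro h
        apply hk
        have h5 : ((algebraMap F[X] L).comp ((C : F →+* F[X]).comp (algebraMap k F))) (ℓ : k) = 0 := by
          rw [map_natCast]
          exact h
        exact (_root_.map_eq_zero _).1 h5
      have hzL : algebraMap L Ω (zA F L L ζ) = zA F L Ω ζ := by
        show algebraMap L Ω (algebraMap L L (algebraMap F[X] L ((C ζ).map (algebraMap k F)))) = _
        rfl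
      refine norm_pow (L := L) (Ω := Ω) (P := curveL k F L f) hℓL (hB.monic.map _) hirr hsep lam ι h1 h2 h3
        hroot hadj (ζ := zA F L L ζ) (by
          show (algebraMap L L (algebraMap F[X] L ((C ζ).map (algebraMap k F)))) ^ ℓ = 1
          rw [map_C, ← map_pow, ← map_pow, ← map_pow, ← map_pow, hζ.pow_eq_one, map_one, map_one, map_one, map_one]) (fun σ => ?_) u.ne_zero hz2
      obtain ⟨n, hn1, -, hn3⟩ := hz3 σ
      refine ⟨n, fun θ hθ => ?_, hn3⟩
      rw [hzL]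
      exact hn1 θ hθ
    · have hzL : zA F L L ζ = algebraMap F[X] L (C (algebraMap k F ζ)) := by
        show algebraMap L L (algebraMap F[X] L ((C ζ).map (algebraMap k F))) = _
        rw [map_C]
        rfl
      refine l5_regular (L := L) (Ω := Ω) (ζ := algebraMap k F ζ) (z := z)
        (c := fun σ => vJ (zA F L Ω ζ) hz.pow_eq_one (c 1 σ)) hℓ hk hB hzF ?_ ?_
        (by rw [← hzeq]; exact hz.pow_eq_one) ?_ (fun c => (h2 c).symm)
        (x := x) hroot (fun e => (hadj _).2 ⟨e, rfl⟩) hz2 O hO ?_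
      · rw [← hzL]
        exact ⟨hz1, hz3⟩
      · exact ltprop_ub.vJ hz.pow_eq_one (hc.2.1 1)
      · intro σ
        have h4 := vJ_sub_zJ (zA F L Ω ζ) hz (c 1 σ)
        rw [hc.1.smul 0 σ, hc.1.zero, sub_eq_zero] at h4
        exact (G04_zJ_congr hzeq.symm _ hz.pow_eq_one _).trans h4.symm
      · show IsRegular e F f (lam (algebraMap F[X] L X)) x O
        rw [h3]
        exact hR

end

end Pool.Agent.Lib.MP_89bcae_ag.Zp
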